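import Mathlib

open Set Topology

namespace Pool.Agent.Helper300.Cont

variable {E : Type*} [TopologicalSpace E]

/-- `M` is the union of two proper subcontinua. -/
def Dec (M : Set E) : Prop :=
  ∃ A B : Set E, A ⊆ M ∧ B ⊆ M ∧ A ≠ M ∧ B ≠ M ∧ IsCompact A ∧ IsConnected A ∧
    IsCompact B ∧ IsConnected B ∧ A ∪ B = M

/-- every nondegenerate subcontinuum of `K` is decomposable. -/
def HD (K : Set E) : Prop :=
  ∀ M : Set E, M ⊆ K → IsCompact M → IsConnected M → M.Nontrivial → Dec M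

theorem HD.mono {K L : Set E} (h : HD L) (hKL : K ⊆ L) : HD K :=
  fun M hM => h M (hM.trans hKL)

/-- If a connected closed set is the union of two closed pieces meeting in at most one point,
then the pieces are connected. -/
theorem isPreconnected_inter {M F G : Set E} (hMc : IsClosed M) (hM : IsPreconnected M)
    (hF : IsClosed F) (hG : IsClosed G) (hFG : M ⊆ F ∪ G) (hs : (M ∩ F ∩ G).Subsingleton) :
    IsPreconnected (M ∩ F) := by
  rw [isPreconnected_iff_subset_of_fully_disjoint_closed (hMc.inter hF)]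
  intro u v hu hv huv hd
  by_cases hne : (M ∩ F ∩ G).Nonempty
  · obtain ⟨z, hz⟩ := hne
    have main : ∀ u v : Set E, IsClosed u → IsClosed v → M ∩ F ⊆ u ∪ v → Disjoint u v → z ∈ u →
        M ∩ F ⊆ u := by
      intro u v hu hv huv hd hzu x hx
      by_contra hxu
      have hxv : x ∈ v := (huv hx).resolve_left hxu
      have h1 : M ⊆ (M ∩ F ∩ v) ∪ ((M ∩ F ∩ u) ∪ (M ∩ G)) := by
        intro y hy
        rcases hFG hy with hyF | hyG
        · rcases huv ⟨hy, hyF⟩ with h | h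
          · exact Or.inr (Or.inl ⟨⟨hy, hyF⟩, h⟩)
          · exact Or.inl ⟨⟨hy, hyF⟩, h⟩
        · exact Or.inr (Or.inr ⟨hy, hyG⟩)
      obtain ⟨y, _, hy1, hy2⟩ := isPreconnected_closed_iff.1 hM (M ∩ F ∩ v)
        ((M ∩ F ∩ u) ∪ (M ∩ G)) ((hMc.inter hF).inter hv)
        (((hMc.inter hF).inter hu).union (hMc.inter hG)) h1 ⟨x, hx.1, hx, hxv⟩
        ⟨z, hz.1.1, Or.inl ⟨hz.1, hzu⟩⟩
      rcases hy2 with h | h
      · exact disjoint_left.1 hd h.2 hy1.2
      · have : y = z := hs ⟨hy1.1, h.2⟩ hz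
        rw [this] at hy1
        exact disjoint_left.1 hd hzu hy1.2
    rcases huv hz.1 with h | h
    · exact Or.inl (main u v hu hv huv hd h)
    · exact Or.inr (main v u hv hu (by rwa [union_comm]) hd.symm h)
  · -- then one of the pieces is empty
    rw [not_nonempty_iff_eq_empty] at hne
    by_cases hFe : (M ∩ F).Nonempty
    · by_cases hGe : (M ∩ G).Nonempty
      · exfalso
        obtain ⟨y, hy1, hy2, hy3⟩ := isPreconnected_closed_iff.1 hM F G hF hG hFG hFe hGe
        have : y ∈ M ∩ F ∩ G := ⟨⟨hy1, hy2⟩, hy3⟩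
        rw [hne] at this
        exact this
      · have hMF : M ⊆ F := by
          intro y hy
          rcases hFG hy with h | h
          · exact h
          · exact absurd ⟨y, hy, h⟩ hGe
        have : M ∩ F = M := inter_eq_left.2 hMF
        rw [this] at huv ⊢
        rcases isPreconnected_iff_subset_of_disjoint_closed.1 hM u v hu hv huv
          (by rw [hd.inter_eq, inter_empty]) with h | h
        · exact Or.inl h
        · exact Or.inr h
    · left
      rw [not_nonempty_iff_eq_empty] at hFe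
      rw [hFe]
      exact empty_subset _

theorem dec_of_closed [T2Space E] {M F G : Set E} (hMc : IsCompact M) (hM : IsConnected M)
    (hF : IsClosed F) (hG : IsClosed G) (hFG : M ⊆ F ∪ G) {x y : E} (hx : x ∈ M) (hxF : x ∉ F)
    (hy : y ∈ M) (hyG : y ∉ G) (hs : (M ∩ F ∩ G).Subsingleton) : Dec M := by
  refine ⟨M ∩ F, M ∩ G, inter_subset_left, inter_subset_left, ?_, ?_, hMc.inter_right hF,
    ⟨⟨y, hy, (hFG hy).resolve_right hyG⟩, ?_⟩, hMc.inter_right hG,
    ⟨⟨x, hx, (hFG hx).resolve_left hxF⟩, ?_⟩, ?_⟩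
  · intro h
    exact hxF ((h.symm ▸ hx : x ∈ M ∩ F).2)
  · intro h
    exact hyG ((h.symm ▸ hy : y ∈ M ∩ G).2)
  · exact isPreconnected_inter hMc.isClosed hM.isPreconnected hF hG hFG hs
  · refine isPreconnected_inter hMc.isClosed hM.isPreconnected hG hF (by rwa [union_comm]) ?_
    intro a ha b hb
    exact hs ⟨⟨ha.1.1, ha.2⟩, ha.1.2⟩ ⟨⟨hb.1.1, hb.2⟩, hb.1.2⟩
  · rw [← inter_union_distrib_left]
    exact inter_eq_left.2 hFG

/-- decomposition by a real function with a level set meeting `M` in at most one point. -/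
theorem dec_of_fun [T2Space E] {M : Set E} (hMc : IsCompact M) (hM : IsConnected M) {g : E → ℝ}
    (hg : Continuous g) {c : ℝ} {x y : E} (hx : x ∈ M) (hxc : g x < c) (hy : y ∈ M) (hyc : c < g y)
    (hs : ∀ a ∈ M, ∀ b ∈ M, g a = c → g b = c → a = b) : Dec M := by
  refine dec_of_closed (F := {z | c ≤ g z}) (G := {z | g z ≤ c}) hMc hM
    (isClosed_le continuous_const hg) (isClosed_le hg continuous_const)
    (fun z _ => by
      rcases le_total c (g z) with h | h
      · exact Or.inl h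
      · exact Or.inr h) hx (not_le.2 hxc) hy (not_le.2 hyc) ?_
  intro a ha b hb
  exact hs a ha.1.1 b hb.1.1 (le_antisymm ha.2 ha.1.2) (le_antisymm hb.2 hb.1.2)

theorem HD.union [T2Space E] {K L : Set E} (hK : HD K) (hL : HD L) (hKc : IsClosed K)
    (hLc : IsClosed L) (hs : (K ∩ L).Subsingleton) : HD (K ∪ L) := by
  intro M hM hMc hMconn hnt
  by_cases h1 : M ⊆ K
  · exact hK M h1 hMc hMconn hnt
  by_cases h2 : M ⊆ L
  · exact hL M h2 hMc hMconn hnt
  obtain ⟨x, hx, hxK⟩ := not_subset.1 h1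
  obtain ⟨y, hy, hyL⟩ := not_subset.1 h2
  exact dec_of_closed hMc hMconn hKc hLc hM hx hxK hy hyL
    (fun a ha b hb => hs ⟨ha.1.2, ha.2⟩ ⟨hb.1.2, hb.2⟩)

/-- arcs -/
theorem HD_arc [T2Space E] {φ : ℝ → E} {a b : ℝ} (hφ : ContinuousOn φ (Icc a b))
    (hinj : InjOn φ (Icc a b)) : HD (φ '' Icc a b) := by
  intro M hM hMc hMconn hnt
  obtain ⟨x, hx, y, hy, hxy⟩ := hnt
  have main : ∀ s ∈ Icc a b, ∀ t ∈ Icc a b, φ s ∈ M → φ t ∈ M → s < t → Dec M := by
    intro s hs t ht hsM htM hst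
    have hc1 : s < (s + t) / 2 := by linarith
    have hc2 : (s + t) / 2 < t := by linarith
    have hca : a ≤ (s + t) / 2 := by linarith [hs.1]
    have hcb : (s + t) / 2 ≤ b := by linarith [ht.2]
    have hsub1 : Icc a ((s + t) / 2) ⊆ Icc a b := Icc_subset_Icc_right hcb
    have hsub2 : Icc ((s + t) / 2) b ⊆ Icc a b := Icc_subset_Icc_left hca
    refine dec_of_closed (F := φ '' Icc ((s + t) / 2) b) (G := φ '' Icc a ((s + t) / 2)) hMc hMconn
      (isCompact_Icc.image_of_continuousOn (hφ.mono hsub2)).isClosed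
      (isCompact_Icc.image_of_continuousOn (hφ.mono hsub1)).isClosed ?_ hsM ?_ htM ?_ ?_
    · intro z hz
      obtain ⟨r, hr, rfl⟩ := hM hz
      rcases le_total r ((s + t) / 2) with h | h
      · exact Or.inr ⟨r, ⟨hr.1, h⟩, rfl⟩
      · exact Or.inl ⟨r, ⟨h, hr.2⟩, rfl⟩
    · rintro ⟨r, hr, hrs⟩
      have := hinj (hsub2 hr) hs hrs
      rw [this] at hr
      linarith [hr.1]
    · rintro ⟨r, hr, hrs⟩
      have := hinj (hsub1 hr) ht hrs
      rw [this] at hr
      linarith [hr.2]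
    · rintro p ⟨⟨_, ⟨r1, hr1, rfl⟩⟩, ⟨r2, hr2, h2⟩⟩ q ⟨⟨_, ⟨r3, hr3, rfl⟩⟩, ⟨r4, hr4, h4⟩⟩
      have e1 := hinj (hsub1 hr2) (hsub2 hr1) h2
      have e2 := hinj (hsub1 hr4) (hsub2 hr3) h4
      have e3 : r1 = (s + t) / 2 := le_antisymm (by rw [← e1]; exact hr2.2) hr1.1
      have e4 : r3 = (s + t) / 2 := le_antisymm (by rw [← e2]; exact hr4.2) hr3.1
      rw [e3, e4]
  obtain ⟨s, hs, rfl⟩ := hM hx
  obtain ⟨t, ht, rfl⟩ := hM hy
  have hst : s ≠ t := fun h => hxy (by rw [h])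
  rcases lt_or_gt_of_ne hst with h | h
  · exact main s hs t ht hx hy h
  · exact main t ht s hs hy hx h

/-- The intersection of a chain of continua is connected. -/
theorem isPreconnected_sInter [T2Space E] {c : Set (Set E)} (hc : IsChain (· ⊆ ·) c)
    (hne : c.Nonempty) (hcomp : ∀ s ∈ c, IsCompact s) (hconn : ∀ s ∈ c, IsPreconnected s) :
    IsPreconnected (⋂₀ c) := by
  obtain ⟨s0, hs0⟩ := hne
  have hcl : IsClosed (⋂₀ c) := isClosed_sInter (fun s hs => (hcomp s hs).isClosed)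
  have hIc : IsCompact (⋂₀ c) := (hcomp s0 hs0).of_isClosed_subset hcl (sInter_subset_of_mem hs0)
  rw [isPreconnected_iff_subset_of_fully_disjoint_closed hcl]
  intro u v hu hv huv hd
  by_contra hcon
  rw [not_or, not_subset, not_subset] at hcon
  obtain ⟨⟨x, hx, hxu⟩, ⟨y, hy, hyv⟩⟩ := hcon
  obtain ⟨U, V, hU, hV, hUu, hVv, hUV⟩ := SeparatedNhds.of_isCompact_isCompact
    (hIc.inter_right hu) (hIc.inter_right hv)
    (hd.mono inter_subset_right inter_subset_right)
  have hcover : ⋂₀ c ⊆ U ∪ V := by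
    intro z hz
    rcases huv hz with h | h
    · exact Or.inl (hUu ⟨hz, h⟩)
    · exact Or.inr (hVv ⟨hz, h⟩)
  have hdir : Directed (· ⊇ ·) (fun s : c => (s : Set E)) := by
    intro a b
    rcases hc.total a.2 b.2 with h | h
    · exact ⟨a, Subset.rfl, h⟩
    · exact ⟨b, h, Subset.rfl⟩
  have : Nonempty c := ⟨⟨s0, hs0⟩⟩
  obtain ⟨⟨s, hs⟩, hsUV⟩ := exists_subset_nhds_of_isCompact' hdir (fun s => hcomp s s.2)
    (fun s => (hcomp s s.2).isClosed) (U := U ∪ V) (fun z hz => by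
      apply (hU.union hV).mem_nhds
      apply hcover
      rw [sInter_eq_iInter]
      exact hz)
  have hxs : x ∈ s := hx s hs
  have hys : y ∈ s := hy s hs
  have hxV : x ∈ V := hVv ⟨hx, (huv hx).resolve_left hxu⟩
  have hyU : y ∈ U := hUu ⟨hy, (huv hy).resolve_right hyv⟩
  obtain ⟨z, _, hzU, hzV⟩ := hconn s hs U V hU hV hsUV ⟨y, hys, hyU⟩ ⟨x, hxs, hxV⟩
  exact disjoint_left.1 hUV hzU hzV

/-- Every continuum containing `x` and `y` contains one irreducible between `x` and `y`. -/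
theorem exists_irreducible [T2Space E] {K : Set E} (hKc : IsCompact K) (hK : IsConnected K)
    {x y : E} (hx : x ∈ K) (hy : y ∈ K) :
    ∃ L ⊆ K, IsCompact L ∧ IsConnected L ∧ x ∈ L ∧ y ∈ L ∧
      ∀ N : Set E, N ⊆ L → IsCompact N → IsConnected N → x ∈ N → y ∈ N → N = L := by
  obtain ⟨L, hLK, hL⟩ := zorn_superset_nonempty
    {L : Set E | IsCompact L ∧ IsConnected L ∧ x ∈ L ∧ y ∈ L}
    (by
      intro c hc hchain hne
      obtain ⟨s0, hs0⟩ := hne
      refine ⟨⋂₀ c, ⟨?_, ⟨⟨x, ?_⟩, ?_⟩, ?_, ?_⟩, fun s hs => sInter_subset_of_mem hs⟩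
      · exact (hc hs0).1.of_isClosed_subset (isClosed_sInter (fun s hs => (hc hs).1.isClosed))
          (sInter_subset_of_mem hs0)
      · exact fun s hs => (hc hs).2.2.1
      · exact isPreconnected_sInter hchain ⟨s0, hs0⟩ (fun s hs => (hc hs).1)
          (fun s hs => (hc hs).2.1.isPreconnected)
      · exact fun s hs => (hc hs).2.2.1
      · exact fun s hs => (hc hs).2.2.2)
    K ⟨hKc, hK, hx, hy⟩
  refine ⟨L, hLK, hL.prop.1, hL.prop.2.1, hL.prop.2.2.1, hL.prop.2.2.2, ?_⟩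
  intro N hNL h1 h2 h3 h4
  exact Subset.antisymm hNL (hL.le_of_le ⟨h1, h2, h3, h4⟩ hNL)

end Pool.Agent.Helper300.Cont
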