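import Mathlib

set_option autoImplicit false

namespace Pool.Agent.Helper300.Grid

/-- vertices of the grid (also used for the unit squares) -/
abbrev V := ℤ × ℤ

/-- edges of the grid -/
abbrev E := Bool × V

def src (e : E) : V := e.2

def tgt : E → V
  | (false, (i, j)) => (i + 1, j)
  | (true, (i, j)) => (i, j + 1)

def s1 (e : E) : V := e.2

def s2 : E → V
  | (false, (i, j)) => (i, j - 1)
  | (true, (i, j)) => (i - 1, j)

def inc (u : V) : Finset E :=
  {(false, (u.1, u.2)), (false, (u.1 - 1, u.2)), (true, (u.1, u.2)), (true, (u.1, u.2 - 1))}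

theorem sum_inc (u : V) (c : E → ZMod 2) :
    ∑ e ∈ inc u, c e = c (false, (u.1, u.2)) + c (false, (u.1 - 1, u.2)) + c (true, (u.1, u.2))
      + c (true, (u.1, u.2 - 1)) := by
  obtain ⟨i, j⟩ := u
  unfold inc
  rw [Finset.sum_insert, Finset.sum_insert, Finset.sum_insert, Finset.sum_singleton]
  · ring
  · simp [Prod.ext_iff] <;> omega
  · simp [Prod.ext_iff] <;> omega
  · simp [Prod.ext_iff] <;> omega

theorem mem_inc (u : V) (e : E) : e ∈ inc u ↔ u = src e ∨ u = tgt e := by
  obtain ⟨b, i, j⟩ := e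
  obtain ⟨k, l⟩ := u
  cases b <;> simp [inc, src, tgt, Prod.ext_iff] <;> omega

theorem src_ne_tgt (e : E) : src e ≠ tgt e := by
  obtain ⟨b, i, j⟩ := e
  cases b <;> simp [src, tgt, Prod.ext_iff]

/-- K1 -/
theorem sum_inc_face (w : V → ZMod 2) (u : V) : ∑ e ∈ inc u, (w (s1 e) + w (s2 e)) = 0 := by
  rw [sum_inc]
  simp only [s1, s2]
  have h : ∀ x : ZMod 2, x + x = 0 := fun x => CharTwo.add_self_eq_zero x
  generalize w (u.1, u.2) = a
  generalize w (u.1, u.2 - 1) = b
  generalize w (u.1 - 1, u.2) = c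
  generalize w (u.1 - 1, u.2 - 1) = d
  linear_combination h a + h b + h c + h d

/-- K2: finite cycles bound -/
theorem exists_face (c : E → ZMod 2) (N : ℤ) (hN : ∀ b i j, j < -N → c (b, (i, j)) = 0)
    (hc : ∀ u, ∑ e ∈ inc u, c e = 0) :
    ∃ w : V → ZMod 2, ∀ e, c e = w (s1 e) + w (s2 e) := by
  have h2 : ∀ x : ZMod 2, x + x = 0 := fun x => CharTwo.add_self_eq_zero x
  set w : V → ZMod 2 := fun s => ∑ k ∈ Finset.Icc (-N) s.2, c (false, (s.1, k)) with hw
  have hsucc : ∀ i j, -N ≤ j + 1 → w (i, j + 1) = w (i, j) + c (false, (i, j + 1)) := by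
    intro i j hj
    simp only [hw]
    have : Finset.Icc (-N) (j + 1) = insert (j + 1) (Finset.Icc (-N) j) := by
      ext x
      simp only [Finset.mem_Icc, Finset.mem_insert]
      omega
    rw [this, Finset.sum_insert (by simp), add_comm]
  have hlow : ∀ i j, j < -N → w (i, j) = 0 := by
    intro i j hj
    simp only [hw]
    rw [Finset.Icc_eq_empty (by omega), Finset.sum_empty]
  have hvert : ∀ i (n : ℕ), c (true, (i, -N - 1 + n)) = w (i, -N - 1 + n) + w (i - 1, -N - 1 + n) := by
    intro i n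
    induction n with
    | zero =>
      rw [hN _ _ _ (by push_cast; omega), hlow _ _ (by push_cast; omega),
        hlow _ _ (by push_cast; omega), add_zero]
    | succ n ih =>
      have h1 := hsucc i (-N - 1 + n) (by omega)
      have h3 := hsucc (i - 1) (-N - 1 + n) (by omega)
      have h4 := hc (i, -N - 1 + n + 1)
      rw [sum_inc] at h4
      simp only [add_sub_cancel_right] at h4
      rw [show (-N - 1 + ((n + 1 : ℕ) : ℤ)) = -N - 1 + n + 1 by push_cast; ring, h1, h3]
      linear_combination h4 - ih - h2 (c (false, (i, -N - 1 + n + 1)))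
        - h2 (c (false, (i - 1, -N - 1 + n + 1))) - h2 (w (i, -N - 1 + n))
        - h2 (w (i - 1, -N - 1 + n))
  refine ⟨w, ?_⟩
  rintro ⟨b, i, j⟩
  cases b
  · simp only [s1, s2]
    by_cases hj : -N ≤ j
    · have := hsucc i (j - 1) (by omega)
      rw [sub_add_cancel] at this
      rw [this]
      linear_combination -h2 (w (i, j - 1))
    · rw [hN _ _ _ (by omega), hlow _ _ (by omega), hlow _ _ (by omega), add_zero]
  · simp only [s1, s2]
    by_cases hj : -N - 1 ≤ j
    · obtain ⟨n, hn⟩ := Int.eq_ofNat_of_zero_le (show 0 ≤ j - (-N - 1) by omega)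
      have := hvert i n
      rw [show -N - 1 + (n : ℤ) = j by omega] at this
      exact this
    · rw [hN _ _ _ (by omega), hlow _ _ (by omega), hlow _ _ (by omega), add_zero]

/-- adjacency in the grid -/
def Adj (u v : V) : Prop := ∃ e, (src e = u ∧ tgt e = v) ∨ (src e = v ∧ tgt e = u)

/-- connected inside `K` -/
def Conn (K : Set V) : V → V → Prop :=
  Relation.ReflTransGen (fun a b => a ∈ K ∧ b ∈ K ∧ Adj a b)

noncomputable section

open Classical in
/-- indicator of a point -/
def pt (u x : V) : ZMod 2 := if x = u then 1 else 0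

open Classical in
/-- indicator of an edge -/
def ed (e e' : E) : ZMod 2 := if e' = e then 1 else 0

theorem bdry_ed (e : E) (x : V) : ∑ e' ∈ inc x, ed e e' = pt (src e) x + pt (tgt e) x := by
  classical
  have h : ∑ e' ∈ inc x, ed e e' = if e ∈ inc x then 1 else 0 := by
    unfold ed
    rw [Finset.sum_ite_eq']
  rw [h]
  unfold pt
  have h1 := mem_inc x e
  have h2 := src_ne_tgt e
  by_cases hs : x = src e
  · have h3 : ¬ x = tgt e := fun h => h2 (hs.symm.trans h)
    rw [if_pos (h1.2 (Or.inl hs)), if_pos hs, if_neg h3, add_zero]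
  · by_cases ht : x = tgt e
    · rw [if_pos (h1.2 (Or.inr ht)), if_neg hs, if_pos ht, zero_add]
    · rw [if_neg (fun h => (h1.1 h).elim hs ht), if_neg hs, if_neg ht, add_zero]

/-- chains with finite support in `j` -/
def Low (c : E → ZMod 2) : Prop := ∃ N : ℤ, ∀ b i j, j < -N → c (b, (i, j)) = 0

theorem Low.add {c d : E → ZMod 2} (hc : Low c) (hd : Low d) : Low (fun e => c e + d e) := by
  obtain ⟨N, hN⟩ := hc
  obtain ⟨M, hM⟩ := hd
  refine ⟨max N M, fun b i j hj => ?_⟩
  show c (b, (i, j)) + d (b, (i, j)) = 0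
  have h1 := le_max_left N M
  have h2 := le_max_right N M
  rw [hN _ _ _ (by omega), hM _ _ _ (by omega), add_zero]

theorem Low.zero : Low (fun _ => 0) := ⟨0, fun _ _ _ _ => rfl⟩

theorem Low.mul {c : E → ZMod 2} (hc : Low c) (a : ZMod 2) : Low (fun e => a * c e) := by
  obtain ⟨N, hN⟩ := hc
  refine ⟨N, fun b i j hj => ?_⟩
  show a * c (b, (i, j)) = 0
  rw [hN _ _ _ hj, mul_zero]

theorem Low.sum {ι : Type*} (s : Finset ι) {c : ι → E → ZMod 2} (hc : ∀ i, Low (c i)) :
    Low (fun e => ∑ i ∈ s, c i e) := by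
  classical
  induction s using Finset.induction_on with
  | empty => simpa using Low.zero
  | insert a s ha ih =>
    have := (hc a).add ih
    simpa [Finset.sum_insert ha] using this

theorem low_ed (e : E) : Low (ed e) := by
  refine ⟨-e.2.2, fun b i j hj => ?_⟩
  unfold ed
  rw [if_neg]
  rintro rfl
  simp at hj

/-- chain fill in connected sets -/
theorem fill {K : Set V} {u v : V} (h : Conn K u v) :
    ∃ c : E → ZMod 2, Low c ∧ (∀ e, c e ≠ 0 → src e ∈ K ∧ tgt e ∈ K) ∧
      ∀ x, ∑ e ∈ inc x, c e = pt u x + pt v x := by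
  induction h with
  | refl =>
    refine ⟨fun _ => 0, Low.zero, fun e he => absurd rfl he, fun x => ?_⟩
    rw [Finset.sum_const_zero, CharTwo.add_self_eq_zero]
  | @tail b c' _ hbc ih =>
    obtain ⟨c, hlow, hsupp, hb⟩ := ih
    obtain ⟨hbK, hcK, e, he⟩ := hbc
    refine ⟨fun e' => c e' + ed e e', hlow.add (low_ed e), ?_, ?_⟩
    · intro e' he'
      by_cases h : e' = e
      · rw [h]
        rcases he with ⟨h1, h2⟩ | ⟨h1, h2⟩
        · rw [h1, h2]; exact ⟨hbK, hcK⟩
        · rw [h1, h2]; exact ⟨hcK, hbK⟩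
      · apply hsupp
        intro hc0
        apply he'
        show c e' + ed e e' = 0
        rw [hc0, ed, if_neg h, add_zero]
    · intro x
      rw [Finset.sum_add_distrib, hb, bdry_ed]
      rcases he with ⟨h1, h2⟩ | ⟨h1, h2⟩
      · rw [h1, h2]
        linear_combination CharTwo.add_self_eq_zero (pt b x)
      · rw [h1, h2]
        linear_combination CharTwo.add_self_eq_zero (pt b x)

/-- sum of the boundary over a finite set of vertices -/
theorem sum_cut (A : Finset V) (c : E → ZMod 2) (hc : ∀ u, ∑ e ∈ inc u, c e = 0)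
    (S : Finset E) (hS : ∀ e ∈ S, ¬ (src e ∈ A ↔ tgt e ∈ A))
    (hS' : ∀ e, ¬ (src e ∈ A ↔ tgt e ∈ A) → c e ≠ 0 → e ∈ S) : ∑ e ∈ S, c e = 0 := by
  classical
  have h1 : ∑ u ∈ A, ∑ e ∈ inc u, c e = 0 := Finset.sum_eq_zero fun u _ => hc u
  have h2 : ∑ u ∈ A, ∑ e ∈ inc u, c e = ∑ e ∈ A.biUnion inc,
      ∑ u ∈ A.filter (fun u => e ∈ inc u), c e := by
    apply Finset.sum_comm'
    intro u e
    simp only [Finset.mem_filter, Finset.mem_biUnion]
    constructor
    · rintro ⟨h, h'⟩
      exact ⟨⟨h, h'⟩, u, h, h'⟩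
    · rintro ⟨⟨h, h'⟩, _⟩
      exact ⟨h, h'⟩
  have h3 : ∀ e, ∑ u ∈ A.filter (fun u => e ∈ inc u), c e
      = ((if src e ∈ A then 1 else 0) + (if tgt e ∈ A then 1 else 0)) * c e := by
    intro e
    have hne := src_ne_tgt e
    have h4 : A.filter (fun u => e ∈ inc u) = A.filter (fun u => u = src e) ∪
        A.filter (fun u => u = tgt e) := by
      ext u
      simp only [Finset.mem_filter, Finset.mem_union, mem_inc]
      tauto
    rw [h4, Finset.sum_union]
    · rw [Finset.sum_const, Finset.sum_const, Finset.filter_eq', Finset.filter_eq']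
      split_ifs <;> simp [add_mul]
    · rw [Finset.disjoint_left]
      intro u hu hu'
      rw [Finset.mem_filter] at hu hu'
      exact hne (hu.2.symm.trans hu'.2)
  have h5 : ∑ e ∈ A.biUnion inc, ((if src e ∈ A then (1 : ZMod 2) else 0) +
      (if tgt e ∈ A then 1 else 0)) * c e = ∑ e ∈ S, c e := by
    have h6 : ∑ e ∈ S, c e = ∑ e ∈ S, ((if src e ∈ A then (1 : ZMod 2) else 0) +
      (if tgt e ∈ A then 1 else 0)) * c e := by
      apply Finset.sum_congr rfl
      intro e he
      have := hS e he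
      by_cases hs : src e ∈ A
      · have ht : tgt e ∉ A := fun ht => this ⟨fun _ => ht, fun _ => hs⟩
        simp [hs, ht]
      · have ht : tgt e ∈ A := by
          by_contra ht
          exact this ⟨fun h => absurd h hs, fun h => absurd h ht⟩
        simp [hs, ht]
    rw [h6]
    symm
    apply Finset.sum_subset
    · intro e he
      have := hS e he
      rw [Finset.mem_biUnion]
      by_cases hs : src e ∈ A
      · exact ⟨_, hs, (mem_inc _ _).2 (Or.inl rfl)⟩
      · have ht : tgt e ∈ A := by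
          by_contra ht
          exact this ⟨fun h => absurd h hs, fun h => absurd h ht⟩
        exact ⟨_, ht, (mem_inc _ _).2 (Or.inr rfl)⟩
    · intro e _ heS
      by_cases hiff : (src e ∈ A ↔ tgt e ∈ A)
      · by_cases hs : src e ∈ A
        · have ht := hiff.1 hs
          simp only [hs, ht, if_true]
          rw [CharTwo.add_self_eq_zero, zero_mul]
        · have ht : tgt e ∉ A := fun h => hs (hiff.2 h)
          simp [hs, ht]
      · have : c e = 0 := by
          by_contra h0
          exact heS (hS' e hiff h0)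
        rw [this, mul_zero]
  rw [← h5]
  refine Eq.trans ?_ h1
  rw [h2]
  exact Finset.sum_congr rfl fun e _ => (h3 e).symm

end

end Pool.Agent.Helper300.Grid
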