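import Mathlib
import Pool.Agent.Helper300.Grid

set_option autoImplicit false

namespace Pool.Agent.Helper300.K33

open Pool.Agent.Helper300.Grid

/-- the cycle space of `K_{3,3}` -/
def Z33 (x : Fin 3 → Fin 3 → ZMod 2) : Prop := (∀ i, ∑ j, x i j = 0) ∧ ∀ j, ∑ i, x i j = 0

instance : DecidablePred Z33 := fun x => by unfold Z33; infer_instance

theorem wt (x : Fin 3 → Fin 3 → ZMod 2) (h : Z33 x) (hx : x ≠ 0) :
    4 ≤ (Finset.univ.filter (fun p : Fin 3 × Fin 3 => x p.1 p.2 ≠ 0)).card := by
  revert x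
  decide +kernel

theorem cardZ : 9 ≤ Fintype.card {x // Z33 x} := by decide +kernel

/-- Purely algebraic part: a dual graph with nine edges whose stars lie in the cycle space of
`K_{3,3}` cannot span it. -/
theorem counting {Q : Type*} (a b : Fin 3 → Fin 3 → Q)
    (hcut : ∀ x, Z33 x → ∃ φ : Q → ZMod 2, ∀ i j, x i j = φ (a i j) + φ (b i j))
    (hstar : ∀ F : Q, ∃ v, Z33 v ∧ ∀ φ : Q → ZMod 2, (∀ G, φ G = 1 ↔ G = F) →
      ∀ i j, v i j = φ (a i j) + φ (b i j)) : False := by
  classical
  have h2 : ∀ x : ZMod 2, x + x = 0 := fun x => CharTwo.add_self_eq_zero x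
  set v : Q → Fin 3 → Fin 3 → ZMod 2 := fun F i j =>
    (if a i j = F then 1 else 0) + (if b i j = F then 1 else 0) with hv
  have hvZ : ∀ F, Z33 (v F) := by
    intro F
    obtain ⟨u, hu, hu'⟩ := hstar F
    have : v F = u := by
      funext i j
      rw [hu' (fun G => if G = F then 1 else 0) (fun G => by simp) i j]
    rw [this]
    exact hu
  set Φ' : Finset Q := Finset.univ.image (fun p : Fin 3 × Fin 3 => a p.1 p.2) ∪
    Finset.univ.image (fun p : Fin 3 × Fin 3 => b p.1 p.2) with hΦ'
  have haΦ : ∀ i j, a i j ∈ Φ' := fun i j => Finset.mem_union_left _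
    (Finset.mem_image_of_mem (fun p : Fin 3 × Fin 3 => a p.1 p.2) (Finset.mem_univ (i, j)))
  have hbΦ : ∀ i j, b i j ∈ Φ' := fun i j => Finset.mem_union_right _
    (Finset.mem_image_of_mem (fun p : Fin 3 × Fin 3 => b p.1 p.2) (Finset.mem_univ (i, j)))
  set Φ : Finset Q := Φ'.filter (fun F => v F ≠ 0) with hΦ
  have hsum : ∀ φ : Q → ZMod 2, ∀ i j, ∑ F ∈ Φ, φ F * v F i j = φ (a i j) + φ (b i j) := by
    intro φ i j
    have h1 : ∑ F ∈ Φ, φ F * v F i j = ∑ F ∈ Φ', φ F * v F i j := by
      apply Finset.sum_subset (Finset.filter_subset _ _)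
      intro F hF hF'
      have : v F = 0 := by
        by_contra h
        exact hF' (Finset.mem_filter.2 ⟨hF, h⟩)
      rw [this]
      simp
    rw [h1]
    simp only [hv, mul_add, mul_ite, mul_one, mul_zero, Finset.sum_add_distrib]
    rw [Finset.sum_ite_eq, Finset.sum_ite_eq, if_pos (haΦ i j), if_pos (hbΦ i j)]
  have hcard : Φ.card ≤ 4 := by
    have h1 : ∑ F ∈ Φ, 4 ≤ ∑ F ∈ Φ,
        (Finset.univ.filter (fun p : Fin 3 × Fin 3 => v F p.1 p.2 ≠ 0)).card :=
      Finset.sum_le_sum fun F hF => wt (v F) (hvZ F) (Finset.mem_filter.1 hF).2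
    have h3 : ∑ F ∈ Φ, (Finset.univ.filter (fun p : Fin 3 × Fin 3 => v F p.1 p.2 ≠ 0)).card
        = ∑ p : Fin 3 × Fin 3, (Φ.filter (fun F => v F p.1 p.2 ≠ 0)).card := by
      simp only [Finset.card_filter]
      exact Finset.sum_comm
    have h4 : ∀ p : Fin 3 × Fin 3, (Φ.filter (fun F => v F p.1 p.2 ≠ 0)).card ≤ 2 := by
      intro p
      have : Φ.filter (fun F => v F p.1 p.2 ≠ 0) ⊆ {a p.1 p.2, b p.1 p.2} := by
        intro F hF
        have hF' := (Finset.mem_filter.1 hF).2
        rw [Finset.mem_insert, Finset.mem_singleton]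
        by_contra hcon
        push Not at hcon
        apply hF'
        simp only [hv]
        rw [if_neg (Ne.symm hcon.1), if_neg (Ne.symm hcon.2), add_zero]
      exact (Finset.card_le_card this).trans Finset.card_le_two
    have h5 : ∑ p : Fin 3 × Fin 3, (Φ.filter (fun F => v F p.1 p.2 ≠ 0)).card
        ≤ ∑ _p : Fin 3 × Fin 3, 2 := Finset.sum_le_sum fun p _ => h4 p
    simp only [Finset.sum_const, Finset.card_univ, Fintype.card_prod, Fintype.card_fin,
      smul_eq_mul] at h1 h5
    rw [h3] at h1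
    omega
  choose! φ hφ using hcut
  by_cases hne : Φ.Nonempty
  · obtain ⟨F0, hF0⟩ := hne
    -- normalised functions
    set ψ : {x // Z33 x} → (Φ.erase F0 → ZMod 2) := fun x F => φ x.1 F.1 + φ x.1 F0 with hψ
    have hinj : Function.Injective ψ := by
      intro x y hxy
      apply Subtype.ext
      funext i j
      have key : ∀ x : {x // Z33 x}, x.1 i j = ∑ F ∈ Φ.erase F0, (φ x.1 F + φ x.1 F0) * v F i j := by
        intro x
        have h1 := hsum (fun F => φ x.1 F + φ x.1 F0) i j
        rw [hφ x.1 x.2 i j]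
        have h3 := Finset.add_sum_erase Φ (fun F => (φ x.1 F + φ x.1 F0) * v F i j) hF0
        rw [h2, zero_mul, zero_add] at h3
        rw [h3, h1]
        linear_combination -h2 (φ x.1 F0)
      rw [key x, key y]
      apply Finset.sum_congr rfl
      intro F hF
      have := congrFun hxy ⟨F, hF⟩
      simp only [hψ] at this
      rw [this]
    have h6 := Fintype.card_le_of_injective ψ hinj
    have h7 : Fintype.card (Φ.erase F0 → ZMod 2) ≤ 8 := by
      rw [Fintype.card_fun, ZMod.card, Fintype.card_coe, Finset.card_erase_of_mem hF0]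
      calc 2 ^ (Φ.card - 1) ≤ 2 ^ 3 := Nat.pow_le_pow_right (by norm_num) (by omega)
        _ = 8 := by norm_num
    have h8 := cardZ
    omega
  · rw [Finset.not_nonempty_iff_eq_empty] at hne
    have h6 : Subsingleton {x // Z33 x} := by
      constructor
      intro x y
      apply Subtype.ext
      funext i j
      rw [hφ x.1 x.2 i j, hφ y.1 y.2 i j, ← hsum (φ x.1), ← hsum (φ y.1), hne]
      simp
    have h7 := Fintype.card_le_one_iff_subsingleton.2 h6
    have h8 := cardZ
    omega

/-- There is no `K_{3,3}` minor in the grid. -/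
theorem no_K33 (A B : Fin 3 → Finset V) (α β : Fin 3 → V)
    (hA : ∀ i, ∀ x ∈ A i, Conn (A i) (α i) x) (hB : ∀ j, ∀ x ∈ B j, Conn (B j) (β j) x)
    (hAA : ∀ i i', ∀ x ∈ A i, x ∈ A i' → i = i') (hBB : ∀ j j', ∀ x ∈ B j, x ∈ B j' → j = j')
    (hAB : ∀ i j, ∀ x ∈ A i, x ∉ B j)
    (hadj : ∀ i j, ∃ x ∈ A i, ∃ y ∈ B j, Adj x y) : False := by
  classical
  have h2 : ∀ x : ZMod 2, x + x = 0 := fun x => CharTwo.add_self_eq_zero x
  have hex : ∀ i j, ∃ e : E, (src e ∈ A i ∧ tgt e ∈ B j) ∨ (src e ∈ B j ∧ tgt e ∈ A i) := by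
    intro i j
    obtain ⟨x, hx, y, hy, e, he⟩ := hadj i j
    refine ⟨e, ?_⟩
    rcases he with ⟨h1, h3⟩ | ⟨h1, h3⟩
    · left; rw [h1, h3]; exact ⟨hx, hy⟩
    · right; rw [h1, h3]; exact ⟨hy, hx⟩
  choose ε hε using hex
  have hεA : ∀ i j k, (src (ε i j) ∈ A k ∨ tgt (ε i j) ∈ A k) ↔ i = k := by
    intro i j k
    constructor
    · rintro (h | h)
      · rcases hε i j with ⟨h1, _⟩ | ⟨h1, _⟩
        · exact hAA _ _ _ h1 h
        · exact absurd h1 (hAB _ _ _ h)
      · rcases hε i j with ⟨_, h1⟩ | ⟨_, h1⟩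
        · exact absurd h1 (hAB _ _ _ h)
        · exact hAA _ _ _ h1 h
    · rintro rfl
      rcases hε i j with ⟨h1, _⟩ | ⟨_, h1⟩
      · exact Or.inl h1
      · exact Or.inr h1
  have hεB : ∀ i j l, (src (ε i j) ∈ B l ∨ tgt (ε i j) ∈ B l) ↔ j = l := by
    intro i j l
    constructor
    · rintro (h | h)
      · rcases hε i j with ⟨h1, _⟩ | ⟨h1, _⟩
        · exact absurd h (hAB _ _ _ h1)
        · exact hBB _ _ _ h1 h
      · rcases hε i j with ⟨_, h1⟩ | ⟨_, h1⟩
        · exact hBB _ _ _ h1 h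
        · exact absurd h (hAB _ _ _ h1)
    · rintro rfl
      rcases hε i j with ⟨_, h1⟩ | ⟨h1, _⟩
      · exact Or.inr h1
      · exact Or.inl h1
  have hεinj : ∀ i j k l, ε i j = ε k l → i = k ∧ j = l := by
    intro i j k l h
    refine ⟨(hεA i j k).1 ?_, (hεB i j l).1 ?_⟩
    · rw [h]; exact (hεA k l k).2 rfl
    · rw [h]; exact (hεB k l l).2 rfl
  -- an end of a special edge in `A i` : exactly one
  have hεA1 : ∀ i j k, ¬ (src (ε i j) ∈ A k ∧ tgt (ε i j) ∈ A k) := by
    rintro i j k ⟨h, h'⟩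
    rcases hε i j with ⟨_, h1⟩ | ⟨h1, _⟩
    · exact hAB _ _ _ h' h1
    · exact hAB _ _ _ h h1
  have hεB1 : ∀ i j l, ¬ (src (ε i j) ∈ B l ∧ tgt (ε i j) ∈ B l) := by
    rintro i j l ⟨h, h'⟩
    rcases hε i j with ⟨h1, _⟩ | ⟨_, h1⟩
    · exact hAB _ _ _ h1 h
    · exact hAB _ _ _ h1 h'
  set G : E → Prop := fun e => (∃ i, src e ∈ A i ∧ tgt e ∈ A i) ∨
    (∃ j, src e ∈ B j ∧ tgt e ∈ B j) ∨ ∃ i j, e = ε i j with hG
  -- the chains
  have hγ : ∀ i j, ∃ c : E → ZMod 2, Low c ∧ (∀ e, c e ≠ 0 → G e) ∧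
      (∀ k l, c (ε k l) = if i = k ∧ j = l then 1 else 0) ∧
      ∀ x, ∑ e ∈ inc x, c e = pt (α i) x + pt (β j) x := by
    intro i j
    obtain ⟨p, hp, q, hq, hpq⟩ : ∃ p ∈ A i, ∃ q ∈ B j,
        (src (ε i j) = p ∧ tgt (ε i j) = q) ∨ (src (ε i j) = q ∧ tgt (ε i j) = p) := by
      rcases hε i j with ⟨h1, h3⟩ | ⟨h1, h3⟩
      · exact ⟨_, h1, _, h3, Or.inl ⟨rfl, rfl⟩⟩
      · exact ⟨_, h3, _, h1, Or.inr ⟨rfl, rfl⟩⟩
    obtain ⟨c, hc1, hc2, hc3⟩ := fill (hA i p hp)
    obtain ⟨d, hd1, hd2, hd3⟩ := fill (hB j q hq)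
    refine ⟨fun e => c e + d e + ed (ε i j) e, (hc1.add hd1).add (low_ed _), ?_, ?_, ?_⟩
    · intro e he
      by_contra hcon
      apply he
      have hc0 : c e = 0 := by
        by_contra h; exact hcon (Or.inl ⟨i, hc2 e h⟩)
      have hd0 : d e = 0 := by
        by_contra h; exact hcon (Or.inr (Or.inl ⟨j, hd2 e h⟩))
      have he0 : ed (ε i j) e = 0 := by
        unfold ed
        rw [if_neg]
        intro h
        exact hcon (Or.inr (Or.inr ⟨i, j, h⟩))
      show c e + d e + ed (ε i j) e = 0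
      rw [hc0, hd0, he0, add_zero, add_zero]
    · intro k l
      have hc0 : c (ε k l) = 0 := by
        by_contra h; exact hεA1 k l i (hc2 _ h)
      have hd0 : d (ε k l) = 0 := by
        by_contra h; exact hεB1 k l j (hd2 _ h)
      show c (ε k l) + d (ε k l) + ed (ε i j) (ε k l) = _
      rw [hc0, hd0, zero_add, zero_add]
      unfold ed
      by_cases h : i = k ∧ j = l
      · rw [if_pos h, if_pos (by rw [h.1, h.2])]
      · rw [if_neg h, if_neg]
        intro h'
        obtain ⟨h3, h4⟩ := hεinj _ _ _ _ h'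
        exact h ⟨h3.symm, h4.symm⟩
    · intro x
      rw [Finset.sum_add_distrib, Finset.sum_add_distrib, hc3, hd3, bdry_ed]
      rcases hpq with ⟨h1, h3⟩ | ⟨h1, h3⟩
      · rw [h1, h3]
        linear_combination h2 (pt p x) + h2 (pt q x)
      · rw [h1, h3]
        linear_combination h2 (pt p x) + h2 (pt q x)
  choose γ hγ1 hγ2 hγ3 hγ4 using hγ
  -- faces
  set r : V → V → Prop := fun s t => ∃ e, ¬ G e ∧ s1 e = s ∧ s2 e = t with hr
  refine counting (Q := Quot r) (fun i j => Quot.mk r (s1 (ε i j)))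
    (fun i j => Quot.mk r (s2 (ε i j))) ?_ ?_
  · intro x hx
    set z : E → ZMod 2 := fun e => ∑ p : Fin 3 × Fin 3, x p.1 p.2 * γ p.1 p.2 e with hz
    have hzlow : Low z := Low.sum Finset.univ fun p => (hγ1 p.1 p.2).mul (x p.1 p.2)
    have hzb : ∀ u, ∑ e ∈ inc u, z e = 0 := by
      intro u
      simp only [hz]
      rw [Finset.sum_comm]
      have h3 : ∀ p : Fin 3 × Fin 3, ∑ e ∈ inc u, x p.1 p.2 * γ p.1 p.2 e
          = x p.1 p.2 * pt (α p.1) u + x p.1 p.2 * pt (β p.2) u := by
        intro p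
        rw [← Finset.mul_sum, hγ4, mul_add]
      simp only [h3]
      rw [Finset.sum_add_distrib, Fintype.sum_prod_type, Fintype.sum_prod_type_right]
      simp only [← Finset.sum_mul, hx.1, hx.2, zero_mul, Finset.sum_const_zero, add_zero]
    obtain ⟨N, hN⟩ := hzlow
    obtain ⟨w, hw⟩ := exists_face z N hN hzb
    refine ⟨Quot.lift w ?_, ?_⟩
    · rintro s t ⟨e, he, rfl, rfl⟩
      have h3 : z e = 0 := by
        simp only [hz]
        apply Finset.sum_eq_zero
        intro p _
        have : γ p.1 p.2 e = 0 := by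
          by_contra h; exact he (hγ2 _ _ _ h)
        rw [this, mul_zero]
      have h4 := hw e
      rw [h3] at h4
      linear_combination -h4 - h2 (w (s2 e))
    · intro i j
      have h3 : z (ε i j) = x i j := by
        simp only [hz, hγ3]
        rw [Finset.sum_eq_single (i, j)]
        · simp
        · intro p _ hp
          rw [if_neg, mul_zero]
          rintro ⟨h, h'⟩
          exact hp (Prod.ext h h')
        · intro h
          exact absurd (Finset.mem_univ _) h
      rw [← h3]
      exact hw (ε i j)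
  · intro F
    set w : V → ZMod 2 := fun s => if Quot.mk r s = F then 1 else 0 with hw
    set c : E → ZMod 2 := fun e => w (s1 e) + w (s2 e) with hc
    have hcG : ∀ e, c e ≠ 0 → G e := by
      intro e he
      by_contra hn
      apply he
      have h3 : (Quot.mk r (s1 e)) = Quot.mk r (s2 e) := Quot.sound ⟨e, hn, rfl, rfl⟩
      simp only [hc, hw]
      rw [h3, h2]
    have hc0 : ∀ u, ∑ e ∈ inc u, c e = 0 := fun u => sum_inc_face w u
    refine ⟨fun i j => c (ε i j), ⟨?_, ?_⟩, ?_⟩
    · intro i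
      have h3 := sum_cut (A i) c hc0 (Finset.univ.image (fun j => ε i j)) (by
          intro e he
          obtain ⟨j, _, rfl⟩ := Finset.mem_image.1 he
          have h4 := (hεA i j i).2 rfl
          have h5 := hεA1 i j i
          tauto) (by
          intro e he hce
          rcases hcG e hce with ⟨k, hk1, hk2⟩ | ⟨l, hl1, hl2⟩ | ⟨k, l, rfl⟩
          · exfalso
            apply he
            by_cases hki : k = i
            · rw [hki] at hk1 hk2; exact ⟨fun _ => hk2, fun _ => hk1⟩
            · exact ⟨fun h => absurd (hAA _ _ _ hk1 h) hki, fun h => absurd (hAA _ _ _ hk2 h) hki⟩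
          · exfalso
            apply he
            exact ⟨fun h => absurd hl1 (hAB _ _ _ h), fun h => absurd hl2 (hAB _ _ _ h)⟩
          · have hki : k = i := by
              rw [← hεA k l i]
              by_contra hcon
              push Not at hcon
              exact he ⟨fun h => absurd h hcon.1, fun h => absurd h hcon.2⟩
            rw [hki]
            exact Finset.mem_image_of_mem _ (Finset.mem_univ l))
      rw [Finset.sum_image (fun a _ b _ h => (hεinj _ _ _ _ h).2)] at h3
      exact h3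
    · intro j
      have h3 := sum_cut (B j) c hc0 (Finset.univ.image (fun i => ε i j)) (by
          intro e he
          obtain ⟨i, _, rfl⟩ := Finset.mem_image.1 he
          have h4 := (hεB i j j).2 rfl
          have h5 := hεB1 i j j
          tauto) (by
          intro e he hce
          rcases hcG e hce with ⟨k, hk1, hk2⟩ | ⟨l, hl1, hl2⟩ | ⟨k, l, rfl⟩
          · exfalso
            apply he
            exact ⟨fun h => absurd h (hAB _ _ _ hk1), fun h => absurd h (hAB _ _ _ hk2)⟩
          · exfalso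
            apply he
            by_cases hlj : l = j
            · rw [hlj] at hl1 hl2; exact ⟨fun _ => hl2, fun _ => hl1⟩
            · exact ⟨fun h => absurd (hBB _ _ _ hl1 h) hlj, fun h => absurd (hBB _ _ _ hl2 h) hlj⟩
          · have hlj : l = j := by
              rw [← hεB k l j]
              by_contra hcon
              push Not at hcon
              exact he ⟨fun h => absurd h hcon.1, fun h => absurd h hcon.2⟩
            rw [hlj]
            exact Finset.mem_image_of_mem _ (Finset.mem_univ k))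
      rw [Finset.sum_image (fun a _ b _ h => (hεinj _ _ _ _ h).1)] at h3
      exact h3
    · intro φ hφ i j
      have h3 : ∀ s : V, w s = φ (Quot.mk r s) := by
        intro s
        simp only [hw]
        split_ifs with h
        · exact ((hφ _).2 h).symm
        · have h4 : ∀ y : ZMod 2, y ≠ 1 → y = 0 := by decide
          exact (h4 _ (fun h5 => h ((hφ _).1 h5))).symm
      show w (s1 (ε i j)) + w (s2 (ε i j)) = _
      rw [h3, h3]

end Pool.Agent.Helper300.K33
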