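import Mathlib
import Pool.Agent.Helper300.K33

set_option autoImplicit false

open Set Topology

namespace Pool.Agent.Helper300.Disc

open Pool.Agent.Helper300.Grid

theorem Adj.symm {u v : V} (h : Adj u v) : Adj v u := by
  obtain ⟨e, he⟩ := h
  exact ⟨e, he.symm⟩

theorem adj_right (m n : ℤ) : Adj (m, n) (m + 1, n) := ⟨(false, (m, n)), Or.inl ⟨rfl, rfl⟩⟩

theorem adj_up (m n : ℤ) : Adj (m, n) (m, n + 1) := ⟨(true, (m, n)), Or.inl ⟨rfl, rfl⟩⟩

theorem Conn.symm {K : Set V} {u v : V} (h : Conn K u v) : Conn K v u := by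
  unfold Conn at h ⊢
  induction h with
  | refl => exact Relation.ReflTransGen.refl
  | tail _ hbc ih => exact Relation.ReflTransGen.head ⟨hbc.2.1, hbc.1, Adj.symm hbc.2.2⟩ ih

theorem Conn.trans {K : Set V} {u v w : V} (h : Conn K u v) (h' : Conn K v w) : Conn K u w :=
  Relation.ReflTransGen.trans h h'

theorem conn_h {K : Set V} {m n : ℤ} (k : ℕ) (h : ∀ i : ℤ, m ≤ i → i ≤ m + k → (i, n) ∈ K) :
    Conn K (m, n) (m + k, n) := by
  induction k with
  | zero =>
    rw [show m + ((0 : ℕ) : ℤ) = m by simp]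
    exact Relation.ReflTransGen.refl
  | succ k ih =>
    have h1 := ih (fun i hi hi' => h i hi (by push_cast; omega))
    refine Relation.ReflTransGen.tail h1 ⟨h _ (by omega) (by push_cast; omega),
      h _ (by push_cast; omega) le_rfl, ?_⟩
    have := adj_right (m + k) n
    rw [show m + ((k + 1 : ℕ) : ℤ) = m + k + 1 by push_cast; ring]
    exact this

theorem conn_v {K : Set V} {m n : ℤ} (k : ℕ) (h : ∀ i : ℤ, n ≤ i → i ≤ n + k → (m, i) ∈ K) :
    Conn K (m, n) (m, n + k) := by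
  induction k with
  | zero =>
    rw [show n + ((0 : ℕ) : ℤ) = n by simp]
    exact Relation.ReflTransGen.refl
  | succ k ih =>
    have h1 := ih (fun i hi hi' => h i hi (by push_cast; omega))
    refine Relation.ReflTransGen.tail h1 ⟨h _ (by omega) (by push_cast; omega),
      h _ (by push_cast; omega) le_rfl, ?_⟩
    have := adj_up m (n + k)
    rw [show n + ((k + 1 : ℕ) : ℤ) = n + k + 1 by push_cast; ring]
    exact this

theorem conn_h' {K : Set V} {m m' n : ℤ}
    (h : ∀ i : ℤ, min m m' ≤ i → i ≤ max m m' → (i, n) ∈ K) : Conn K (m, n) (m', n) := by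
  rcases le_total m m' with hm | hm
  · obtain ⟨k, hk⟩ := Int.eq_ofNat_of_zero_le (sub_nonneg.2 hm)
    have := conn_h (K := K) (m := m) (n := n) k (fun i hi hi' => h i (by omega) (by omega))
    rwa [show m + (k : ℤ) = m' by omega] at this
  · obtain ⟨k, hk⟩ := Int.eq_ofNat_of_zero_le (sub_nonneg.2 hm)
    have := conn_h (K := K) (m := m') (n := n) k (fun i hi hi' => h i (by omega) (by omega))
    rw [show m' + (k : ℤ) = m by omega] at this
    exact Conn.symm this

theorem conn_v' {K : Set V} {m n n' : ℤ}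
    (h : ∀ i : ℤ, min n n' ≤ i → i ≤ max n n' → (m, i) ∈ K) : Conn K (m, n) (m, n') := by
  rcases le_total n n' with hm | hm
  · obtain ⟨k, hk⟩ := Int.eq_ofNat_of_zero_le (sub_nonneg.2 hm)
    have := conn_v (K := K) (m := m) (n := n) k (fun i hi hi' => h i (by omega) (by omega))
    rwa [show n + (k : ℤ) = n' by omega] at this
  · obtain ⟨k, hk⟩ := Int.eq_ofNat_of_zero_le (sub_nonneg.2 hm)
    have := conn_v (K := K) (m := m) (n := n') k (fun i hi hi' => h i (by omega) (by omega))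
    rw [show n' + (k : ℤ) = n by omega] at this
    exact Conn.symm this

section

variable {T : Type*} [TopologicalSpace T] (X Y : T → ℝ) (ε : ℝ)

/-- grid points near the point `c` -/
def Bl (c : T) : Set V := {g | |ε * g.1 - X c| ≤ ε ∧ |ε * g.2 - Y c| ≤ ε}

/-- grid points near the set `C` -/
def disc (C : Set T) : Set V := {g | ∃ c ∈ C, g ∈ Bl X Y ε c}

variable {X Y ε}

theorem exists_int (hε : 0 < ε) {a b : ℝ} (hab : |a - b| ≤ ε) :
    ∃ n : ℤ, |ε * n - a| ≤ ε ∧ |ε * n - b| ≤ ε := by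
  refine ⟨⌊min a b / ε + 1⌋, ?_⟩
  have h1 := Int.floor_le (min a b / ε + 1)
  have h2 := Int.lt_floor_add_one (min a b / ε + 1)
  set n := ⌊min a b / ε + 1⌋
  have h3 : ε * n ≤ min a b + ε := by
    have := mul_le_mul_of_nonneg_left h1 hε.le
    rwa [mul_add, mul_div_cancel₀ _ hε.ne', mul_one] at this
  have h4 : min a b < ε * n := by
    have := mul_lt_mul_of_pos_left h2 hε
    rw [mul_add, mul_add, mul_div_cancel₀ _ hε.ne', mul_one] at this
    linarith
  rw [abs_le] at hab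
  rcases le_total a b with h | h
  · rw [min_eq_left h] at h3 h4
    exact ⟨abs_le.2 ⟨by linarith, by linarith⟩, abs_le.2 ⟨by linarith, by linarith⟩⟩
  · rw [min_eq_right h] at h3 h4
    exact ⟨abs_le.2 ⟨by linarith, by linarith⟩, abs_le.2 ⟨by linarith, by linarith⟩⟩

omit [TopologicalSpace T] in
theorem Bl_inter (hε : 0 < ε) {c d : T} (h1 : |X c - X d| ≤ ε) (h2 : |Y c - Y d| ≤ ε) :
    ∃ g, g ∈ Bl X Y ε c ∧ g ∈ Bl X Y ε d := by
  obtain ⟨m, hm1, hm2⟩ := exists_int hε h1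
  obtain ⟨n, hn1, hn2⟩ := exists_int hε h2
  exact ⟨(m, n), ⟨hm1, hn1⟩, ⟨hm2, hn2⟩⟩

omit [TopologicalSpace T] in
theorem Bl_nonempty (hε : 0 < ε) (c : T) : ∃ g, g ∈ Bl X Y ε c := by
  obtain ⟨g, hg, _⟩ := Bl_inter (X := X) (Y := Y) hε (c := c) (d := c) (by simpa using hε.le)
    (by simpa using hε.le)
  exact ⟨g, hg⟩

theorem between (hε : 0 < ε) {a : ℝ} {m m' i : ℤ} (hm : |ε * m - a| ≤ ε) (hm' : |ε * m' - a| ≤ ε)
    (h1 : min m m' ≤ i) (h2 : i ≤ max m m') : |ε * i - a| ≤ ε := by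
  rw [abs_le] at *
  rcases le_total m m' with h | h
  · rw [min_eq_left h] at h1
    rw [max_eq_right h] at h2
    have h3 : ε * m ≤ ε * i := mul_le_mul_of_nonneg_left (by exact_mod_cast h1) hε.le
    have h4 : ε * i ≤ ε * m' := mul_le_mul_of_nonneg_left (by exact_mod_cast h2) hε.le
    constructor <;> linarith [hm.1, hm'.2]
  · rw [min_eq_right h] at h1
    rw [max_eq_left h] at h2
    have h3 : ε * m' ≤ ε * i := mul_le_mul_of_nonneg_left (by exact_mod_cast h1) hε.le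
    have h4 : ε * i ≤ ε * m := mul_le_mul_of_nonneg_left (by exact_mod_cast h2) hε.le
    constructor <;> linarith [hm.2, hm'.1]

omit [TopologicalSpace T] in
theorem Bl_conn (hε : 0 < ε) {K : Set V} {c : T} (hK : Bl X Y ε c ⊆ K) {g g' : V}
    (hg : g ∈ Bl X Y ε c) (hg' : g' ∈ Bl X Y ε c) : Conn K g g' := by
  obtain ⟨m, n⟩ := g
  obtain ⟨m', n'⟩ := g'
  refine Conn.trans (v := (m', n)) (conn_h' ?_) (conn_v' ?_)
  · intro i hi hi'
    exact hK ⟨between hε hg.1 hg'.1 hi hi', hg.2⟩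
  · intro i hi hi'
    exact hK ⟨hg'.1, between hε hg.2 hg'.2 hi hi'⟩

theorem disc_conn (hε : 0 < ε) (hX : Continuous X) (hY : Continuous Y) {C : Set T}
    (hC : IsPreconnected C) {g g' : V} (hg : g ∈ disc X Y ε C) (hg' : g' ∈ disc X Y ε C) :
    Conn (disc X Y ε C) g g' := by
  obtain ⟨c, hc, hgc⟩ := hg
  obtain ⟨c', hc', hgc'⟩ := hg'
  have hsub : ∀ c ∈ C, Bl X Y ε c ⊆ disc X Y ε C := fun c hc g hg => ⟨c, hc, hg⟩
  have key := hC.induction₂' (fun c c' => ∀ g ∈ Bl X Y ε c, ∀ g' ∈ Bl X Y ε c',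
    Conn (disc X Y ε C) g g') (by
      intro x hx
      have h1 : ∀ᶠ y in 𝓝 x, |X x - X y| ≤ ε := by
        have : ContinuousAt (fun y => |X x - X y|) x := by fun_prop
        have h := this.eventually (gt_mem_nhds (show |X x - X x| < ε by simpa using hε))
        filter_upwards [h] with y hy using hy.le
      have h2 : ∀ᶠ y in 𝓝 x, |Y x - Y y| ≤ ε := by
        have : ContinuousAt (fun y => |Y x - Y y|) x := by fun_prop
        have h := this.eventually (gt_mem_nhds (show |Y x - Y x| < ε by simpa using hε))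
        filter_upwards [h] with y hy using hy.le
      filter_upwards [nhdsWithin_le_nhds h1, nhdsWithin_le_nhds h2, self_mem_nhdsWithin]
        with y hy1 hy2 hyC
      have h3 : ∀ g ∈ Bl X Y ε x, ∀ g' ∈ Bl X Y ε y, Conn (disc X Y ε C) g g' := by
        intro g hg g' hg'
        obtain ⟨k, hk1, hk2⟩ := Bl_inter hε hy1 hy2
        exact Conn.trans (Bl_conn hε (hsub x hx) hg hk1) (Bl_conn hε (hsub y hyC) hk2 hg')
      exact ⟨h3, fun g hg g' hg' => Conn.symm (h3 g' hg' g hg)⟩)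
    (by
      intro x y z _ _ _ hxy hyz g hg g' hg'
      obtain ⟨k, hk⟩ := Bl_nonempty (X := X) (Y := Y) hε y
      exact Conn.trans (hxy g hg k hk) (hyz k hk g' hg')) hc hc'
  exact key g hgc g' hgc'

theorem disc_finite (hε : 0 < ε) [CompactSpace T] (hX : Continuous X) (hY : Continuous Y)
    (C : Set T) : (disc X Y ε C).Finite := by
  obtain ⟨M, hM⟩ := (isCompact_range hX).isBounded.exists_norm_le
  obtain ⟨N, hN⟩ := (isCompact_range hY).isBounded.exists_norm_le
  have key : ∀ (a R : ℝ) (n : ℤ), |a| ≤ R → |ε * n - a| ≤ ε → n ∈ Icc (-⌈R / ε + 1⌉) ⌈R / ε + 1⌉ := by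
    intro a R n ha hn
    rw [abs_le] at ha hn
    have h1 := Int.le_ceil (R / ε + 1)
    have h2 : R + ε ≤ ε * ⌈R / ε + 1⌉ := by
      have := mul_le_mul_of_nonneg_left h1 hε.le
      rwa [mul_add, mul_div_cancel₀ _ hε.ne', mul_one] at this
    constructor
    · have : ε * (-⌈R / ε + 1⌉ : ℤ) ≤ ε * n := by push_cast; linarith
      exact_mod_cast le_of_mul_le_mul_left this hε
    · have : ε * n ≤ ε * (⌈R / ε + 1⌉ : ℤ) := by linarith
      exact_mod_cast le_of_mul_le_mul_left this hε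
  apply Set.Finite.subset ((Set.finite_Icc (-⌈M / ε + 1⌉) ⌈M / ε + 1⌉).prod
    (Set.finite_Icc (-⌈N / ε + 1⌉) ⌈N / ε + 1⌉))
  rintro ⟨m, n⟩ ⟨c, _, h1, h2⟩
  exact ⟨key (X c) M m (hM _ ⟨c, rfl⟩) h1, key (Y c) N n (hN _ ⟨c, rfl⟩) h2⟩

end

variable {T : Type*} [TopologicalSpace T] [CompactSpace T] {X Y : T → ℝ}

theorem disc_disjoint (hX : Continuous X) (hY : Continuous Y)
    (hinj : ∀ s t, X s = X t → Y s = Y t → s = t) {C D : Set T} (hC : IsClosed C)
    (hD : IsClosed D) (hCD : Disjoint C D) :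
    ∀ᶠ ε in 𝓝[>] (0 : ℝ), Disjoint (disc X Y ε C) (disc X Y ε D) := by
  have hcomp : IsCompact (C ×ˢ D) := hC.isCompact.prod hD.isCompact
  set F : T × T → ℝ := fun p => |X p.1 - X p.2| + |Y p.1 - Y p.2| with hF
  have hFc : Continuous F := by fun_prop
  obtain ⟨δ, hδ, hδF⟩ : ∃ δ > 0, ∀ c ∈ C, ∀ d ∈ D, δ ≤ F (c, d) := by
    rcases (C ×ˢ D).eq_empty_or_nonempty with h | h
    · exact ⟨1, one_pos, fun c hc d hd => absurd (show (c, d) ∈ C ×ˢ D from ⟨hc, hd⟩)
        (by rw [h]; exact notMem_empty _)⟩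
    · obtain ⟨⟨c0, d0⟩, ⟨h1, h2⟩, hmin⟩ := hcomp.exists_isMinOn h hFc.continuousOn
      refine ⟨F (c0, d0), ?_, fun c hc d hd => hmin (show (c, d) ∈ C ×ˢ D from ⟨hc, hd⟩)⟩
      by_contra hcon
      have h3 : |X c0 - X d0| + |Y c0 - Y d0| ≤ 0 := not_lt.1 hcon
      have h4 : |X c0 - X d0| = 0 := by linarith [abs_nonneg (X c0 - X d0), abs_nonneg (Y c0 - Y d0)]
      have h5 : |Y c0 - Y d0| = 0 := by linarith [abs_nonneg (X c0 - X d0), abs_nonneg (Y c0 - Y d0)]
      have := hinj c0 d0 (sub_eq_zero.1 (abs_eq_zero.1 h4)) (sub_eq_zero.1 (abs_eq_zero.1 h5))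
      rw [this] at h1
      exact disjoint_left.1 hCD h1 h2
  filter_upwards [Ioo_mem_nhdsGT (show (0 : ℝ) < δ / 4 by positivity)] with ε hε
  rw [disjoint_left]
  rintro g ⟨c, hc, hgc⟩ ⟨d, hd, hgd⟩
  have h1 := hδF c hc d hd
  have h2 : |X c - X d| ≤ 2 * ε := by
    have := abs_sub_le (X c) (ε * g.1) (X d)
    rw [abs_sub_comm (X c) (ε * g.1)] at this
    linarith [hgc.1, hgd.1]
  have h3 : |Y c - Y d| ≤ 2 * ε := by
    have := abs_sub_le (Y c) (ε * g.2) (Y d)
    rw [abs_sub_comm (Y c) (ε * g.2)] at this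
    linarith [hgc.2, hgd.2]
  have h4 : F (c, d) ≤ 4 * ε := by simp only [hF]; linarith
  linarith [hε.2]

/-- The configuration of continua which is impossible in the plane. -/
theorem no_config (hX : Continuous X) (hY : Continuous Y)
    (hinj : ∀ s t, X s = X t → Y s = Y t → s = t)
    (R : Fin 3 → Fin 3 → Set T) (H : Fin 3 → Set T) (t : Fin 3 → T)
    (hR : ∀ i j, IsClosed (R i j)) (hRc : ∀ i j, IsPreconnected (R i j))
    (hH : ∀ j, IsClosed (H j)) (hHc : ∀ j, IsPreconnected (H j))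
    (htR : ∀ i j, t i ∈ R i j) (hRH : ∀ i j, (R i j ∩ H j).Nonempty)
    (hRR : ∀ i j i' j', i ≠ i' → Disjoint (R i j) (R i' j'))
    (hRH' : ∀ i j j', j ≠ j' → Disjoint (R i j) (H j'))
    (hHH : ∀ j j', j ≠ j' → Disjoint (H j) (H j')) : False := by
  classical
  have e1 : ∀ᶠ ε in 𝓝[>] (0 : ℝ), ∀ i j i' j', i ≠ i' →
      Disjoint (disc X Y ε (R i j)) (disc X Y ε (R i' j')) := by
    simp only [Filter.eventually_all]
    intro i j i' j' h
    exact disc_disjoint hX hY hinj (hR i j) (hR i' j') (hRR i j i' j' h)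
  have e2 : ∀ᶠ ε in 𝓝[>] (0 : ℝ), ∀ i j j', j ≠ j' →
      Disjoint (disc X Y ε (R i j)) (disc X Y ε (H j')) := by
    simp only [Filter.eventually_all]
    intro i j j' h
    exact disc_disjoint hX hY hinj (hR i j) (hH j') (hRH' i j j' h)
  have e3 : ∀ᶠ ε in 𝓝[>] (0 : ℝ), ∀ j j', j ≠ j' →
      Disjoint (disc X Y ε (H j)) (disc X Y ε (H j')) := by
    simp only [Filter.eventually_all]
    intro j j' h
    exact disc_disjoint hX hY hinj (hH j) (hH j') (hHH j j' h)
  obtain ⟨ε, ⟨⟨⟨e1, e2⟩, e3⟩, hε⟩⟩ := (((e1.and e2).and e3).and self_mem_nhdsWithin).exists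
  have hε' : 0 < ε := hε
  -- base points
  have hα : ∀ i, ∃ g, g ∈ Bl X Y ε (t i) := fun i => Bl_nonempty hε' (t i)
  choose α hα using hα
  have hαR : ∀ i j, α i ∈ disc X Y ε (R i j) := fun i j => ⟨t i, htR i j, hα i⟩
  have hβ : ∀ j, ∃ g, g ∈ disc X Y ε (H j) := by
    intro j
    obtain ⟨c, _, hc⟩ := hRH 0 j
    obtain ⟨g, hg⟩ := Bl_nonempty (X := X) (Y := Y) hε' c
    exact ⟨g, c, hc, hg⟩
  choose β hβ using hβ
  set W : Fin 3 → Set V := fun i => (⋃ j, disc X Y ε (R i j)) \ ⋃ l, disc X Y ε (H l) with hW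
  have hαW : ∀ i, α i ∈ W i := by
    intro i
    refine ⟨mem_iUnion.2 ⟨0, hαR i 0⟩, ?_⟩
    intro hcon
    obtain ⟨l, hl⟩ := mem_iUnion.1 hcon
    have : ∃ j : Fin 3, j ≠ l := by
      by_cases h : l = 0
      · exact ⟨1, by rw [h]; decide⟩
      · exact ⟨0, Ne.symm h⟩
    obtain ⟨j, hj⟩ := this
    exact disjoint_left.1 (e2 i j l hj) (hαR i j) hl
  set A : Fin 3 → Set V := fun i => {g | Conn (W i) (α i) g} with hA
  have hAW : ∀ i, A i ⊆ W i := by
    intro i g hg
    rcases Relation.ReflTransGen.cases_tail hg with h | ⟨b, _, hb⟩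
    · rw [h]; exact hαW i
    · exact hb.2.1
  have hAconn : ∀ i, ∀ g ∈ A i, Conn (A i) (α i) g := by
    intro i g hg
    have hg' : Conn (W i) (α i) g := hg
    unfold Conn at hg'
    induction hg' with
    | refl => exact Relation.ReflTransGen.refl
    | @tail b c hb hbc ih =>
      have hbA : b ∈ A i := hb
      exact Relation.ReflTransGen.tail (ih hbA) ⟨hbA, hg, hbc.2.2⟩
  have hfinR : ∀ i, (W i).Finite := fun i =>
    (Set.finite_iUnion fun j => disc_finite hε' hX hY (R i j)).subset sdiff_subset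
  have hfinA : ∀ i, (A i).Finite := fun i => (hfinR i).subset (hAW i)
  have hfinB : ∀ j, (disc X Y ε (H j)).Finite := fun j => disc_finite hε' hX hY (H j)
  refine K33.no_K33 (fun i => (hfinA i).toFinset) (fun j => (hfinB j).toFinset) α β ?_ ?_ ?_ ?_ ?_ ?_
  · intro i x hx
    rw [Set.Finite.mem_toFinset] at hx
    rw [Set.Finite.coe_toFinset]
    exact hAconn i x hx
  · intro j x hx
    rw [Set.Finite.mem_toFinset] at hx
    rw [Set.Finite.coe_toFinset]
    exact disc_conn hε' hX hY (hHc j) (hβ j) hx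
  · intro i i' x hx hx'
    rw [Set.Finite.mem_toFinset] at hx hx'
    by_contra hne
    obtain ⟨j, hj⟩ := mem_iUnion.1 (hAW i hx).1
    obtain ⟨j', hj'⟩ := mem_iUnion.1 (hAW i' hx').1
    exact disjoint_left.1 (e1 i j i' j' hne) hj hj'
  · intro j j' x hx hx'
    rw [Set.Finite.mem_toFinset] at hx hx'
    by_contra hne
    exact disjoint_left.1 (e3 j j' hne) hx hx'
  · intro i j x hx hx'
    rw [Set.Finite.mem_toFinset] at hx hx'
    exact (hAW i hx).2 (mem_iUnion.2 ⟨j, hx'⟩)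
  · intro i j
    have key : ∀ g, Conn (disc X Y ε (R i j)) (α i) g →
        g ∈ A i ∨ ∃ x ∈ A i, ∃ y ∈ disc X Y ε (H j), Adj x y := by
      intro g hg
      unfold Conn at hg
      induction hg with
      | refl => exact Or.inl Relation.ReflTransGen.refl
      | @tail b c _ hbc ih =>
        rcases ih with hb | h
        · by_cases hc : c ∈ disc X Y ε (H j)
          · exact Or.inr ⟨b, hb, c, hc, hbc.2.2⟩
          · left
            have hcW : c ∈ W i := by
              refine ⟨mem_iUnion.2 ⟨j, hbc.2.1⟩, ?_⟩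
              intro hcon
              obtain ⟨l, hl⟩ := mem_iUnion.1 hcon
              by_cases hjl : j = l
              · rw [hjl] at hc; exact hc hl
              · exact disjoint_left.1 (e2 i j l hjl) hbc.2.1 hl
            exact Relation.ReflTransGen.tail hb ⟨hAW i hb, hcW, hbc.2.2⟩
        · exact Or.inr h
    obtain ⟨c, hcR, hcH⟩ := hRH i j
    obtain ⟨g, hg⟩ := Bl_nonempty (X := X) (Y := Y) hε' c
    have h1 : Conn (disc X Y ε (R i j)) (α i) g :=
      disc_conn hε' hX hY (hRc i j) (hαR i j) ⟨c, hcR, hg⟩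
    rcases key g h1 with h2 | ⟨x, hx, y, hy, hxy⟩
    · exact absurd (mem_iUnion.2 ⟨j, (⟨c, hcH, hg⟩ : g ∈ disc X Y ε (H j))⟩) (hAW i h2).2
    · exact ⟨x, (Set.Finite.mem_toFinset _).2 hx, y, (Set.Finite.mem_toFinset _).2 hy, hxy⟩

end Pool.Agent.Helper300.Disc
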