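import Mathlib
import Pool.Agent.Helper300.Cont

open Set Topology Complex Pool.Agent.Helper300.Cont

namespace Pool.Agent.Helper300.FanCover

/-! ### The dyadic solenoid -/

noncomputable def rho (t : ℝ) (n : ℕ) : ℂ := exp ((t / 2 ^ n : ℝ) * I)

def Sol : Set (ℕ → ℂ) := {w | ‖w 0‖ = 1 ∧ ∀ n, w (n + 1) ^ 2 = w n}

theorem norm_rho (t : ℝ) (n : ℕ) : ‖rho t n‖ = 1 := norm_exp_ofReal_mul_I _

theorem rho_zero (n : ℕ) : rho 0 n = 1 := by simp [rho]

theorem rho_add (s t : ℝ) (n : ℕ) : rho (s + t) n = rho s n * rho t n := by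
  rw [rho, rho, rho, ← exp_add]
  congr 1
  push_cast
  ring

theorem rho_succ_sq (t : ℝ) (n : ℕ) : rho t (n + 1) ^ 2 = rho t n := by
  rw [rho, rho, ← exp_nat_mul]
  congr 1
  push_cast
  rw [pow_succ]
  field_simp

theorem rho_mem (t : ℝ) : rho t ∈ Sol := ⟨norm_rho _ _, rho_succ_sq t⟩

theorem mul_mem {v w : ℕ → ℂ} (hv : v ∈ Sol) (hw : w ∈ Sol) : v * w ∈ Sol := by
  refine ⟨?_, fun n => ?_⟩
  · rw [Pi.mul_apply, norm_mul, hv.1, hw.1, one_mul]
  · rw [Pi.mul_apply, Pi.mul_apply, mul_pow, hv.2, hw.2]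

theorem norm_Sol {w : ℕ → ℂ} (hw : w ∈ Sol) (n : ℕ) : ‖w n‖ = 1 := by
  induction n with
  | zero => exact hw.1
  | succ n ih =>
    have h := hw.2 n
    have h2 : ‖w (n + 1)‖ ^ 2 = 1 := by rw [← norm_pow, h, ih]
    have h3 : 0 ≤ ‖w (n + 1)‖ := norm_nonneg _
    nlinarith

theorem Sol_pow {w : ℕ → ℂ} (hw : w ∈ Sol) (j k : ℕ) : w j = w (j + k) ^ (2 ^ k) := by
  induction k with
  | zero => simp
  | succ k ih =>
    rw [ih, ← hw.2 (j + k), ← pow_mul, ← pow_succ']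
    rfl

theorem Sol_agree {v w : ℕ → ℂ} (hv : v ∈ Sol) (hw : w ∈ Sol) {K : ℕ} (h : v K = w K) :
    ∀ j ≤ K, v j = w j := by
  intro j hj
  obtain ⟨k, rfl⟩ := Nat.exists_eq_add_of_le hj
  rw [Sol_pow hv j k, Sol_pow hw j k, h]

theorem isClosed_Sol : IsClosed Sol := by
  have h1 : IsClosed {w : ℕ → ℂ | ‖w 0‖ = 1} :=
    isClosed_eq (continuous_norm.comp (continuous_apply 0)) continuous_const
  have h2 : IsClosed {w : ℕ → ℂ | ∀ n, w (n + 1) ^ 2 = w n} := by
    rw [ofPred_forall]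
    exact isClosed_iInter fun n =>
      isClosed_eq ((continuous_apply (n + 1)).pow 2) (continuous_apply n)
  exact h1.inter h2

theorem isCompact_Sol : IsCompact Sol := by
  have h : IsCompact (Set.pi univ (fun _ : ℕ => Metric.closedBall (0 : ℂ) 1)) :=
    isCompact_univ_pi fun _ => isCompact_closedBall _ _
  apply h.of_isClosed_subset isClosed_Sol
  intro w hw n _
  rw [mem_closedBall_zero_iff]
  exact (norm_Sol hw n).le

/-- neighbourhoods in the product -/
theorem exists_coord {O : Set (ℕ → ℂ)} (hO : IsOpen O) {w : ℕ → ℂ} (hw : w ∈ O) :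
    ∃ K : ℕ, ∀ v : ℕ → ℂ, (∀ j ≤ K, v j = w j) → v ∈ O := by
  obtain ⟨J, u, hu1, hu2⟩ := isOpen_pi_iff.1 hO w hw
  refine ⟨J.sup id, fun v hv => hu2 ?_⟩
  intro j hj
  rw [hv j (Finset.le_sup (f := id) hj)]
  exact (hu1 j hj).2

theorem Sol_subset_closure : Sol ⊆ closure (range rho) := by
  intro w hw
  rw [mem_closure_iff]
  intro O hO hwO
  obtain ⟨K, hK⟩ := exists_coord hO hwO
  refine ⟨rho (2 ^ K * arg (w K)), hK _ ?_, ⟨_, rfl⟩⟩
  apply Sol_agree (rho_mem _) hw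
  rw [rho, mul_div_cancel_left₀ _ (by positivity)]
  have := norm_mul_exp_arg_mul_I (w K)
  rwa [norm_Sol hw K, ofReal_one, one_mul] at this

theorem continuous_rho : Continuous rho := by
  apply continuous_pi
  intro n
  simp only [rho]
  fun_prop

theorem Sol_eq : Sol = closure (range rho) := by
  apply Subset.antisymm Sol_subset_closure
  apply closure_minimal _ isClosed_Sol
  rintro _ ⟨t, rfl⟩
  exact rho_mem t

theorem isConnected_Sol : IsConnected Sol := by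
  rw [Sol_eq]
  exact (isConnected_range continuous_rho).closure

theorem sol_key {A : Set (ℕ → ℂ)} (hA : IsClosed A) (hconn : IsPreconnected A)
    (hAS : A ⊆ Sol) (hne : A ≠ Sol) :
    ∃ K : ℕ, ∀ n ≥ K, ∀ v ∈ A, ∀ w ∈ A, v (n + 1) ≠ - w (n + 1) := by
  obtain ⟨a, haS, haA⟩ : ∃ a ∈ Sol, a ∉ A := by
    by_contra hcon
    push Not at hcon
    exact hne (Subset.antisymm hAS hcon)
  obtain ⟨K, hK⟩ := exists_coord hA.isOpen_compl haA
  refine ⟨K, fun n hn v hv w hw hvw => ?_⟩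
  -- no element of A agrees with a at coordinate n
  have hno : ∀ x ∈ A, x n ≠ a n := by
    intro x hx hxa
    exact hK x (fun j hj => Sol_agree (hAS hx) haS hxa j (hj.trans hn)) hx
  set b : ℂ := a (n + 1) with hb
  have hb1 : ‖b‖ = 1 := norm_Sol haS _
  -- the function Im (x (n+1) * conj b) does not vanish on A
  have hnz : ∀ x ∈ A, (x (n + 1) * (starRingEnd ℂ) b).im ≠ 0 := by
    intro x hx h0
    set z : ℂ := x (n + 1) * (starRingEnd ℂ) b with hz
    have hz1 : ‖z‖ = 1 := by rw [hz, norm_mul, norm_Sol (hAS hx), norm_conj, hb1, one_mul]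
    have hz2 : z ^ 2 = 1 := by
      have h1 : z = (z.re : ℂ) := by
        apply Complex.ext
        · simp
        · simp [h0]
      have h2 : z.re ^ 2 = 1 := by
        have h3 : ‖z‖ ^ 2 = z.re ^ 2 + z.im ^ 2 := by
          rw [← normSq_eq_norm_sq, normSq_apply]; ring
        rw [hz1, h0] at h3
        linarith
      rw [h1, ← ofReal_pow, h2, ofReal_one]
    have hbb : (starRingEnd ℂ) b * b = 1 := by
      rw [mul_comm, mul_conj, normSq_eq_norm_sq, hb1]
      norm_num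
    apply hno x hx
    rw [← (hAS hx).2 n, ← haS.2 n, ← hb]
    have h4 : x (n + 1) = z * b := by
      rw [hz, mul_assoc, hbb, mul_one]
    rw [h4, mul_pow, hz2, one_mul]
  have hg : Continuous (fun x : ℕ → ℂ => (x (n + 1) * (starRingEnd ℂ) b).im) := by
    fun_prop
  have hopp : (v (n + 1) * (starRingEnd ℂ) b).im = - (w (n + 1) * (starRingEnd ℂ) b).im := by
    rw [hvw, neg_mul, neg_im]
  have hord : OrdConnected ((fun x : ℕ → ℂ => (x (n + 1) * (starRingEnd ℂ) b).im) '' A) :=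
    (hconn.image _ hg.continuousOn).ordConnected
  rcases lt_or_gt_of_ne (hnz w hw) with h | h
  · have : (0 : ℝ) ∈ (fun x : ℕ → ℂ => (x (n + 1) * (starRingEnd ℂ) b).im) '' A :=
      hord.out ⟨w, hw, rfl⟩ ⟨v, hv, rfl⟩ ⟨h.le, by
        show 0 ≤ (v (n + 1) * (starRingEnd ℂ) b).im
        rw [hopp]; linarith⟩
    obtain ⟨x, hx, hx0⟩ := this
    exact hnz x hx hx0
  · have : (0 : ℝ) ∈ (fun x : ℕ → ℂ => (x (n + 1) * (starRingEnd ℂ) b).im) '' A :=
      hord.out ⟨v, hv, rfl⟩ ⟨w, hw, rfl⟩ ⟨by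
        show (v (n + 1) * (starRingEnd ℂ) b).im ≤ 0
        rw [hopp]; linarith, h.le⟩
    obtain ⟨x, hx, hx0⟩ := this
    exact hnz x hx hx0

theorem rho_neg_one (n : ℕ) : rho (2 ^ n * Real.pi) n = -1 := by
  rw [rho, mul_div_cancel_left₀ _ (by positivity)]
  exact exp_pi_mul_I

/-- The solenoid is not the union of two proper subcontinua. -/
theorem not_Dec_Sol : ¬ Dec Sol := by
  rintro ⟨A, B, hAS, hBS, hA, hB, hAc, hAconn, hBc, hBconn, hAB⟩
  obtain ⟨K, hK⟩ := sol_key hAc.isClosed hAconn.isPreconnected hAS hA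
  obtain ⟨L, hL⟩ := sol_key hBc.isClosed hBconn.isPreconnected hBS hB
  set n := max K L with hn
  set e : ℕ → ℂ := rho (2 ^ (n + 1) * Real.pi) with he
  have heS : e ∈ Sol := rho_mem _
  have he1 : e (n + 1) = -1 := rho_neg_one _
  have hshift : ∀ v : ℕ → ℂ, (v * e) (n + 1) = - v (n + 1) := by
    intro v
    rw [Pi.mul_apply, he1, mul_neg, mul_one]
  have hA' : ∀ v ∈ A, v * e ∈ B := by
    intro v hv
    have : v * e ∈ A ∪ B := by rw [hAB]; exact mul_mem (hAS hv) heS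
    rcases this with h | h
    · exact absurd (hshift v) (hK n (le_max_left _ _) _ h _ hv)
    · exact h
  have hdisj : ∀ v ∈ A, v ∉ B := fun v hv hvB =>
    hL n (le_max_right _ _) _ (hA' v hv) _ hvB (hshift v)
  have := isPreconnected_closed_iff.1 isConnected_Sol.isPreconnected A B hAc.isClosed hBc.isClosed
    hAB.symm.subset (by
      obtain ⟨v, hv⟩ := hAconn.nonempty
      exact ⟨v, hAS hv, hv⟩) (by
      obtain ⟨v, hv⟩ := hBconn.nonempty
      exact ⟨v, hBS hv, hv⟩)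
  obtain ⟨v, _, hv1, hv2⟩ := this
  exact hdisj v hv1 hv2

/-! ### The Cantor set and the fan -/

abbrev E := ℂ × (ℕ → ℂ) × ℝ

def P : Set (ℕ → ℂ) := {w | w ∈ Sol ∧ w 0 ^ 2 = 1}

theorem isCompact_P : IsCompact P :=
  isCompact_Sol.inter_right (isClosed_eq ((continuous_apply 0).pow 2) continuous_const)

/-- points of the fan, at height `u` -/
noncomputable def Th (p : ℕ → ℂ) (t u : ℝ) : E :=
  (exp ((max t 0 : ℝ) * I), fun n => ((min (1 + t) 1 : ℝ) : ℂ) * rho (max t 0) n * p n, u)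

theorem continuous_Th : Continuous (fun x : (ℕ → ℂ) × ℝ × ℝ => Th x.1 x.2.1 x.2.2) := by
  unfold Th
  refine Continuous.prodMk (by fun_prop) (Continuous.prodMk ?_ (by fun_prop))
  apply continuous_pi
  intro n
  simp only [rho]
  fun_prop

noncomputable def tau (x : E) : ℝ := Real.arccos x.1.re + ‖x.2.1 0‖ - 1

theorem continuous_tau : Continuous tau := by
  unfold tau
  exact ((Real.continuous_arccos.comp (by fun_prop)).add (by fun_prop)).sub continuous_const

theorem tau_Th {p : ℕ → ℂ} (hp : p ∈ Sol) {t : ℝ} (ht : t ∈ Icc (-1 : ℝ) Real.pi) (u : ℝ) :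
    tau (Th p t u) = t := by
  have h1 : ((exp ((max t 0 : ℝ) * I)) : ℂ).re = Real.cos (max t 0) := exp_ofReal_mul_I_re _
  have h2 : ‖((min (1 + t) 1 : ℝ) : ℂ) * rho (max t 0) 0 * p 0‖ = min (1 + t) 1 := by
    rw [norm_mul, norm_mul, norm_rho, norm_Sol hp, mul_one, mul_one, norm_real,
      Real.norm_eq_abs, abs_of_nonneg]
    exact le_min (by linarith [ht.1]) zero_le_one
  rw [tau, Th]
  simp only
  rw [h1, h2, Real.arccos_cos (le_max_right _ _) (max_le ht.2 Real.pi_pos.le)]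
  rcases le_total t 0 with h | h
  · rw [max_eq_right h, min_eq_left (by linarith)]; ring
  · rw [max_eq_left h, min_eq_right (by linarith)]; ring

theorem Th_inj {p q : ℕ → ℂ} (hp : p ∈ Sol) (hq : q ∈ Sol) {s t u v : ℝ}
    (hs : s ∈ Icc (-1 : ℝ) Real.pi) (ht : t ∈ Icc (-1 : ℝ) Real.pi)
    (h : Th p s u = Th q t v) : s = t ∧ u = v ∧ (s = -1 ∨ p = q) := by
  have h1 : s = t := by rw [← tau_Th hp hs u, ← tau_Th hq ht v, h]
  subst h1
  refine ⟨rfl, congrArg (fun x : E => x.2.2) h, ?_⟩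
  by_cases hs1 : s = -1
  · exact Or.inl hs1
  · right
    have hlt : -1 < s := lt_of_le_of_ne hs.1 (Ne.symm hs1)
    have hpos : 0 < min (1 + s) 1 := lt_min (by linarith) zero_lt_one
    funext n
    have h2 : ((min (1 + s) 1 : ℝ) : ℂ) * rho (max s 0) n * p n =
        ((min (1 + s) 1 : ℝ) : ℂ) * rho (max s 0) n * q n := congrFun (congrArg (fun x : E => x.2.1) h) n
    apply mul_left_cancel₀ _ h2
    apply mul_ne_zero
    · exact_mod_cast hpos.ne'
    · intro h0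
      have := norm_rho (max s 0) n
      rw [h0, norm_zero] at this
      exact zero_ne_one this

theorem Th_neg_one (p q : ℕ → ℂ) (u : ℝ) : Th p (-1) u = Th q (-1) u := by
  unfold Th
  simp

/-- the fan at height zero -/
def TP : Set E := (fun x : (ℕ → ℂ) × ℝ => Th x.1 x.2 0) '' (P ×ˢ Icc (-1 : ℝ) Real.pi)

theorem cont_Th0 : Continuous (fun x : (ℕ → ℂ) × ℝ => Th x.1 x.2 0) :=
  continuous_Th.comp (by fun_prop : Continuous (fun x : (ℕ → ℂ) × ℝ => (x.1, x.2, (0 : ℝ))))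

theorem isCompact_TP : IsCompact TP := (isCompact_P.prod isCompact_Icc).image cont_Th0

theorem one_mem_P : (fun _ => 1 : ℕ → ℂ) ∈ P := by
  refine ⟨⟨by simp, by simp⟩, by simp⟩

theorem Th_mem_TP {p : ℕ → ℂ} (hp : p ∈ P) {t : ℝ} (ht : t ∈ Icc (-1 : ℝ) Real.pi) :
    Th p t 0 ∈ TP := ⟨(p, t), ⟨hp, ht⟩, rfl⟩

theorem neg_one_mem : (-1 : ℝ) ∈ Icc (-1 : ℝ) Real.pi := ⟨le_rfl, by linarith [Real.pi_pos]⟩

theorem isConnected_TP : IsConnected TP := by
  refine ⟨⟨_, Th_mem_TP one_mem_P neg_one_mem⟩, ?_⟩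
  apply isPreconnected_of_forall (Th (fun _ => 1) (-1) 0)
  rintro _ ⟨⟨p, t⟩, ⟨hp, ht⟩, rfl⟩
  refine ⟨(fun s : ℝ => Th p s 0) '' Icc (-1 : ℝ) Real.pi, ?_, ?_, ?_, ?_⟩
  · rintro _ ⟨s, hs, rfl⟩
    exact Th_mem_TP hp hs
  · exact ⟨-1, neg_one_mem, Th_neg_one _ _ _⟩
  · exact ⟨t, ht, rfl⟩
  · apply isPreconnected_Icc.image
    exact (cont_Th0.comp (by fun_prop : Continuous (fun s : ℝ => (p, s)))).continuousOn

theorem P_sq {p q : ℕ → ℂ} (hp : p ∈ P) (hq : q ∈ P) {n : ℕ} (h : ∀ j < n, p j = q j) :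
    p n = q n ∨ p n = - q n := by
  rw [← sq_eq_sq_iff_eq_or_eq_neg]
  cases n with
  | zero => rw [hp.2, hq.2]
  | succ k => rw [hp.1.2, hq.1.2, h k (Nat.lt_succ_self k)]

theorem HD_TP : HD TP := by
  intro M hM hMc hMconn hnt
  by_cases hB : ∃ n : ℕ, ∃ p ∈ P, ∃ s ∈ Icc (-1 : ℝ) Real.pi, ∃ q ∈ P, ∃ t ∈ Icc (-1 : ℝ) Real.pi,
      s ≠ -1 ∧ t ≠ -1 ∧ Th p s 0 ∈ M ∧ Th q t 0 ∈ M ∧ p n ≠ q n
  · classical
    obtain ⟨p, hp, s, hs, q, hq, t, ht, hs1, ht1, hpM, hqM, hpq⟩ := Nat.find_spec hB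
    set n := Nat.find hB with hn
    have hmin : ∀ j < n, ∀ p' ∈ P, ∀ s' ∈ Icc (-1 : ℝ) Real.pi, s' ≠ -1 → Th p' s' 0 ∈ M →
        p' j = p j := by
      intro j hj p' hp' s' hs' hs'1 hM'
      by_contra hne
      exact Nat.find_min hB hj ⟨p', hp', s', hs', p, hp, s, hs, hs'1, hs1, hM', hpM, hne⟩
    have hpm : ∀ p' ∈ P, ∀ s' ∈ Icc (-1 : ℝ) Real.pi, s' ≠ -1 → Th p' s' 0 ∈ M →
        p' n = p n ∨ p' n = - p n := by
      intro p' hp' s' hs' hs'1 hM'
      exact P_sq hp' hp (fun j hj => hmin j hj p' hp' s' hs' hs'1 hM')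
    have hqn : q n = - p n := (hpm q hq t ht ht1 hqM).resolve_left (Ne.symm hpq)
    have hpn0 : p n ≠ 0 := by
      intro h0
      have := norm_Sol hp.1 n
      rw [h0, norm_zero] at this
      exact zero_ne_one this
    have hpn : p n ≠ - p n := by
      intro h
      apply hpn0
      have : (2 : ℂ) * p n = 0 := by linear_combination h
      simpa using this
    have hcl : ∀ a : ℂ, IsClosed ((fun x : (ℕ → ℂ) × ℝ => Th x.1 x.2 0) ''
        ({x | x ∈ P ∧ x n = a} ×ˢ Icc (-1 : ℝ) Real.pi)) := by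
      intro a
      apply IsCompact.isClosed
      refine IsCompact.image (IsCompact.prod ?_ isCompact_Icc) cont_Th0
      exact isCompact_P.inter_right (isClosed_eq (continuous_apply n) continuous_const)
    refine dec_of_closed hMc hMconn (hcl (p n)) (hcl (-p n)) ?_ hqM ?_ hpM ?_ ?_
    · intro x hx
      obtain ⟨⟨p', s'⟩, ⟨hp', hs'⟩, rfl⟩ := hM hx
      by_cases hs'1 : s' = -1
      · left
        refine ⟨(p, -1), ⟨⟨hp, rfl⟩, neg_one_mem⟩, ?_⟩
        subst hs'1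
        exact Th_neg_one _ _ _
      · rcases hpm p' hp' s' hs' hs'1 hx with h | h
        · exact Or.inl ⟨(p', s'), ⟨⟨hp', h⟩, hs'⟩, rfl⟩
        · exact Or.inr ⟨(p', s'), ⟨⟨hp', h⟩, hs'⟩, rfl⟩
    · rintro ⟨⟨p', s'⟩, ⟨⟨hp', hp'n⟩, hs'⟩, he⟩
      obtain ⟨h1, _, h2⟩ := Th_inj hp'.1 hq.1 hs' ht he
      rcases h2 with h2 | h2
      · exact ht1 (h1 ▸ h2)
      · subst h2
        exact hpn (hp'n ▸ hqn)
    · rintro ⟨⟨p', s'⟩, ⟨⟨hp', hp'n⟩, hs'⟩, he⟩
      obtain ⟨h1, _, h2⟩ := Th_inj hp'.1 hp.1 hs' hs he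
      rcases h2 with h2 | h2
      · exact hs1 (h1 ▸ h2)
      · subst h2
        exact hpn hp'n
    · have hv : ∀ x ∈ M ∩ ((fun x : (ℕ → ℂ) × ℝ => Th x.1 x.2 0) ''
          ({x | x ∈ P ∧ x n = p n} ×ˢ Icc (-1 : ℝ) Real.pi)) ∩
          ((fun x : (ℕ → ℂ) × ℝ => Th x.1 x.2 0) ''
          ({x | x ∈ P ∧ x n = - p n} ×ˢ Icc (-1 : ℝ) Real.pi)), x = Th p (-1) 0 := by
        rintro _ ⟨⟨_, ⟨⟨p1, s1⟩, ⟨⟨hp1, hp1n⟩, hs1'⟩, rfl⟩⟩, ⟨⟨p2, s2⟩, ⟨⟨hp2, hp2n⟩, hs2⟩, he⟩⟩
        obtain ⟨h1, _, h2⟩ := Th_inj hp2.1 hp1.1 hs2 hs1' he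
        rcases h2 with h2 | h2
        · have hs1'' : s1 = -1 := h1.symm.trans h2
          show Th p1 s1 0 = Th p (-1) 0
          rw [hs1'']
          exact Th_neg_one _ _ _
        · exfalso
          subst h2
          exact hpn (hp1n.symm.trans hp2n)
      intro x hx y hy
      rw [hv x hx, hv y hy]
  · push Not at hB
    obtain ⟨x, hx, y, hy, hxy⟩ := hnt
    have hinj : ∀ a ∈ M, ∀ b ∈ M, tau a = tau b → a = b := by
      intro a ha b hb hab
      obtain ⟨⟨p, s⟩, ⟨hp, hs⟩, rfl⟩ := hM ha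
      obtain ⟨⟨q, t⟩, ⟨hq, ht⟩, rfl⟩ := hM hb
      simp only at hab ⊢
      rw [tau_Th hp.1 hs, tau_Th hq.1 ht] at hab
      subst hab
      by_cases hs1 : s = -1
      · subst hs1
        exact Th_neg_one _ _ _
      · have : p = q := by
          funext n
          exact hB n p hp s hs q hq s ht hs1 hs1 ha hb
        rw [this]
    have hne : tau x ≠ tau y := fun h => hxy (hinj x hx y hy h)
    rcases lt_or_gt_of_ne hne with h | h
    · exact dec_of_fun hMc hMconn continuous_tau (c := (tau x + tau y) / 2) hx (by linarith) hy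
        (by linarith) (fun a ha b hb h1 h2 => hinj a ha b hb (h1.trans h2.symm))
    · exact dec_of_fun hMc hMconn continuous_tau (c := (tau x + tau y) / 2) hy (by linarith) hx
        (by linarith) (fun a ha b hb h1 h2 => hinj a ha b hb (h1.trans h2.symm))

/-! ### The ray limiting onto the fan -/

theorem continuous_mul_floor {A : ℝ → ℂ} (hA : Continuous A)
    (h0 : ∀ r, Int.fract r = 0 → A r = 0) {g : ℤ → ℂ} (hg : ∀ m, ‖g m‖ ≤ 1) :
    Continuous (fun r => A r * g ⌊r⌋) := by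
  rw [continuous_iff_continuousAt]
  intro r0
  by_cases h : A r0 = 0
  · rw [ContinuousAt, h, zero_mul]
    have h1 : Filter.Tendsto (fun r => ‖A r‖) (𝓝 r0) (𝓝 0) := by
      have := (continuous_norm.comp hA).tendsto r0
      simp only [Function.comp_def, h, norm_zero] at this
      exact this
    apply squeeze_zero_norm _ h1
    intro r
    rw [norm_mul]
    exact mul_le_of_le_one_right (norm_nonneg _) (hg _)
  · have hf : Int.fract r0 ≠ 0 := fun hf => h (h0 r0 hf)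
    have hpos : 0 < Int.fract r0 := lt_of_le_of_ne (Int.fract_nonneg _) (Ne.symm hf)
    have hlt : (⌊r0⌋ : ℝ) < r0 := by
      have := Int.self_sub_floor r0
      linarith
    have hmem : Ioo (⌊r0⌋ : ℝ) (⌊r0⌋ + 1) ∈ 𝓝 r0 := Ioo_mem_nhds hlt (Int.lt_floor_add_one r0)
    have hev : (fun r => A r * g ⌊r0⌋) =ᶠ[𝓝 r0] (fun r => A r * g ⌊r⌋) := by
      filter_upwards [hmem] with r hr
      have : ⌊r⌋ = ⌊r0⌋ := Int.floor_eq_iff.2 ⟨hr.1.le, hr.2⟩
      rw [this]
    exact ((hA.mul continuous_const).continuousAt).congr hev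

noncomputable def tri (r : ℝ) : ℝ := -1 + (Real.pi + 1) * (1 - |2 * Int.fract r - 1|)

theorem continuous_tri : Continuous tri := by
  have h : Continuous ((fun x : ℝ => -1 + (Real.pi + 1) * (1 - |2 * x - 1|)) ∘ Int.fract) := by
    apply ContinuousOn.comp_fract''
    · apply Continuous.continuousOn
      fun_prop
    · norm_num
  exact h

theorem tri_mem (r : ℝ) : tri r ∈ Icc (-1 : ℝ) Real.pi := by
  have h1 := Int.fract_nonneg r
  have h2 := (Int.fract_lt_one r).le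
  have h3 : |2 * Int.fract r - 1| ≤ 1 := abs_le.2 ⟨by linarith, by linarith⟩
  have h4 := abs_nonneg (2 * Int.fract r - 1)
  have h5 := Real.pi_pos
  unfold tri
  constructor <;> nlinarith

theorem tri_of_fract_eq_zero {r : ℝ} (h : Int.fract r = 0) : tri r = -1 := by
  unfold tri
  rw [h]
  norm_num

theorem tri_nat_add (n : ℕ) {t : ℝ} (ht : t ∈ Icc (-1 : ℝ) Real.pi) :
    tri (n + (t + 1) / (2 * (Real.pi + 1))) = t ∧
      ⌊(n + (t + 1) / (2 * (Real.pi + 1)) : ℝ)⌋ = n := by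
  have hpi := Real.pi_pos
  set x : ℝ := (t + 1) / (2 * (Real.pi + 1)) with hx
  have hx0 : 0 ≤ x := div_nonneg (by linarith [ht.1]) (by linarith)
  have hx1 : x ≤ 1 / 2 := by
    rw [hx, div_le_iff₀ (by linarith)]
    linarith [ht.2]
  have hfl : ⌊(n + x : ℝ)⌋ = n := by
    rw [Int.floor_eq_iff]
    push_cast
    constructor <;> linarith
  have hfr : Int.fract (n + x : ℝ) = x := by
    rw [Int.fract, hfl]
    push_cast
    ring
  refine ⟨?_, hfl⟩
  unfold tri
  rw [hfr, abs_of_nonpos (by linarith)]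
  have : (2 * (Real.pi + 1)) * x = t + 1 := by
    rw [hx]
    field_simp
  linarith

theorem rho_pi_mem (m : ℤ) : rho (Real.pi * m) ∈ P := by
  refine ⟨rho_mem _, ?_⟩
  rw [rho, ← exp_nat_mul]
  have : ((2 : ℕ) : ℂ) * (((Real.pi * m / 2 ^ 0 : ℝ) : ℂ) * I) = m * (2 * Real.pi * I) := by
    push_cast
    ring
  rw [this, exp_int_mul_two_pi_mul_I]

noncomputable def ray (r : ℝ) : E := Th (rho (Real.pi * ⌊r⌋)) (tri r) (1 / (1 + r))

theorem continuousOn_ray : ContinuousOn ray (Ici 0) := by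
  unfold ray Th
  refine ContinuousOn.prodMk ?_ (ContinuousOn.prodMk ?_ ?_)
  · apply Continuous.continuousOn
    have := continuous_tri
    fun_prop
  · apply Continuous.continuousOn
    apply continuous_pi
    intro n
    apply continuous_mul_floor (A := fun r => ((min (1 + tri r) 1 : ℝ) : ℂ) * rho (max (tri r) 0) n)
      (g := fun m => rho (Real.pi * m) n)
    · have := continuous_tri
      simp only [rho]
      fun_prop
    · intro r hr
      simp only [tri_of_fract_eq_zero hr]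
      norm_num
    · intro m
      exact (norm_rho _ _).le
  · apply ContinuousOn.div continuousOn_const (by fun_prop)
    intro x hx
    have : (0 : ℝ) ≤ x := hx
    linarith

theorem ray_height (r : ℝ) : (ray r).2.2 = 1 / (1 + r) := rfl

theorem height_TP {x : E} (hx : x ∈ TP) : x.2.2 = 0 := by
  obtain ⟨⟨p, t⟩, _, rfl⟩ := hx
  rfl

/-- density of the strands -/
theorem exists_nat_approx {p : ℕ → ℂ} (hp : p ∈ P) (K N : ℕ) :
    ∃ n : ℕ, N ≤ n ∧ ∀ j ≤ K, rho (Real.pi * n) j = p j := by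
  have h1 : p K ^ (2 ^ (K + 1)) = 1 := by
    rw [pow_succ, pow_mul]
    have := Sol_pow hp.1 0 K
    rw [zero_add] at this
    rw [← this, hp.2]
  have hprim := Complex.isPrimitiveRoot_exp (2 ^ (K + 1)) (by positivity)
  obtain ⟨i, _, hi⟩ := hprim.eq_pow_of_pow_eq_one h1
  refine ⟨i + 2 ^ (K + 1) * N, ?_, ?_⟩
  · have h2 : 1 ≤ 2 ^ (K + 1) := Nat.one_le_two_pow
    nlinarith
  · apply Sol_agree (rho_mem _) hp.1
    rw [← hi, ← exp_nat_mul, rho]
    rw [exp_eq_exp_iff_exists_int]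
    refine ⟨N, ?_⟩
    push_cast
    rw [pow_succ]
    field_simp

def HP : Set E := TP ∪ ray '' Ici 0

theorem TP_subset_closure : TP ⊆ closure (ray '' Ici 0) := by
  rintro _ ⟨⟨p, t⟩, ⟨hp, ht⟩, rfl⟩
  simp only at ht
  rw [mem_closure_iff]
  intro O hO hpO
  have hpre : IsOpen ((fun x : (ℕ → ℂ) × ℝ × ℝ => Th x.1 x.2.1 x.2.2) ⁻¹' O) :=
    hO.preimage continuous_Th
  have hmem : ((p, t, (0 : ℝ)) : (ℕ → ℂ) × ℝ × ℝ) ∈
      ((fun x : (ℕ → ℂ) × ℝ × ℝ => Th x.1 x.2.1 x.2.2) ⁻¹' O) := hpO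
  obtain ⟨O1, O2, hO1, hO2, hp1, ht2, hsub⟩ := isOpen_prod_iff.1 hpre p (t, 0) hmem
  obtain ⟨O3, O4, hO3, hO4, ht3, h04, hsub2⟩ := isOpen_prod_iff.1 hO2 t 0 ht2
  obtain ⟨K, hK⟩ := exists_coord hO1 hp1
  obtain ⟨ε, hε, hεO⟩ := Metric.isOpen_iff.1 hO4 0 h04
  obtain ⟨N, hN⟩ := exists_nat_gt (1 / ε)
  obtain ⟨n, hnN, hn⟩ := exists_nat_approx hp K N
  obtain ⟨h1, h2⟩ := tri_nat_add n ht
  set r : ℝ := n + (t + 1) / (2 * (Real.pi + 1)) with hr
  have hx0 : 0 ≤ (t + 1) / (2 * (Real.pi + 1)) :=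
    div_nonneg (by linarith [ht.1]) (by linarith [Real.pi_pos])
  have hrn : (n : ℝ) ≤ r := by linarith
  have hr0 : (0 : ℝ) ≤ r := le_trans (Nat.cast_nonneg n) hrn
  have hray : ray r = Th (rho (Real.pi * n)) t (1 / (1 + r)) := by
    unfold ray
    rw [h1, h2]
    simp
  refine ⟨ray r, ?_, ⟨r, hr0, rfl⟩⟩
  rw [hray]
  have hO1' : rho (Real.pi * n) ∈ O1 := hK _ hn
  have hO4' : 1 / (1 + r) ∈ O4 := by
    apply hεO
    rw [Metric.mem_ball, Real.dist_eq, sub_zero, abs_of_pos (by positivity),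
      div_lt_iff₀ (by positivity)]
    have h3 : (N : ℝ) ≤ n := by exact_mod_cast hnN
    have h4 : 1 / ε < 1 + r := by linarith
    rw [div_lt_iff₀ hε] at h4
    linarith
  have hmem2 : (t, 1 / (1 + r)) ∈ O2 := hsub2 ⟨ht3, hO4'⟩
  exact hsub (show (rho (Real.pi * n), t, 1 / (1 + r)) ∈ O1 ×ˢ O2 from ⟨hO1', hmem2⟩)

theorem HP_height_pos {x : E} (hx : x ∈ HP) (h : 0 < x.2.2) :
    0 ≤ 1 / x.2.2 - 1 ∧ x = ray (1 / x.2.2 - 1) := by
  rcases hx with hx | ⟨r, hr, rfl⟩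
  · rw [height_TP hx] at h
    exact absurd h (lt_irrefl _)
  · have hr' : (0 : ℝ) ≤ r := hr
    rw [ray_height]
    have : 1 / (1 / (1 + r)) - 1 = r := by
      rw [one_div_one_div]; ring
    rw [this]
    exact ⟨hr', rfl⟩

theorem HP_unique {x y : E} (hx : x ∈ HP) (hy : y ∈ HP) (h : 0 < x.2.2) (hxy : x.2.2 = y.2.2) :
    x = y := by
  rw [(HP_height_pos hx h).2, (HP_height_pos hy (hxy ▸ h)).2, hxy]

theorem HP_eq : HP = closure (ray '' Ici 0) := by
  apply Subset.antisymm (union_subset TP_subset_closure subset_closure)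
  -- a decreasing family of compact sets
  set C : ℕ → Set E := fun N => (ray '' Icc 0 (N : ℝ)) ∪
    ((fun x : (ℕ → ℂ) × ℝ × ℝ => Th x.1 x.2.1 x.2.2) ''
      (P ×ˢ Icc (-1 : ℝ) Real.pi ×ˢ Icc (0 : ℝ) (1 / (1 + N)))) with hC
  have hCcl : ∀ N, IsClosed (C N) := by
    intro N
    refine (IsCompact.union ?_ ?_).isClosed
    · exact isCompact_Icc.image_of_continuousOn (continuousOn_ray.mono Icc_subset_Ici_self)
    · exact (isCompact_P.prod (isCompact_Icc.prod isCompact_Icc)).image continuous_Th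
  have hray : ∀ N, ray '' Ici 0 ⊆ C N := by
    rintro N _ ⟨r, hr, rfl⟩
    have hr' : (0 : ℝ) ≤ r := hr
    rcases le_total r N with h | h
    · exact Or.inl ⟨r, ⟨hr', h⟩, rfl⟩
    · right
      refine ⟨(rho (Real.pi * ⌊r⌋), tri r, 1 / (1 + r)), ⟨rho_pi_mem _, tri_mem _, ?_, ?_⟩, rfl⟩
      · show 0 ≤ 1 / (1 + r)
        positivity
      · show 1 / (1 + r) ≤ 1 / (1 + N)
        apply one_div_le_one_div_of_le (by positivity)
        linarith
  intro x hx
  have hxC : ∀ N, x ∈ C N := fun N => closure_minimal (hray N) (hCcl N) hx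
  by_cases h : ∃ N : ℕ, x ∈ ray '' Icc 0 (N : ℝ)
  · obtain ⟨N, r, hr, rfl⟩ := h
    exact Or.inr ⟨r, hr.1, rfl⟩
  · push Not at h
    have h2 : ∀ N : ℕ, x ∈ (fun x : (ℕ → ℂ) × ℝ × ℝ => Th x.1 x.2.1 x.2.2) ''
      (P ×ˢ Icc (-1 : ℝ) Real.pi ×ˢ Icc (0 : ℝ) (1 / (1 + N))) :=
      fun N => (hxC N).resolve_left (h N)
    have h3 : ∀ N : ℕ, 0 ≤ x.2.2 ∧ x.2.2 ≤ 1 / (1 + N) := by
      intro N
      obtain ⟨⟨p, t, u⟩, ⟨_, _, hu⟩, rfl⟩ := h2 N
      exact hu
    have h4 : x.2.2 = 0 := by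
      apply le_antisymm _ (h3 0).1
      by_contra hcon
      push Not at hcon
      obtain ⟨N, hN⟩ := exists_nat_gt (1 / x.2.2)
      have h5 := (h3 N).2
      rw [div_lt_iff₀ hcon] at hN
      rw [le_div_iff₀ (by positivity)] at h5
      nlinarith
    obtain ⟨⟨p, t, u⟩, ⟨hp, ht, _⟩, rfl⟩ := h2 0
    have hu : u = 0 := h4
    subst hu
    exact Or.inl ⟨(p, t), ⟨hp, ht⟩, rfl⟩

theorem isClosed_HP : IsClosed HP := by
  rw [HP_eq]; exact isClosed_closure

theorem isConnected_HP : IsConnected HP := by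
  rw [HP_eq]
  apply IsConnected.closure
  refine ⟨⟨ray 0, 0, mem_Ici.2 le_rfl, rfl⟩, ?_⟩
  exact isPreconnected_Ici.image _ continuousOn_ray

theorem isCompact_HP : IsCompact HP := by
  have h : IsCompact ((fun x : (ℕ → ℂ) × ℝ × ℝ => Th x.1 x.2.1 x.2.2) ''
      (P ×ˢ Icc (-1 : ℝ) Real.pi ×ˢ Icc (0 : ℝ) 1)) :=
    (isCompact_P.prod (isCompact_Icc.prod isCompact_Icc)).image continuous_Th
  apply h.of_isClosed_subset isClosed_HP
  rintro _ (⟨⟨p, t⟩, ⟨hp, ht⟩, rfl⟩ | ⟨r, hr, rfl⟩)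
  · exact ⟨(p, t, 0), ⟨hp, ht, ⟨le_rfl, zero_le_one⟩⟩, rfl⟩
  · have hr' : (0 : ℝ) ≤ r := hr
    refine ⟨(rho (Real.pi * ⌊r⌋), tri r, 1 / (1 + r)), ⟨rho_pi_mem _, tri_mem _, ?_, ?_⟩, rfl⟩
    · show 0 ≤ 1 / (1 + r)
      positivity
    · show 1 / (1 + r) ≤ 1
      rw [div_le_one (by positivity)]
      linarith

theorem HD_HP : HD HP := by
  intro M hM hMc hMconn hnt
  by_cases h : M ⊆ TP
  · exact HD_TP M h hMc hMconn hnt
  obtain ⟨x, hx, hxT⟩ := not_subset.1 h
  have hx0 : 0 < x.2.2 := by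
    rcases hM hx with h1 | ⟨r, hr, rfl⟩
    · exact absurd h1 hxT
    · have hr' : (0 : ℝ) ≤ r := hr
      rw [ray_height]
      positivity
  obtain ⟨y, hy, hyx⟩ := hnt.exists_ne x
  have hne : x.2.2 ≠ y.2.2 := fun h => hyx (HP_unique (hM hx) (hM hy) hx0 h).symm
  have hy0 : 0 ≤ y.2.2 := by
    rcases hM hy with h1 | ⟨r, hr, rfl⟩
    · rw [height_TP h1]
    · have hr' : (0 : ℝ) ≤ r := hr
      rw [ray_height]
      positivity
  have hcont : Continuous (fun x : E => x.2.2) := by fun_prop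
  have hc0 : 0 < (x.2.2 + y.2.2) / 2 := by linarith
  have huniq : ∀ a ∈ M, ∀ b ∈ M, a.2.2 = (x.2.2 + y.2.2) / 2 → b.2.2 = (x.2.2 + y.2.2) / 2 →
      a = b := fun a ha b hb h1 h2 => HP_unique (hM ha) (hM hb) (h1 ▸ hc0) (h1.trans h2.symm)
  rcases lt_or_gt_of_ne hne with h | h
  · exact dec_of_fun hMc hMconn hcont (c := (x.2.2 + y.2.2) / 2) hx (by linarith) hy
      (by linarith) huniq
  · exact dec_of_fun hMc hMconn hcont (c := (x.2.2 + y.2.2) / 2) hy (by linarith) hx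
      (by linarith) huniq

/-! ### The involution, the circle and the space `X` -/

def sg (x : E) : E := (-x.1, x.2.1, x.2.2)

theorem continuous_sg : Continuous sg := by
  unfold sg
  fun_prop

theorem sg_sg (x : E) : sg (sg x) = x := by
  simp [sg]

theorem sg_injective : Function.Injective sg := fun x y h => by
  rw [← sg_sg x, ← sg_sg y, h]

theorem Dec_image {E' F' : Type*} [TopologicalSpace E'] [TopologicalSpace F'] {g : E' → F'}
    {M : Set E'} (hg : ContinuousOn g M) (hinj : InjOn g M) (h : Dec M) : Dec (g '' M) := by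
  obtain ⟨A, B, hA, hB, hAM, hBM, hAc, hAconn, hBc, hBconn, hAB⟩ := h
  refine ⟨g '' A, g '' B, image_mono hA, image_mono hB, ?_, ?_,
    hAc.image_of_continuousOn (hg.mono hA), hAconn.image g (hg.mono hA),
    hBc.image_of_continuousOn (hg.mono hB), hBconn.image g (hg.mono hB), ?_⟩
  · intro h
    exact hAM ((hinj.image_eq_image_iff hA Subset.rfl).1 h)
  · intro h
    exact hBM ((hinj.image_eq_image_iff hB Subset.rfl).1 h)
  · rw [← image_union, hAB]

theorem HD_sg {K : Set E} (hK : HD K) : HD (sg '' K) := by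
  intro M hM hMc hMconn hnt
  have h1 : sg '' M ⊆ K := by
    rintro _ ⟨x, hx, rfl⟩
    obtain ⟨y, hy, rfl⟩ := hM hx
    rwa [sg_sg]
  have h2 := hK (sg '' M) h1 (hMc.image continuous_sg) (hMconn.image _ continuous_sg.continuousOn)
    (hnt.image sg_injective)
  have h3 := Dec_image continuous_sg.continuousOn sg_injective.injOn h2
  rwa [← image_comp, show sg ∘ sg = id from funext sg_sg, image_id] at h3

def circ : Set E := {x | ‖x.1‖ = 1 ∧ x.2.1 = 0 ∧ x.2.2 = 1}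

noncomputable def cp (φ : ℝ) : E := (exp (φ * I), 0, 1)

theorem cp_mem (φ : ℝ) : cp φ ∈ circ := ⟨norm_exp_ofReal_mul_I _, rfl, rfl⟩

theorem continuous_cp : Continuous cp := by
  unfold cp
  fun_prop

theorem cp_arg {x : E} (hx : x ∈ circ) : cp (arg x.1) = x := by
  obtain ⟨h1, h2, h3⟩ := hx
  have h4 := norm_mul_exp_arg_mul_I x.1
  rw [h1, ofReal_one, one_mul] at h4
  unfold cp
  rw [h4, ← h2, ← h3]

theorem isCompact_circ : IsCompact circ := by
  have : circ = cp '' Icc (-Real.pi) Real.pi := by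
    ext x
    constructor
    · intro hx
      exact ⟨arg x.1, ⟨(neg_pi_lt_arg _).le, arg_le_pi _⟩, cp_arg hx⟩
    · rintro ⟨φ, _, rfl⟩
      exact cp_mem φ
  rw [this]
  exact isCompact_Icc.image continuous_cp

/-- arcs of the circle -/
theorem exists_arc {x y : E} (hx : x ∈ circ) (hy : y ∈ circ) :
    ∃ K ⊆ circ, IsCompact K ∧ IsConnected K ∧ HD K ∧ x ∈ K ∧ y ∈ K := by
  have main : ∀ x y : E, x ∈ circ → y ∈ circ → arg x.1 ≤ arg y.1 →
      ∃ K ⊆ circ, IsCompact K ∧ IsConnected K ∧ HD K ∧ x ∈ K ∧ y ∈ K := by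
    intro x y hx hy h
    refine ⟨cp '' Icc (arg x.1) (arg y.1), ?_, isCompact_Icc.image continuous_cp,
      (isConnected_Icc h).image _ continuous_cp.continuousOn, ?_,
      ⟨arg x.1, ⟨le_rfl, h⟩, cp_arg hx⟩, ⟨arg y.1, ⟨h, le_rfl⟩, cp_arg hy⟩⟩
    · rintro _ ⟨φ, _, rfl⟩
      exact cp_mem φ
    · apply HD_arc continuous_cp.continuousOn
      intro a ha b hb hab
      have h1 : exp (a * I) = exp (b * I) := congrArg (fun x : E => x.1) hab
      have ha1 : -Real.pi < a := (neg_pi_lt_arg _).trans_le ha.1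
      have ha2 : a ≤ Real.pi := ha.2.trans (arg_le_pi _)
      have hb1 : -Real.pi < b := (neg_pi_lt_arg _).trans_le hb.1
      have hb2 : b ≤ Real.pi := hb.2.trans (arg_le_pi _)
      have h2 := exp_inj_of_neg_pi_lt_of_le_pi (x := a * I) (y := b * I) (by simpa using ha1)
        (by simpa using ha2) (by simpa using hb1) (by simpa using hb2) h1
      have h3 := congrArg Complex.im h2
      simpa using h3
  rcases le_total (arg x.1) (arg y.1) with h | h
  · exact main x y hx hy h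
  · obtain ⟨K, h1, h2, h3, h4, h5, h6⟩ := main y x hy hx h
    exact ⟨K, h1, h2, h3, h4, h6, h5⟩

def XS : Set E := HP ∪ sg '' HP ∪ circ

theorem HP_sub : HP ⊆ XS := fun _ h => Or.inl (Or.inl h)
theorem sgHP_sub : sg '' HP ⊆ XS := fun _ h => Or.inl (Or.inr h)
theorem circ_sub : circ ⊆ XS := fun _ h => Or.inr h

theorem sg_circ {x : E} (hx : x ∈ circ) : sg x ∈ circ :=
  ⟨by rw [sg, norm_neg]; exact hx.1, hx.2⟩

theorem sg_XS {x : E} (hx : x ∈ XS) : sg x ∈ XS := by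
  rcases hx with (h | ⟨y, h, rfl⟩) | h
  · exact Or.inl (Or.inr ⟨x, h, rfl⟩)
  · rw [sg_sg]; exact Or.inl (Or.inl h)
  · exact Or.inr (sg_circ h)

theorem isCompact_XS : IsCompact XS :=
  (isCompact_HP.union (isCompact_HP.image continuous_sg)).union isCompact_circ

/-- `x` and `y` lie in a hereditarily decomposable subcontinuum of `X`. -/
def J (x y : E) : Prop :=
  ∃ K ⊆ XS, IsCompact K ∧ IsConnected K ∧ HD K ∧ x ∈ K ∧ y ∈ K

theorem J_symm {x y : E} (h : J x y) : J y x := by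
  obtain ⟨K, h1, h2, h3, h4, h5, h6⟩ := h
  exact ⟨K, h1, h2, h3, h4, h6, h5⟩

theorem J_sg {x y : E} (h : J x y) : J (sg x) (sg y) := by
  obtain ⟨K, h1, h2, h3, h4, h5, h6⟩ := h
  refine ⟨sg '' K, ?_, h2.image continuous_sg, h3.image _ continuous_sg.continuousOn, HD_sg h4,
    ⟨x, h5, rfl⟩, ⟨y, h6, rfl⟩⟩
  rintro _ ⟨z, hz, rfl⟩
  exact sg_XS (h1 hz)

theorem ray_zero : ray 0 = ((1, 0, 1) : E) := by
  unfold ray Th
  have h : tri 0 = -1 := tri_of_fract_eq_zero (by simp)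
  rw [h]
  simp only [Prod.mk.injEq]
  refine ⟨by norm_num, ?_, by norm_num⟩
  funext n
  simp

theorem ray_zero_mem_circ : ray 0 ∈ circ := by
  rw [ray_zero]
  exact ⟨norm_one, rfl, rfl⟩

theorem ray_mem {r : ℝ} (hr : 0 ≤ r) : ray r ∈ HP := Or.inr ⟨r, hr, rfl⟩

theorem HP_circ {x : E} (hx : x ∈ HP) (hc : x ∈ circ) : x = ray 0 := by
  apply HP_unique hx (ray_mem le_rfl)
  · rw [hc.2.2]; exact zero_lt_one
  · rw [hc.2.2, ray_height]; norm_num

theorem J_HP_HP {x y : E} (hx : x ∈ HP) (hy : y ∈ HP) : J x y :=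
  ⟨HP, HP_sub, isCompact_HP, isConnected_HP, HD_HP, hx, hy⟩

theorem J_circ_circ {x y : E} (hx : x ∈ circ) (hy : y ∈ circ) : J x y := by
  obtain ⟨K, h1, h2, h3, h4, h5, h6⟩ := exists_arc hx hy
  exact ⟨K, h1.trans circ_sub, h2, h3, h4, h5, h6⟩

theorem J_HP_circ {x y : E} (hx : x ∈ HP) (hy : y ∈ circ) : J x y := by
  obtain ⟨K, h1, h2, h3, h4, h5, h6⟩ := exists_arc ray_zero_mem_circ hy
  refine ⟨HP ∪ K, union_subset HP_sub (h1.trans circ_sub), isCompact_HP.union h2,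
    isConnected_HP.union ⟨ray 0, ray_mem le_rfl, h5⟩ h3, ?_, Or.inl hx, Or.inr h6⟩
  apply HD_HP.union h4 isClosed_HP h2.isClosed
  intro a ha b hb
  rw [HP_circ ha.1 (h1 ha.2), HP_circ hb.1 (h1 hb.2)]

theorem fst_ne_zero_Th (p : ℕ → ℂ) (t u : ℝ) : (Th p t u).1 ≠ 0 := exp_ne_zero _

theorem J_HP_sgray {x : E} (hx : x ∈ HP) {r0 : ℝ} (hr0 : 0 ≤ r0) : J x (sg (ray r0)) := by
  obtain ⟨K, h1, h2, h3, h4, h5, h6⟩ := exists_arc ray_zero_mem_circ (sg_circ ray_zero_mem_circ)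
  set A : Set E := (fun r => sg (ray r)) '' Icc 0 r0 with hA
  have hcA : ContinuousOn (fun r => sg (ray r)) (Icc 0 r0) :=
    continuous_sg.comp_continuousOn (continuousOn_ray.mono Icc_subset_Ici_self)
  have hAcomp : IsCompact A := isCompact_Icc.image_of_continuousOn hcA
  have hAconn : IsConnected A := (isConnected_Icc hr0).image _ hcA
  have hAHD : HD A := by
    apply HD_arc hcA
    intro a ha b hb hab
    have h : 1 / (1 + a) = 1 / (1 + b) := congrArg (fun x : E => x.2.2) hab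
    have ha0 : 0 < 1 + a := by linarith [ha.1]
    have hb0 : 0 < 1 + b := by linarith [hb.1]
    rw [one_div, one_div, inv_inj] at h
    linarith
  have hHK : HD (HP ∪ K) := by
    apply HD_HP.union h4 isClosed_HP h2.isClosed
    intro a ha b hb
    rw [HP_circ ha.1 (h1 ha.2), HP_circ hb.1 (h1 hb.2)]
  have hmeet : ∀ z ∈ (HP ∪ K) ∩ A, z = sg (ray 0) := by
    rintro _ ⟨hz, ⟨r, hr, rfl⟩⟩
    have hr' : (0 : ℝ) ≤ r := hr.1
    have hpos : 0 < (sg (ray r)).2.2 := by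
      show 0 < 1 / (1 + r)
      positivity
    rcases hz with hz | hz
    · exfalso
      have h7 : sg (ray r) = ray r := HP_unique hz (ray_mem hr') hpos rfl
      have h8 : -(ray r).1 = (ray r).1 := congrArg (fun x : E => x.1) h7
      have h9 : (ray r).1 ≠ 0 := fst_ne_zero_Th _ _ _
      apply h9
      have : (2 : ℂ) * (ray r).1 = 0 := by linear_combination -h8
      simpa using this
    · have h7 : 1 / (1 + r) = 1 := (h1 hz).2.2
      rw [div_eq_iff (by positivity)] at h7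
      have : r = 0 := by linarith
      show sg (ray r) = sg (ray 0)
      rw [this]
  refine ⟨(HP ∪ K) ∪ A, ?_, (isCompact_HP.union h2).union hAcomp, ?_, ?_, Or.inl (Or.inl hx),
    Or.inr ⟨r0, ⟨hr0, le_rfl⟩, rfl⟩⟩
  · apply union_subset (union_subset HP_sub (h1.trans circ_sub))
    rintro _ ⟨r, hr, rfl⟩
    exact sgHP_sub ⟨ray r, ray_mem hr.1, rfl⟩
  · exact (isConnected_HP.union ⟨ray 0, ray_mem le_rfl, h5⟩ h3).union
      ⟨sg (ray 0), Or.inr h6, ⟨0, ⟨le_rfl, hr0⟩, rfl⟩⟩ hAconn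
  · apply hHK.union hAHD (isClosed_HP.union h2.isClosed) hAcomp.isClosed
    intro a ha b hb
    rw [hmeet a ha, hmeet b hb]

/-- wedge of the fan with an arc of the opposite fan -/
theorem J_TP_arc {x : E} (hx : x ∈ TP) {q : ℕ → ℂ} (hq : q ∈ P) {a b s : ℝ}
    (hab : Icc a b ⊆ Icc (-1 : ℝ) Real.pi) (h0 : (0 : ℝ) ∈ Icc a b) (hs : s ∈ Icc a b)
    (hmeet : ∀ t ∈ Icc a b, sg (Th q t 0) ∈ TP → t = 0) (hmem : sg (Th q 0 0) ∈ TP) :
    J x (sg (Th q s 0)) := by
  set A : Set E := (fun t => sg (Th q t 0)) '' Icc a b with hA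
  have hcA : ContinuousOn (fun t => sg (Th q t 0)) (Icc a b) := by
    apply Continuous.continuousOn
    exact continuous_sg.comp (cont_Th0.comp (by fun_prop : Continuous (fun s : ℝ => (q, s))))
  have hAcomp : IsCompact A := isCompact_Icc.image_of_continuousOn hcA
  have hAconn : IsConnected A := (isConnected_Icc (h0.1.trans h0.2)).image _ hcA
  have hAHD : HD A := by
    apply HD_arc hcA
    intro c hc d hd hcd
    exact (Th_inj hq.1 hq.1 (hab hc) (hab hd) (sg_injective hcd)).1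
  refine ⟨TP ∪ A, ?_, isCompact_TP.union hAcomp, ?_, ?_, Or.inl hx, Or.inr ⟨s, hs, rfl⟩⟩
  · apply union_subset (subset_union_left.trans HP_sub)
    rintro _ ⟨t, ht, rfl⟩
    exact sgHP_sub ⟨_, Or.inl (Th_mem_TP hq (hab ht)), rfl⟩
  · exact isConnected_TP.union ⟨_, hmem, ⟨0, h0, rfl⟩⟩ hAconn
  · apply HD_TP.union hAHD isCompact_TP.isClosed hAcomp.isClosed
    rintro _ ⟨h1, ⟨t, ht, rfl⟩⟩ _ ⟨h2, ⟨t', ht', rfl⟩⟩
    simp only at h1 h2 ⊢
    rw [hmeet t ht h1, hmeet t' ht' h2]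

theorem mul_rho_mem_P {q : ℕ → ℂ} (hq : q ∈ P) (m : ℤ) : rho (Real.pi * m) * q ∈ P := by
  refine ⟨mul_mem (rho_mem _) hq.1, ?_⟩
  rw [Pi.mul_apply, mul_pow, (rho_pi_mem m).2, hq.2, one_mul]

theorem Th_pi (p : ℕ → ℂ) : Th p Real.pi 0 = (-1, rho Real.pi * p, 0) := by
  unfold Th
  have h := Real.pi_pos
  rw [max_eq_left h.le, min_eq_right (by linarith), exp_pi_mul_I]
  simp only [Prod.mk.injEq, true_and, and_true]
  funext n
  simp

theorem Th_zero (p : ℕ → ℂ) : Th p 0 0 = (1, p, 0) := by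
  unfold Th
  simp [rho]

theorem J_TP_sgTP {x y : E} (hx : x ∈ TP) (hy : y ∈ TP) : J x (sg y) := by
  obtain ⟨⟨q, s⟩, ⟨hq, hs⟩, rfl⟩ := hy
  simp only at hs ⊢
  have hpi := Real.pi_pos
  have hmem : sg (Th q 0 0) ∈ TP := by
    have h1 : rho (Real.pi * ((-1 : ℤ) : ℝ)) * q ∈ P := mul_rho_mem_P hq (-1)
    have h2 : sg (Th q 0 0) = Th (rho (Real.pi * ((-1 : ℤ) : ℝ)) * q) Real.pi 0 := by
      rw [Th_zero, Th_pi]
      simp only [sg, Prod.mk.injEq, and_true, true_and]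
      funext n
      rw [Pi.mul_apply, Pi.mul_apply, ← mul_assoc, ← rho_add]
      have : Real.pi + Real.pi * ((-1 : ℤ) : ℝ) = 0 := by push_cast; ring
      rw [this, rho_zero, one_mul]
    rw [h2]
    exact Th_mem_TP h1 ⟨by linarith, le_rfl⟩
  rcases le_total s 0 with hs0 | hs0
  · refine J_TP_arc hx hq (a := s) (b := 0) (Icc_subset_Icc hs.1 hpi.le) ⟨hs0, le_rfl⟩
      ⟨le_rfl, hs0⟩ ?_ hmem
    rintro t ht ⟨⟨p, t'⟩, ⟨hp, ht'⟩, he⟩
    -- first coordinate is -1 so t' = pi, then norm of the second coordinate is 1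
    have h1 : (Th q t 0).1 = 1 := by
      show exp ((max t 0 : ℝ) * I) = 1
      rw [max_eq_right ht.2]
      simp
    have h2 : exp ((max t' 0 : ℝ) * I) = -1 := by
      have h3 : (Th p t' 0).1 = -(Th q t 0).1 := congrArg (fun x : E => x.1) he
      rw [h1] at h3
      exact h3
    have h4 : max t' 0 = Real.pi := by
      have h5 : exp ((max t' 0 : ℝ) * I) = exp ((Real.pi : ℝ) * I) := by
        rw [h2, exp_pi_mul_I]
      have h6 := exp_inj_of_neg_pi_lt_of_le_pi (x := (max t' 0 : ℝ) * I) (y := (Real.pi : ℝ) * I)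
        (by
          simp only [mul_im, ofReal_re, I_im, mul_one, ofReal_im, I_re, mul_zero, add_zero]
          exact lt_of_lt_of_le (by linarith) (le_max_right _ _))
        (by
          simp only [mul_im, ofReal_re, I_im, mul_one, ofReal_im, I_re, mul_zero, add_zero]
          exact max_le ht'.2 hpi.le)
        (by
          simp only [mul_im, ofReal_re, I_im, mul_one, ofReal_im, I_re, mul_zero, add_zero]
          linarith)
        (by simp) h5
      have h7 := congrArg Complex.im h6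
      simpa using h7
    have h8 : t' = Real.pi := by
      rcases le_total t' 0 with h | h
      · rw [max_eq_right h] at h4
        linarith
      · rwa [max_eq_left h] at h4
    have h9' : (Th p t' 0).2.1 0 = (sg (Th q t 0)).2.1 0 := congrArg (fun x : E => x.2.1 0) he
    have h9 : (Th p t' 0).2.1 0 = (Th q t 0).2.1 0 := h9'
    have h10 : ‖(Th p t' 0).2.1 0‖ = 1 := by
      rw [h8, Th_pi]
      simp only [Pi.mul_apply, norm_mul, norm_rho, norm_Sol hp.1, mul_one]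
    have h11 : ‖(Th q t 0).2.1 0‖ = 1 + t := by
      show ‖((min (1 + t) 1 : ℝ) : ℂ) * rho (max t 0) 0 * q 0‖ = 1 + t
      rw [norm_mul, norm_mul, norm_rho, norm_Sol hq.1, mul_one, mul_one, norm_real,
        Real.norm_eq_abs, min_eq_left (by linarith [ht.2]), abs_of_nonneg]
      linarith [ht.1, hs.1]
    rw [h9, h11] at h10
    linarith
  · by_cases hspi : s = Real.pi
    · -- then sg (Th q pi 0) is in TP
      have h1 : sg (Th q s 0) = Th (rho (Real.pi * ((1 : ℤ) : ℝ)) * q) 0 0 := by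
        rw [hspi, Th_zero, Th_pi]
        simp [sg]
      rw [h1]
      apply J_HP_HP (Or.inl hx) (Or.inl _)
      exact Th_mem_TP (mul_rho_mem_P hq 1) ⟨by linarith, hpi.le⟩
    · have hslt : s < Real.pi := lt_of_le_of_ne hs.2 hspi
      refine J_TP_arc hx hq (a := 0) (b := s) (Icc_subset_Icc (by linarith) hs.2) ⟨le_rfl, hs0⟩
        ⟨hs0, le_rfl⟩ ?_ hmem
      rintro t ht ⟨⟨p, t'⟩, ⟨hp, ht'⟩, he⟩
      have h3 : (Th p t' 0).1 = -(Th q t 0).1 := congrArg (fun x : E => x.1) he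
      have h4 : (exp ((max t' 0 : ℝ) * I)).im = -(exp ((max t 0 : ℝ) * I)).im := by
        have := congrArg Complex.im h3
        rw [neg_im] at this
        exact this
      rw [exp_ofReal_mul_I_im, exp_ofReal_mul_I_im, max_eq_left ht.1] at h4
      have h5 : 0 ≤ Real.sin (max t' 0) :=
        Real.sin_nonneg_of_nonneg_of_le_pi (le_max_right _ _) (max_le ht'.2 hpi.le)
      by_contra hne
      have ht0 : 0 < t := lt_of_le_of_ne ht.1 (Ne.symm hne)
      have h6 : 0 < Real.sin t := Real.sin_pos_of_pos_of_lt_pi ht0 (ht.2.trans_lt hslt)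
      linarith

theorem J_all {x y : E} (hx : x ∈ XS) (hy : y ∈ XS) : J x y := by
  have hHsH : ∀ x ∈ HP, ∀ y ∈ HP, J x (sg y) := by
    rintro x hx y (hy | ⟨r, hr, rfl⟩)
    · rcases hx with hx | ⟨r, hr, rfl⟩
      · exact J_TP_sgTP hx hy
      · have h := J_sg (J_HP_sgray (Or.inl hy : y ∈ HP) hr)
        rw [sg_sg] at h
        exact J_symm h
    · exact J_HP_sgray hx hr
  rcases hx with (hx | ⟨x, hx, rfl⟩) | hx <;> rcases hy with (hy | ⟨y, hy, rfl⟩) | hy
  · exact J_HP_HP hx hy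
  · exact hHsH x hx y hy
  · exact J_HP_circ hx hy
  · exact J_symm (hHsH y hy x hx)
  · exact J_sg (J_HP_HP hx hy)
  · have h := J_sg (J_HP_circ hx (sg_circ hy))
    rwa [sg_sg] at h
  · exact J_symm (J_HP_circ hy hx)
  · have h := J_sg (J_HP_circ hy (sg_circ hx))
    rw [sg_sg] at h
    exact J_symm h
  · exact J_circ_circ hx hy

/-! ### The double covering -/

def FF (x : E) : E := (x.1 ^ 2, x.2.1, x.2.2)

theorem continuous_FF : Continuous FF := by
  unfold FF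
  fun_prop

theorem FF_sg (x : E) : FF (sg x) = FF x := by simp [FF, sg]

theorem FF_eq {x y : E} (h : FF x = FF y) : x = y ∨ x = sg y := by
  have h1 : x.1 ^ 2 = y.1 ^ 2 := congrArg (fun x : E => x.1) h
  have h2' : (FF x).2.1 = (FF y).2.1 := by rw [h]
  have h3' : (FF x).2.2 = (FF y).2.2 := by rw [h]
  have h2 : x.2.1 = y.2.1 := h2'
  have h3 : x.2.2 = y.2.2 := h3'
  rcases sq_eq_sq_iff_eq_or_eq_neg.1 h1 with h4 | h4
  · left
    exact Prod.ext h4 (Prod.ext h2 h3)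
  · right
    exact Prod.ext h4 (Prod.ext h2 h3)

def YS : Set E := FF '' XS

def fm (x : XS) : YS := ⟨FF x, mem_image_of_mem _ x.2⟩

theorem continuous_fm : Continuous fm :=
  (continuous_FF.comp continuous_subtype_val).subtype_mk _

theorem surjective_fm : Function.Surjective fm := by
  rintro ⟨_, ⟨x, hx, rfl⟩⟩
  exact ⟨⟨x, hx⟩, rfl⟩

instance : CompactSpace XS := isCompact_iff_compactSpace.1 isCompact_XS

theorem isCompact_YS : IsCompact YS := isCompact_XS.image continuous_FF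

instance : CompactSpace YS := isCompact_iff_compactSpace.1 isCompact_YS

def sgX (x : XS) : XS := ⟨sg x, sg_XS x.2⟩

theorem continuous_sgX : Continuous sgX :=
  (continuous_sg.comp continuous_subtype_val).subtype_mk _

theorem fst_ne_zero {x : E} (hx : x ∈ XS) : x.1 ≠ 0 := by
  have hH : ∀ y ∈ HP, y.1 ≠ 0 := by
    rintro _ (⟨⟨p, t⟩, _, rfl⟩ | ⟨r, _, rfl⟩)
    · exact fst_ne_zero_Th _ _ _
    · exact fst_ne_zero_Th _ _ _
  rcases hx with (hx | ⟨y, hy, rfl⟩) | hx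
  · exact hH x hx
  · exact neg_ne_zero.2 (hH y hy)
  · intro h0
    have := hx.1
    rw [h0, norm_zero] at this
    exact zero_ne_one this

theorem isOpenMap_fm : IsOpenMap fm := by
  intro U hU
  have hq : IsQuotientMap fm := continuous_fm.isClosedMap.isQuotientMap continuous_fm surjective_fm
  rw [← hq.isOpen_preimage]
  have : fm ⁻¹' (fm '' U) = U ∪ sgX ⁻¹' U := by
    ext x
    constructor
    · rintro ⟨y, hy, hyx⟩
      have h1 : FF y = FF x := congrArg Subtype.val hyx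
      rcases FF_eq h1 with h | h
      · have : y = x := Subtype.ext h
        rw [this] at hy
        exact Or.inl hy
      · have : y = sgX x := Subtype.ext h
        rw [this] at hy
        exact Or.inr hy
    · rintro (hx | hx)
      · exact ⟨x, hx, rfl⟩
      · exact ⟨sgX x, hx, Subtype.ext (FF_sg x)⟩
  rw [this]
  exact hU.union (hU.preimage continuous_sgX)

theorem isLocalHomeomorph_fm : IsLocalHomeomorph fm := by
  rw [isLocalHomeomorph_iff_isOpenEmbedding_restrict]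
  intro x
  set U : Set XS := {y | 0 < (y.1.1 * (starRingEnd ℂ) x.1.1).re} with hU
  have hUo : IsOpen U := by
    apply isOpen_lt continuous_const
    fun_prop
  have hxU : x ∈ U := by
    show 0 < (x.1.1 * (starRingEnd ℂ) x.1.1).re
    rw [mul_conj, ofReal_re]
    exact normSq_pos.2 (fst_ne_zero x.2)
  refine ⟨U, hUo.mem_nhds hxU, ?_⟩
  apply IsOpenEmbedding.of_continuous_injective_isOpenMap
  · exact continuous_fm.comp continuous_subtype_val
  · rintro ⟨a, ha⟩ ⟨b, hb⟩ hab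
    have h1 : FF a = FF b := congrArg Subtype.val hab
    rcases FF_eq h1 with h | h
    · exact Subtype.ext (Subtype.ext h)
    · exfalso
      have h2 : a.1.1 = - b.1.1 := congrArg (fun x : E => x.1) h
      have ha' : 0 < (a.1.1 * (starRingEnd ℂ) x.1.1).re := ha
      have hb' : 0 < (b.1.1 * (starRingEnd ℂ) x.1.1).re := hb
      rw [h2, neg_mul, neg_re] at ha'
      linarith
  · exact isOpenMap_fm.domRestrict hUo

/-! ### Transfer to subtypes -/

theorem isCompact_val_iff {Z : Set E} {K : Set Z} : IsCompact K ↔ IsCompact (Subtype.val '' K) :=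
  Subtype.isCompact_iff

theorem isConnected_val_iff {Z : Set E} {K : Set Z} :
    IsConnected (Subtype.val '' K) ↔ IsConnected K := by
  constructor
  · rintro ⟨h1, h2⟩
    exact ⟨h1.of_image, IsInducing.subtypeVal.isPreconnected_image.1 h2⟩
  · rintro ⟨h1, h2⟩
    exact ⟨h1.image _, IsInducing.subtypeVal.isPreconnected_image.2 h2⟩

theorem HD_subtype {Z : Set E} {K : Set E} (hK : HD K) :
    HD (Subtype.val ⁻¹' K : Set Z) := by
  intro M hM hMc hMconn hnt
  have h1 : Subtype.val '' M ⊆ K := by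
    rintro _ ⟨x, hx, rfl⟩
    exact hM hx
  obtain ⟨A, B, hA, hB, hAM, hBM, hAc, hAconn, hBc, hBconn, hAB⟩ := hK _ h1
    (isCompact_val_iff.1 hMc) (isConnected_val_iff.2 hMconn) (hnt.image Subtype.val_injective)
  have hv : ∀ A : Set E, A ⊆ Subtype.val '' M → Subtype.val '' (Subtype.val ⁻¹' A : Set Z) = A := by
    intro A hA
    rw [Subtype.image_preimage_coe, inter_eq_right]
    intro x hx
    obtain ⟨y, _, rfl⟩ := hA hx
    exact y.2
  refine ⟨Subtype.val ⁻¹' A, Subtype.val ⁻¹' B, ?_, ?_, ?_, ?_, ?_, ?_, ?_, ?_, ?_⟩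
  · intro x hx
    obtain ⟨y, hy, hyx⟩ := hA hx
    rwa [Subtype.val_injective hyx] at hy
  · intro x hx
    obtain ⟨y, hy, hyx⟩ := hB hx
    rwa [Subtype.val_injective hyx] at hy
  · intro h
    apply hAM
    rw [← h, hv A hA]
  · intro h
    apply hBM
    rw [← h, hv B hB]
  · rw [isCompact_val_iff, hv A hA]; exact hAc
  · rw [← isConnected_val_iff, hv A hA]; exact hAconn
  · rw [isCompact_val_iff, hv B hB]; exact hBc
  · rw [← isConnected_val_iff, hv B hB]; exact hBconn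
  · rw [← preimage_union, hAB, preimage_image_eq _ Subtype.val_injective]

/-- the space `X` is delta-connected -/
theorem delta_X (x y : XS) : ∃ K : Set XS, IsCompact K ∧ IsConnected K ∧ x ∈ K ∧ y ∈ K ∧
    (∀ L : Set XS, L ⊆ K → IsCompact L → IsConnected L → x ∈ L → y ∈ L → L = K) ∧ HD K := by
  obtain ⟨K, h1, h2, h3, h4, h5, h6⟩ := J_all x.2 y.2
  have hv : Subtype.val '' (Subtype.val ⁻¹' K : Set XS) = K := by
    rw [Subtype.image_preimage_coe, inter_eq_right]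
    exact h1
  have hc : IsCompact (Subtype.val ⁻¹' K : Set XS) := by
    rw [isCompact_val_iff, hv]; exact h2
  have hconn : IsConnected (Subtype.val ⁻¹' K : Set XS) := by
    rw [← isConnected_val_iff, hv]; exact h3
  obtain ⟨L, hL1, hL2, hL3, hL4, hL5, hL6⟩ := exists_irreducible hc hconn (x := x) (y := y) h5 h6
  exact ⟨L, hL2, hL3, hL4, hL5, hL6, (HD_subtype h4).mono hL1⟩

instance : ConnectedSpace XS := by
  have hne : Nonempty XS := ⟨⟨ray 0, circ_sub ray_zero_mem_circ⟩⟩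
  have : PreconnectedSpace XS := ⟨isPreconnected_of_forall hne.some (fun y _ => by
    obtain ⟨K, h1, h2, h3, h4, _⟩ := delta_X hne.some y
    exact ⟨K, subset_univ _, h3, h4, h2.isPreconnected⟩)⟩
  exact ⟨hne⟩

/-! ### The image is not delta-connected -/

def LY : Set E := (fun w : ℕ → ℂ => (((w 0) ^ 2, w, 0) : E)) '' Sol

theorem continuous_LYmap : Continuous (fun w : ℕ → ℂ => (((w 0) ^ 2, w, 0) : E)) := by
  fun_prop

theorem not_Dec_LY : ¬ Dec LY := by
  intro h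
  have h1 : Dec ((fun x : E => x.2.1) '' LY) := by
    apply Dec_image _ _ h
    · apply Continuous.continuousOn
      fun_prop
    · rintro _ ⟨v, _, rfl⟩ _ ⟨w, _, rfl⟩ h
      have : v = w := h
      rw [this]
  have h2 : (fun x : E => x.2.1) '' LY = Sol := by
    rw [LY, ← image_comp]
    exact image_id _
  rw [h2] at h1
  exact not_Dec_Sol h1

theorem LY_sub : LY ⊆ FF '' TP := by
  rintro _ ⟨w, hw, rfl⟩
  have hn : ‖w 0‖ = 1 := norm_Sol hw 0
  obtain ⟨t, ht0, htpi, ht⟩ : ∃ t : ℝ, 0 ≤ t ∧ t ≤ Real.pi ∧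
      (exp (t * I) = w 0 ∨ exp (t * I) = - w 0) := by
    rcases le_total 0 (w 0).im with h | h
    · refine ⟨arg (w 0), arg_nonneg_iff.2 h, arg_le_pi _, Or.inl ?_⟩
      have := norm_mul_exp_arg_mul_I (w 0)
      rwa [hn, ofReal_one, one_mul] at this
    · refine ⟨arg (- w 0), arg_nonneg_iff.2 (by rw [neg_im]; linarith), arg_le_pi _, Or.inr ?_⟩
      have := norm_mul_exp_arg_mul_I (- w 0)
      rwa [norm_neg, hn, ofReal_one, one_mul] at this
  have hsq : exp (t * I) ^ 2 = w 0 ^ 2 := by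
    rcases ht with h | h
    · rw [h]
    · rw [h, neg_sq]
  have hrho : rho (-t) 0 * exp (t * I) = 1 := by
    rw [rho, ← exp_add]
    have : (((-t / 2 ^ 0 : ℝ) : ℂ) * I + t * I) = 0 := by push_cast; ring
    rw [this, exp_zero]
  have hp : rho (-t) * w ∈ P := by
    refine ⟨mul_mem (rho_mem _) hw, ?_⟩
    rw [Pi.mul_apply, mul_pow, ← hsq, ← mul_pow, hrho, one_pow]
  refine ⟨Th (rho (-t) * w) t 0, Th_mem_TP hp ⟨by linarith, htpi⟩, ?_⟩
  unfold FF Th
  rw [max_eq_left ht0, min_eq_right (by linarith)]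
  simp only [Prod.mk.injEq, and_true]
  refine ⟨hsq, ?_⟩
  funext n
  rw [Pi.mul_apply, ofReal_one, one_mul, ← mul_assoc, ← rho_add, add_neg_cancel, rho_zero, one_mul]

theorem not_delta_Y : ¬ ∃ K : Set YS, IsCompact K ∧ IsConnected K ∧ fm ⟨ray 0, circ_sub
    ray_zero_mem_circ⟩ ∈ K ∧ fm ⟨Th (fun _ => 1) (-1) 0, HP_sub (Or.inl (Th_mem_TP one_mem_P
      neg_one_mem))⟩ ∈ K ∧ HD K := by
  rintro ⟨K, hKc, hKconn, h0, h1, hHD⟩
  set K1 : Set E := Subtype.val '' K with hK1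
  have hK1c : IsCompact K1 := isCompact_val_iff.1 hKc
  have hK1conn : IsConnected K1 := isConnected_val_iff.2 hKconn
  have hK1Y : K1 ⊆ YS := by
    rintro _ ⟨x, _, rfl⟩
    exact x.2
  have hy0 : FF (ray 0) ∈ K1 := ⟨_, h0, rfl⟩
  have hy1 : FF (Th (fun _ => 1) (-1) 0) ∈ K1 := ⟨_, h1, rfl⟩
  have hray : ∀ r : ℝ, 0 ≤ r → FF (ray r) ∈ K1 := by
    intro r hr
    rcases hr.eq_or_lt with rfl | hr'
    · exact hy0
    have hcont : Continuous (fun x : E => x.2.2) := by fun_prop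
    have hord : OrdConnected ((fun x : E => x.2.2) '' K1) :=
      (hK1conn.isPreconnected.image _ hcont.continuousOn).ordConnected
    have h2 : (0 : ℝ) ∈ (fun x : E => x.2.2) '' K1 := ⟨_, hy1, rfl⟩
    have h3 : (1 : ℝ) ∈ (fun x : E => x.2.2) '' K1 := ⟨_, hy0, by
      show 1 / (1 + (0 : ℝ)) = 1
      norm_num⟩
    have hc0 : 0 < 1 / (1 + r) := by positivity
    have hc1 : 1 / (1 + r) < 1 := by
      rw [div_lt_one (by linarith)]
      linarith
    obtain ⟨z, hz, hzc⟩ := hord.out h2 h3 ⟨hc0.le, hc1.le⟩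
    simp only at hzc
    obtain ⟨x, hx, rfl⟩ := hK1Y hz
    have hxc : x.2.2 = 1 / (1 + r) := hzc
    rcases hx with (hx | ⟨x, hx, rfl⟩) | hx
    · have : x = ray r := HP_unique hx (ray_mem hr) (by rw [hxc]; exact hc0) hxc
      rwa [this] at hz
    · have hxc' : x.2.2 = 1 / (1 + r) := hxc
      have : x = ray r := HP_unique hx (ray_mem hr) (by rw [hxc']; exact hc0) hxc'
      rwa [this, FF_sg] at hz
    · have := hx.2.2
      rw [hxc] at this
      linarith
  have hTP : FF '' TP ⊆ K1 := by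
    rintro _ ⟨x, hx, rfl⟩
    have h2 : x ∈ closure (ray '' Ici 0) := TP_subset_closure hx
    have h3 : closure (ray '' Ici 0) ⊆ FF ⁻¹' K1 := by
      apply closure_minimal _ (hK1c.isClosed.preimage continuous_FF)
      rintro _ ⟨r, hr, rfl⟩
      exact hray r hr
    exact h3 h2
  have hLY : LY ⊆ K1 := LY_sub.trans hTP
  have hv : Subtype.val '' (Subtype.val ⁻¹' LY : Set YS) = LY := by
    rw [Subtype.image_preimage_coe, inter_eq_right]
    exact hLY.trans hK1Y
  have hsub : (Subtype.val ⁻¹' LY : Set YS) ⊆ K := by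
    intro x hx
    obtain ⟨y, hy, hyx⟩ := hLY hx
    rwa [Subtype.val_injective hyx] at hy
  have hLYc : IsCompact LY := isCompact_Sol.image continuous_LYmap
  have hLYconn : IsConnected LY := isConnected_Sol.image _ continuous_LYmap.continuousOn
  have hd := hHD _ hsub (by rw [isCompact_val_iff, hv]; exact hLYc)
    (by rw [← isConnected_val_iff, hv]; exact hLYconn) (by
      have m0 : (((rho 0 0) ^ 2, rho 0, 0) : E) ∈ LY := ⟨rho 0, rho_mem 0, rfl⟩
      have m1 : (((rho Real.pi 0) ^ 2, rho Real.pi, 0) : E) ∈ LY :=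
        ⟨rho Real.pi, rho_mem _, rfl⟩
      refine ⟨⟨_, hK1Y (hLY m0)⟩, m0, ⟨_, hK1Y (hLY m1)⟩, m1, ?_⟩
      intro h
      have h2 : rho 0 0 = rho Real.pi 0 := congrArg (fun x : YS => x.1.2.1 0) h
      have h3 : rho Real.pi 0 = -1 := by
        have := rho_neg_one 0
        simpa using this
      rw [rho_zero, h3] at h2
      norm_num at h2)
  have hd2 := Dec_image continuous_subtype_val.continuousOn Subtype.val_injective.injOn hd
  rw [hv] at hd2
  exact not_Dec_LY hd2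

end Pool.Agent.Helper300.FanCover
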