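import Mathlib

open Set Topology TopologicalSpace

namespace Pool.Agent.Helper300.JonesT

variable {S : Type*} [TopologicalSpace S]

/-- Jones's set function: the points all of whose continuum neighbourhoods meet `A`. -/
def T (A : Set S) : Set S :=
  {p | ∀ W : Set S, IsClosed W → IsConnected W → W ∈ 𝓝 p → (W ∩ A).Nonempty}

theorem subset_T (A : Set S) : A ⊆ T A := fun _ hp _ _ _ hW => ⟨_, mem_of_mem_nhds hW, hp⟩

theorem self_mem_T (x : S) : x ∈ T ({x} : Set S) := subset_T _ rfl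

theorem T_mono {A B : Set S} (h : A ⊆ B) : T A ⊆ T B := fun _ hp W h1 h2 h3 =>
  (hp W h1 h2 h3).mono (inter_subset_inter_right _ h)

theorem notMem_T {A : Set S} {p : S} :
    p ∉ T A ↔ ∃ W : Set S, IsClosed W ∧ IsConnected W ∧ W ∈ 𝓝 p ∧ Disjoint W A := by
  simp only [T, mem_ofPred_eq]
  push Not
  constructor
  · rintro ⟨W, h1, h2, h3, h4⟩
    exact ⟨W, h1, h2, h3, disjoint_iff_inter_eq_empty.2 h4⟩
  · rintro ⟨W, h1, h2, h3, h4⟩
    exact ⟨W, h1, h2, h3, disjoint_iff_inter_eq_empty.1 h4⟩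

theorem isClosed_T (A : Set S) : IsClosed (T A) := by
  rw [← isOpen_compl_iff, isOpen_iff_mem_nhds]
  intro p hp
  obtain ⟨W, h1, h2, h3, h4⟩ := notMem_T.1 hp
  filter_upwards [interior_mem_nhds.2 h3] with q hq
  exact notMem_T.2 ⟨W, h1, h2, mem_interior_iff_mem_nhds.1 hq, h4⟩

theorem T_empty [ConnectedSpace S] : T (∅ : Set S) = ∅ := by
  rw [eq_empty_iff_forall_notMem]
  intro p
  exact notMem_T.2 ⟨univ, isClosed_univ, isConnected_univ, Filter.univ_mem, disjoint_empty _⟩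

/-- Finitely many closed connected sets covering a neighbourhood of `p`. -/
theorem finite_cover {C : Set (Set S)} (hfin : C.Finite) (hcl : ∀ c ∈ C, IsClosed c)
    (hc : ∀ c ∈ C, IsPreconnected c) {p : S} (hp : ⋃₀ C ∈ 𝓝 p) :
    ∃ K, IsClosed K ∧ IsConnected K ∧ K ∈ 𝓝 p ∧ K ⊆ ⋃₀ C := by
  refine ⟨⋃₀ {c ∈ C | p ∈ c}, ?_, ⟨?_, ?_⟩, ?_, ?_⟩
  · rw [sUnion_eq_biUnion]
    exact (hfin.subset (sep_subset _ _)).isClosed_biUnion (fun c hc' => hcl c hc'.1)
  · obtain ⟨c, hc1, hc2⟩ := mem_of_mem_nhds hp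
    exact ⟨p, c, ⟨hc1, hc2⟩, hc2⟩
  · exact isPreconnected_sUnion p _ (fun c hc' => hc'.2) (fun c hc' => hc c hc'.1)
  · have h1 : IsClosed (⋃₀ {c ∈ C | p ∉ c}) := by
      rw [sUnion_eq_biUnion]
      exact (hfin.subset (sep_subset _ _)).isClosed_biUnion (fun c hc' => hcl c hc'.1)
    have h2 : (⋃₀ {c ∈ C | p ∉ c})ᶜ ∈ 𝓝 p := by
      apply h1.isOpen_compl.mem_nhds
      rintro ⟨c, hc1, hc2⟩
      exact hc1.2 hc2
    filter_upwards [hp, h2] with q hq1 hq2
    obtain ⟨c, hc1, hc2⟩ := hq1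
    by_cases hpc : p ∈ c
    · exact ⟨c, ⟨hc1, hpc⟩, hc2⟩
    · exact absurd ⟨c, ⟨hc1, hpc⟩, hc2⟩ hq2
  · exact sUnion_subset_sUnion (sep_subset _ _)

theorem isClosed_connectedComponentIn {A : Set S} (hA : IsClosed A) (x : S) :
    IsClosed (connectedComponentIn A x) := by
  by_cases hx : x ∈ A
  · have h : closure (connectedComponentIn A x) ⊆ connectedComponentIn A x := by
      apply IsPreconnected.subset_connectedComponentIn
      · exact isPreconnected_connectedComponentIn.closure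
      · exact subset_closure (mem_connectedComponentIn hx)
      · exact closure_minimal (connectedComponentIn_subset _ _) hA
    exact isClosed_of_closure_subset h
  · rw [connectedComponentIn_eq_empty hx]; exact isClosed_empty

/-- Separation of a component of a closed set inside an open set by a relatively clopen piece. -/
theorem exists_clopen [CompactSpace S] [T2Space S] {A : Set S} (hA : IsClosed A) {w : S}
    (hw : w ∈ A) {U : Set S} (hU : IsOpen U) (h : connectedComponentIn A w ⊆ U) :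
    ∃ P Q : Set S, IsClosed P ∧ IsClosed Q ∧ Disjoint P Q ∧ P ∪ Q = A ∧ w ∈ P ∧ P ⊆ U := by
  have : CompactSpace A := isCompact_iff_compactSpace.1 hA.isCompact
  have key := connectedComponent_eq_iInter_isClopen (X := A) ⟨w, hw⟩
  have hne : Nonempty {s : Set A // IsClopen s ∧ (⟨w, hw⟩ : A) ∈ s} :=
    ⟨⟨univ, isClopen_univ, mem_univ _⟩⟩
  obtain ⟨⟨s, hs1, hs2⟩, hs3⟩ := exists_subset_nhds_of_compactSpace
    (V := fun s : {s : Set A // IsClopen s ∧ (⟨w, hw⟩ : A) ∈ s} => s.1)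
    (by
      intro s t
      exact ⟨⟨s.1 ∩ t.1, s.2.1.inter t.2.1, s.2.2, t.2.2⟩, inter_subset_left, inter_subset_right⟩)
    (fun s => s.2.1.1) (U := Subtype.val ⁻¹' U)
    (by
      intro x hx
      rw [← key] at hx
      apply (hU.preimage continuous_subtype_val).mem_nhds
      apply h
      rw [connectedComponentIn_eq_image hw]
      exact ⟨x, hx, rfl⟩)
  refine ⟨Subtype.val '' s, Subtype.val '' sᶜ, ?_, ?_, ?_, ?_, ?_, ?_⟩
  · exact hA.isClosedEmbedding_subtypeVal.isClosedMap _ hs1.1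
  · exact hA.isClosedEmbedding_subtypeVal.isClosedMap _ hs1.compl.1
  · exact (disjoint_image_iff Subtype.val_injective).2 disjoint_compl_right
  · rw [← image_union, union_compl_self, image_univ, Subtype.range_val]
  · exact ⟨⟨w, hw⟩, hs2, rfl⟩
  · rintro _ ⟨x, hx, rfl⟩
    exact hs3 hx

/-- Boundary bumping. -/
theorem boundary_bump [CompactSpace S] [T2Space S] {X V : Set S} (hX : IsClosed X)
    (hXc : IsPreconnected X) (hV : IsOpen V) (hXV : (X ∩ V).Nonempty) {y : S} (hy : y ∈ X \ V) :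
    ∃ C ⊆ X \ V, IsPreconnected C ∧ y ∈ C ∧ (C ∩ closure V).Nonempty := by
  refine ⟨connectedComponentIn (X \ V) y, connectedComponentIn_subset _ _,
    isPreconnected_connectedComponentIn, mem_connectedComponentIn hy, ?_⟩
  by_contra hcon
  rw [not_nonempty_iff_eq_empty, ← disjoint_iff_inter_eq_empty] at hcon
  obtain ⟨P, Q, hP, hQ, hPQ, hPQu, hyP, hPU⟩ := exists_clopen (hX.sdiff hV) hy
    (isClosed_closure (s := V)).isOpen_compl hcon.subset_compl_right
  -- X is the union of the disjoint closed sets P and Q together with X ∩ closure V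
  have h1 : X ⊆ P ∪ (Q ∪ closure V) := by
    intro x hx
    by_cases hxV : x ∈ V
    · exact Or.inr (Or.inr (subset_closure hxV))
    · have : x ∈ P ∪ Q := by rw [hPQu]; exact ⟨hx, hxV⟩
      rcases this with h | h
      · exact Or.inl h
      · exact Or.inr (Or.inl h)
  have h2 := isPreconnected_closed_iff.1 hXc P (Q ∪ closure V) hP (hQ.union isClosed_closure) h1
    ⟨y, hy.1, hyP⟩ (by
      obtain ⟨x, hx1, hx2⟩ := hXV
      exact ⟨x, hx1, Or.inr (subset_closure hx2)⟩)
  obtain ⟨x, _, hxP, hxQ⟩ := h2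
  rcases hxQ with h | h
  · exact disjoint_left.1 hPQ hxP h
  · exact hPU hxP h


section Compact

variable [CompactSpace S] [T2Space S]

/-- Key lemma: if the frontier of the open set `V` misses `T A`, then a continuum neighbourhood
of `w` outside `closure V` that meets `A` only inside `V` shows that `w` is not in `T A`. -/
theorem notMem_T_of_frontier {A V W : Set S} {w : S} (hV : IsOpen V)
    (hfr : ∀ y ∈ frontier V, y ∉ T A) (hWcl : IsClosed W) (hWc : IsConnected W) (hWn : W ∈ 𝓝 w)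
    (hw : w ∉ closure V) (hWA : W ∩ A ⊆ V) : w ∉ T A := by
  by_cases hWV : (W ∩ V).Nonempty
  swap
  · refine notMem_T.2 ⟨W, hWcl, hWc, hWn, ?_⟩
    rw [disjoint_left]
    intro x hx hxA
    exact hWV ⟨x, hx, hWA ⟨hx, hxA⟩⟩
  have hex : ∀ y : S, ∃ K : Set S, y ∈ frontier V → IsClosed K ∧ IsConnected K ∧ K ∈ 𝓝 y ∧
      Disjoint K A := by
    intro y
    by_cases hy : y ∈ frontier V
    · obtain ⟨K, hK⟩ := notMem_T.1 (hfr y hy)
      exact ⟨K, fun _ => hK⟩
    · exact ⟨∅, fun h => absurd h hy⟩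
  choose K hK using hex
  obtain ⟨t, ht1, ht2⟩ := (isClosed_frontier (s := V)).isCompact.elim_nhds_subcover K
    (fun y hy => (hK y hy).2.2.1)
  set Y : Set S := (W \ V) ∪ ⋃ y ∈ t, K y with hY
  have hYcl : IsClosed Y := (hWcl.sdiff hV).union
    (isClosed_biUnion_finset fun y hy => (hK y (ht1 y hy)).1)
  have hYA : Disjoint Y A := by
    rw [disjoint_left]
    rintro x (hx | hx) hxA
    · exact hx.2 (hWA ⟨hx.1, hxA⟩)
    · rw [mem_iUnion₂] at hx
      obtain ⟨y, hy, hxy⟩ := hx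
      exact disjoint_left.1 (hK y (ht1 y hy)).2.2.2 hxy hxA
  have hKY : ∀ y ∈ t, K y ⊆ Y := fun y hy => (subset_biUnion_of_mem (u := K) hy).trans
    subset_union_right
  have hyK : ∀ y ∈ t, y ∈ K y := fun y hy => mem_of_mem_nhds (hK y (ht1 y hy)).2.2.1
  have hcomp : ∀ y ∈ t, K y ⊆ connectedComponentIn Y y := fun y hy =>
    (hK y (ht1 y hy)).2.1.isPreconnected.subset_connectedComponentIn (hyK y hy) (hKY y hy)
  have hcov : Y ⊆ ⋃₀ ((fun y => connectedComponentIn Y y) '' (t : Set S)) := by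
    rintro v (hv | hv)
    · obtain ⟨C, hC1, hC2, hvC, c, hcC, hcV⟩ := boundary_bump hWcl hWc.isPreconnected hV hWV hv
      have hcfr : c ∈ frontier V := ⟨hcV, by rw [hV.interior_eq]; exact (hC1 hcC).2⟩
      have := ht2 hcfr
      rw [mem_iUnion₂] at this
      obtain ⟨y, hy, hcy⟩ := this
      refine ⟨connectedComponentIn Y y, ⟨y, hy, rfl⟩, ?_⟩
      have hcc : c ∈ connectedComponentIn Y y := hcomp y hy hcy
      rw [connectedComponentIn_eq hcc]
      exact hC2.subset_connectedComponentIn hcC (hC1.trans subset_union_left) hvC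
    · rw [mem_iUnion₂] at hv
      obtain ⟨y, hy, hvy⟩ := hv
      exact ⟨_, ⟨y, hy, rfl⟩, hcomp y hy hvy⟩
  have hYn : Y ∈ 𝓝 w := by
    filter_upwards [hWn, isClosed_closure.isOpen_compl.mem_nhds hw] with q hq1 hq2
    exact Or.inl ⟨hq1, fun h => hq2 (subset_closure h)⟩
  obtain ⟨Z, hZ1, hZ2, hZ3, hZ4⟩ := finite_cover (t.finite_toSet.image _)
    (by rintro _ ⟨y, _, rfl⟩; exact isClosed_connectedComponentIn hYcl y)
    (by rintro _ ⟨y, _, rfl⟩; exact isPreconnected_connectedComponentIn)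
    (Filter.mem_of_superset hYn hcov)
  refine notMem_T.2 ⟨Z, hZ1, hZ2, hZ3, hYA.mono_left (hZ4.trans ?_)⟩
  apply sUnion_subset
  rintro _ ⟨y, _, rfl⟩
  exact connectedComponentIn_subset _ _

variable [ConnectedSpace S]

/-- A closed separation of `T A` with `A` on one side is trivial. -/
theorem T_subset_of_separated {A P Q : Set S} (hP : IsClosed P) (hQ : IsClosed Q)
    (hPQ : Disjoint P Q) (hT : T A ⊆ P ∪ Q) (hA : A ⊆ P) : T A ⊆ P := by
  intro w hw
  by_contra hwP
  have hwQ : w ∈ Q := (hT hw).resolve_left hwP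
  obtain ⟨V, hVo, hPV, hVQ⟩ := normal_exists_closure_subset hP hQ.isOpen_compl
    hPQ.subset_compl_right
  refine notMem_T_of_frontier (W := univ) hVo ?_ isClosed_univ isConnected_univ Filter.univ_mem
    (fun h => hVQ h hwQ) (by rw [univ_inter]; exact hA.trans hPV) hw
  intro y hy hyT
  rcases hT hyT with h | h
  · exact hy.2 (by rw [hVo.interior_eq]; exact hPV h)
  · exact hVQ hy.1 h

theorem isPreconnected_T {A : Set S} (hA : IsPreconnected A) : IsPreconnected (T A) := by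
  rw [isPreconnected_iff_subset_of_fully_disjoint_closed (isClosed_T A)]
  intro P Q hP hQ hPQu hPQ
  rcases isPreconnected_iff_subset_of_disjoint_closed.1 hA P Q hP hQ
    ((subset_T A).trans hPQu) (by rw [hPQ.inter_eq, inter_empty]) with h | h
  · exact Or.inl (T_subset_of_separated hP hQ hPQ hPQu h)
  · exact Or.inr (T_subset_of_separated hQ hP hPQ.symm (by rwa [union_comm]) h)

theorem isConnected_T_singleton (x : S) : IsConnected (T ({x} : Set S)) :=
  ⟨⟨x, self_mem_T x⟩, isPreconnected_T isPreconnected_singleton⟩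

omit [ConnectedSpace S] in
/-- `T` of a subset of a `T`-closed set splits along a closed separation. -/
theorem mem_T_inter_of_separated {A P Q B : Set S} {w : S} (hP : IsClosed P) (hQ : IsClosed Q)
    (hPQ : Disjoint P Q) (hPQA : P ∪ Q = A) (hTA : T A ⊆ A) (hB : B ⊆ A) (hwP : w ∈ P)
    (hw : w ∈ T B) : w ∈ T (B ∩ P) := by
  by_contra hcon
  obtain ⟨W, hW1, hW2, hW3, hW4⟩ := notMem_T.1 hcon
  obtain ⟨V, hVo, hQV, hVP⟩ := normal_exists_closure_subset hQ hP.isOpen_compl
    hPQ.symm.subset_compl_right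
  refine notMem_T_of_frontier (W := W) hVo ?_ hW1 hW2 hW3 (fun h => hVP h hwP) ?_ hw
  · intro y hy hyT
    have hyA : y ∈ P ∪ Q := by rw [hPQA]; exact hTA (T_mono hB hyT)
    rcases hyA with h | h
    · exact hVP hy.1 h
    · exact hy.2 (by rw [hVo.interior_eq]; exact hQV h)
  · rintro x ⟨hxW, hxB⟩
    have hxA : x ∈ P ∪ Q := by rw [hPQA]; exact hB hxB
    rcases hxA with h | h
    · exact absurd ⟨hxB, h⟩ (disjoint_left.1 hW4 hxW)
    · exact hQV h

/-- On a finite set whose points lie in distinct components of a `T`-closed set, `T` is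
additive. -/
theorem mem_T_of_distinct_components {A F : Set S} {w : S} (hA : IsClosed A) (hTA : T A ⊆ A)
    (hFA : F ⊆ A) (hF : F.Finite)
    (hd : ∀ x ∈ F, ∀ y ∈ F, x ∈ connectedComponentIn A y → x = y) (hw : w ∈ T F) :
    ∃ x ∈ F, w ∈ T ({x} : Set S) := by
  have hwA : w ∈ A := hTA (T_mono hFA hw)
  have hfin : (F \ connectedComponentIn A w).Finite := hF.subset sdiff_subset
  obtain ⟨P, Q, hP, hQ, hPQ, hPQA, hwP, hPU⟩ := exists_clopen hA hwA
    hfin.isClosed.isOpen_compl (fun x hx hx2 => hx2.2 hx)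
  have h1 := mem_T_inter_of_separated hP hQ hPQ hPQA hTA hFA hwP hw
  have hne : (F ∩ P).Nonempty := by
    by_contra hcon
    rw [not_nonempty_iff_eq_empty] at hcon
    rw [hcon, T_empty] at h1
    exact h1
  obtain ⟨x, hxF, hxP⟩ := hne
  refine ⟨x, hxF, T_mono ?_ h1⟩
  have hcw : ∀ y ∈ F ∩ P, y ∈ connectedComponentIn A w := by
    intro y hy
    by_contra hcon
    exact hPU hy.2 ⟨hy.1, hcon⟩
  intro y hy
  rw [mem_singleton_iff]
  apply hd y hy.1 x hxF
  have h2 := hcw y hy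
  have h3 := hcw x ⟨hxF, hxP⟩
  rw [connectedComponentIn_eq h3] at h2
  exact h2

omit [T2Space S] [ConnectedSpace S] in
/-- Upper semicontinuity of `T`. -/
theorem T_usc {A U : Set S} (hU : IsOpen U) (h : T A ⊆ U) :
    ∃ V, IsOpen V ∧ A ⊆ V ∧ ∀ B ⊆ V, T B ⊆ U := by
  have hex : ∀ y : S, ∃ K : Set S, y ∈ Uᶜ → IsClosed K ∧ IsConnected K ∧ K ∈ 𝓝 y ∧
      Disjoint K A := by
    intro y
    by_cases hy : y ∈ Uᶜ
    · obtain ⟨K, hK⟩ := notMem_T.1 (fun hyT => hy (h hyT))
      exact ⟨K, fun _ => hK⟩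
    · exact ⟨∅, fun h => absurd h hy⟩
  choose K hK using hex
  obtain ⟨t, ht1, ht2⟩ := hU.isClosed_compl.isCompact.elim_nhds_subcover (fun y => interior (K y))
    (fun y hy => interior_mem_nhds.2 (hK y hy).2.2.1)
  refine ⟨(⋃ y ∈ t, K y)ᶜ, (isClosed_biUnion_finset fun y hy => (hK y (ht1 y hy)).1).isOpen_compl,
    ?_, ?_⟩
  · intro x hx hx2
    rw [mem_iUnion₂] at hx2
    obtain ⟨y, hy, hxy⟩ := hx2
    exact disjoint_left.1 (hK y (ht1 y hy)).2.2.2 hxy hx
  · intro B hB p hp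
    by_contra hpU
    have h1 := ht2 hpU
    rw [mem_iUnion₂] at h1
    obtain ⟨y, hy, hpy⟩ := h1
    obtain ⟨z, hz1, hz2⟩ := hp (K y) (hK y (ht1 y hy)).1 (hK y (ht1 y hy)).2.1
      (mem_interior_iff_mem_nhds.1 hpy)
    exact hB hz2 (mem_iUnion₂.2 ⟨y, hy, hz1⟩)

omit [T2Space S] [ConnectedSpace S] in
theorem isOpen_T_subset {U : Set S} (hU : IsOpen U) : IsOpen {x : S | T ({x} : Set S) ⊆ U} := by
  rw [isOpen_iff_mem_nhds]
  intro x hx
  obtain ⟨V, hV1, hV2, hV3⟩ := T_usc hU hx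
  filter_upwards [hV1.mem_nhds (hV2 rfl)] with y hy
  exact hV3 _ (singleton_subset_iff.2 hy)


/-- Lower semicontinuity of `T` on the nonempty closed sets, in terms of basic Vietoris
neighbourhoods. -/
def LSC (S : Type*) [TopologicalSpace S] : Prop :=
  ∀ A : Set S, IsClosed A → A.Nonempty → ∀ U : Set S, IsOpen U → (T A ∩ U).Nonempty →
    ∃ u : Set (Set S), u.Finite ∧ (∀ V ∈ u, IsOpen V) ∧ A ⊆ ⋃₀ u ∧ (∀ V ∈ u, (A ∩ V).Nonempty) ∧
      ∀ B : Set S, IsClosed B → B.Nonempty → B ⊆ ⋃₀ u → (∀ V ∈ u, (B ∩ V).Nonempty) →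
        (T B ∩ U).Nonempty

omit [CompactSpace S] [ConnectedSpace S] in
/-- Density argument. -/
theorem exists_finite_of_LSC (h : LSC S) {D U : Set S} (hU : IsOpen U) (hD : D.Nonempty)
    (hne : (T (closure D) ∩ U).Nonempty) : ∃ B ⊆ D, B.Finite ∧ B.Nonempty ∧ (T B ∩ U).Nonempty := by
  obtain ⟨u, hu1, hu2, hu3, hu4, hu5⟩ := h (closure D) isClosed_closure hD.closure U hU hne
  have hex : ∀ V : Set S, ∃ x : S, V ∈ u → x ∈ V ∩ D := by
    intro V
    by_cases hV : V ∈ u
    · obtain ⟨y, hy1, hy2⟩ := hu4 V hV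
      obtain ⟨x, hx⟩ := mem_closure_iff.1 hy1 V (hu2 V hV) hy2
      exact ⟨x, fun _ => hx⟩
    · obtain ⟨x, _⟩ := hD
      exact ⟨x, fun h => absurd h hV⟩
  choose b hb using hex
  have hune : u.Nonempty := by
    obtain ⟨x, hx⟩ := hD
    obtain ⟨V, hV, _⟩ := hu3 (subset_closure hx)
    exact ⟨V, hV⟩
  refine ⟨b '' u, ?_, hu1.image b, hune.image b, ?_⟩
  · rintro _ ⟨V, hV, rfl⟩
    exact (hb V hV).2
  · apply hu5 _ (hu1.image b).isClosed (hune.image b)
    · rintro _ ⟨V, hV, rfl⟩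
      exact ⟨V, hV, (hb V hV).1⟩
    · intro V hV
      exact ⟨b V, ⟨V, hV, rfl⟩, (hb V hV).1⟩

omit [CompactSpace S] in
/-- The complement of the interior of a continuum is `T`-closed. -/
theorem notMem_T_closure_compl (h : LSC S) {W : Set S} (hW : IsClosed W) (hWc : IsConnected W)
    {q : S} (hq : W ∈ 𝓝 q) : q ∉ T (closure Wᶜ) := by
  intro hqT
  by_cases hne : (Wᶜ).Nonempty
  · obtain ⟨B, hB1, _, _, r, hr1, hr2⟩ := exists_finite_of_LSC h isOpen_interior hne
      ⟨q, hqT, mem_interior_iff_mem_nhds.2 hq⟩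
    obtain ⟨z, hz1, hz2⟩ := hr1 W hW hWc (mem_interior_iff_mem_nhds.1 hr2)
    exact hB1 hz2 hz1
  · rw [not_nonempty_iff_eq_empty] at hne
    rw [hne, closure_empty, T_empty] at hqT
    exact hqT

omit [CompactSpace S] in
/-- Every point of the interior of a continuum has a continuum neighbourhood inside that
interior. -/
theorem exists_continuum_subset_interior (h : LSC S) {W : Set S} (hW : IsClosed W)
    (hWc : IsConnected W) {q : S} (hq : W ∈ 𝓝 q) :
    ∃ K, IsClosed K ∧ IsConnected K ∧ K ∈ 𝓝 q ∧ K ⊆ interior W := by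
  obtain ⟨K, h1, h2, h3, h4⟩ := notMem_T.1 (notMem_T_closure_compl h hW hWc hq)
  refine ⟨K, h1, h2, h3, ?_⟩
  rw [interior_eq_compl_closure_compl]
  exact h4.subset_compl_right

omit [CompactSpace S] in
theorem T_idem (h : LSC S) (A : Set S) : T (T A) = T A := by
  apply Subset.antisymm _ (subset_T _)
  intro p hp
  by_contra hcon
  obtain ⟨W, h1, h2, h3, h4⟩ := notMem_T.1 hcon
  obtain ⟨K, k1, k2, k3, k4⟩ := exists_continuum_subset_interior h h1 h2 h3
  obtain ⟨y, hy1, hy2⟩ := hp K k1 k2 k3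
  obtain ⟨z, hz1, hz2⟩ := hy2 W h1 h2 (mem_interior_iff_mem_nhds.1 (k4 hy1))
  exact disjoint_left.1 h4 hz1 hz2

omit [CompactSpace S] in
theorem T_subset_of_mem (h : LSC S) {x y : S} (hy : y ∈ T ({x} : Set S)) :
    T ({y} : Set S) ⊆ T ({x} : Set S) := by
  calc T ({y} : Set S) ⊆ T (T ({x} : Set S)) := T_mono (singleton_subset_iff.2 hy)
    _ = T ({x} : Set S) := T_idem h _

omit [CompactSpace S] [ConnectedSpace S] in
theorem isOpen_T_inter (h : LSC S) {U : Set S} (hU : IsOpen U) :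
    IsOpen {x : S | (T ({x} : Set S) ∩ U).Nonempty} := by
  rw [isOpen_iff_mem_nhds]
  intro x hx
  obtain ⟨u, hu1, hu2, hu3, hu4, hu5⟩ := h {x} isClosed_singleton (singleton_nonempty x) U hU hx
  have hxu : ∀ V ∈ u, x ∈ V := by
    intro V hV
    obtain ⟨y, hy1, hy2⟩ := hu4 V hV
    rwa [mem_singleton_iff.1 hy1] at hy2
  have hO : IsOpen (⋂₀ u) := hu1.isOpen_sInter hu2
  filter_upwards [hO.mem_nhds (fun V hV => hxu V hV)] with y hy
  apply hu5 {y} isClosed_singleton (singleton_nonempty y)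
  · rw [singleton_subset_iff]
    obtain ⟨V, hV, _⟩ := hu3 (mem_singleton x)
    exact ⟨V, hV, hy V hV⟩
  · intro V hV
    exact ⟨y, rfl, hy V hV⟩

/-- The set of minimal points. -/
def M (S : Type*) [TopologicalSpace S] : Set S :=
  {x | ∀ y ∈ T ({x} : Set S), x ∈ T ({y} : Set S)}

/-- Every `T {x}` contains a minimal point. -/
theorem exists_minimal (h : LSC S) (x : S) : ∃ z ∈ T ({x} : Set S), z ∈ M S := by
  obtain ⟨m, hmx, hm⟩ := zorn_superset_nonempty {C : Set S | ∃ y, C = T ({y} : Set S)}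
    (by
      intro c hc hchain hne
      have hd : DirectedOn (· ⊇ ·) c := by
        intro a ha b hb
        rcases hchain.total ha hb with hab | hab
        · exact ⟨a, ha, Subset.rfl, hab⟩
        · exact ⟨b, hb, hab, Subset.rfl⟩
      have : Nonempty c := hne.to_subtype
      have hcl : ∀ U ∈ c, IsClosed U := by
        intro U hU
        obtain ⟨y, rfl⟩ := hc hU
        exact isClosed_T _
      obtain ⟨y, hy⟩ := IsCompact.nonempty_sInter_of_directed_nonempty_isCompact_isClosed hd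
        (by
          intro U hU
          obtain ⟨y, rfl⟩ := hc hU
          exact ⟨y, self_mem_T y⟩)
        (fun U hU => (hcl U hU).isCompact) hcl
      refine ⟨T {y}, ⟨y, rfl⟩, ?_⟩
      intro s hs
      obtain ⟨w, rfl⟩ := hc hs
      exact T_subset_of_mem h (hy _ hs))
    (T {x}) ⟨x, rfl⟩
  obtain ⟨z, hz⟩ := hm.prop
  refine ⟨z, hmx (by rw [hz]; exact self_mem_T z), ?_⟩
  intro y hy
  have h1 : T ({y} : Set S) ⊆ m := by rw [hz]; exact T_subset_of_mem h hy
  have h2 := hm.le_of_le ⟨y, rfl⟩ h1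
  apply h2
  rw [hz]
  exact self_mem_T z

omit [CompactSpace S] in
theorem T_subset_M (h : LSC S) {z : S} (hz : z ∈ M S) : T ({z} : Set S) ⊆ M S := by
  intro y hy w hw
  have h1 : w ∈ T ({z} : Set S) := T_subset_of_mem h hy hw
  exact T_subset_of_mem h (hz w h1) hy

theorem isClosed_M (h : LSC S) : IsClosed (M S) := by
  rw [← closure_subset_iff_isClosed]
  intro x hx y hy
  by_contra hcon
  -- separate x from T {y}
  obtain ⟨O, O', hO, hO', hxO, hTO, hOO⟩ := SeparatedNhds.of_isCompact_isCompact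
    (isCompact_singleton (x := x)) (isClosed_T ({y} : Set S)).isCompact
    (disjoint_singleton_left.2 hcon)
  have h1 : IsOpen {y' : S | T ({y'} : Set S) ⊆ O'} := isOpen_T_subset hO'
  have h2 : IsOpen {x' : S | (T ({x'} : Set S) ∩ {y' : S | T ({y'} : Set S) ⊆ O'}).Nonempty} :=
    isOpen_T_inter h h1
  obtain ⟨x', ⟨hx'1, hx'2⟩, hx'M⟩ := mem_closure_iff.1 hx _ ((hO.inter h2))
    ⟨singleton_subset_iff.1 hxO, y, hy, hTO⟩
  obtain ⟨y', hy'1, hy'2⟩ := hx'2
  exact disjoint_left.1 hOO hx'1 (hy'2 (hx'M y' hy'1))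

/-- If `T` is continuous, then membership `y ∈ T {x}` is symmetric. -/
theorem M_eq_univ (h : LSC S) : M S = univ := by
  rw [eq_univ_iff_forall]
  intro m
  by_contra hm
  -- an open neighbourhood N of m whose closure misses M
  obtain ⟨N, hN, hmN, hNM⟩ := normal_exists_closure_subset (isClosed_singleton (x := m))
    (isClosed_M h).isOpen_compl (singleton_subset_iff.2 hm)
  rw [singleton_subset_iff] at hmN
  set R : Set S := {x | ¬ (T ({x} : Set S) ∩ N).Nonempty} with hR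
  have hRcl : IsClosed R := (isOpen_T_inter h hN).isClosed_compl
  have hRdown : ∀ x ∈ R, T ({x} : Set S) ⊆ R := by
    intro x hx y hy hcon
    exact hx (hcon.mono (inter_subset_inter_left _ (T_subset_of_mem h hy)))
  have hMR : M S ⊆ interior R := by
    intro z hz
    rw [mem_interior_iff_mem_nhds]
    have h1 : T ({z} : Set S) ⊆ (closure N)ᶜ := fun y hy hyN => hNM hyN (T_subset_M h hz hy)
    filter_upwards [(isOpen_T_subset (isClosed_closure (s := N)).isOpen_compl).mem_nhds h1] with x hx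
    rintro ⟨y, hy1, hy2⟩
    exact hx hy1 (subset_closure hy2)
  have hRconn : IsPreconnected R := by
    rw [isPreconnected_iff_subset_of_fully_disjoint_closed hRcl]
    intro P Q hP hQ hPQu hPQ
    by_contra hcon
    rw [not_or, not_subset, not_subset] at hcon
    obtain ⟨⟨a, haR, haP⟩, ⟨b, hbR, hbQ⟩⟩ := hcon
    have haQ : a ∈ Q := (hPQu haR).resolve_left haP
    have hbP : b ∈ P := (hPQu hbR).resolve_right hbQ
    have hTP : ∀ x ∈ R, x ∈ P → T ({x} : Set S) ⊆ P := by
      intro x hxR hxP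
      exact T_subset_of_separated hP hQ hPQ ((hRdown x hxR).trans hPQu)
        (singleton_subset_iff.2 hxP)
    have hTQ : ∀ x ∈ R, x ∈ Q → T ({x} : Set S) ⊆ Q := by
      intro x hxR hxQ
      exact T_subset_of_separated hQ hP hPQ.symm ((hRdown x hxR).trans
        (by rwa [union_comm])) (singleton_subset_iff.2 hxQ)
    -- the set of x such that T {x} meets R ∩ P is clopen
    set E : Set S := {x | (T ({x} : Set S) ∩ (R ∩ P)).Nonempty} with hE
    have hEcl : IsClosed E := by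
      have : E = {x | T ({x} : Set S) ⊆ (R ∩ P)ᶜ}ᶜ := by
        ext x
        simp only [hE, mem_ofPred_eq, mem_compl_iff, subset_compl_iff_disjoint_right,
          not_disjoint_iff_nonempty_inter]
      rw [this]
      exact (isOpen_T_subset (hRcl.inter hP).isOpen_compl).isClosed_compl
    have hEop : IsOpen E := by
      rw [isOpen_iff_mem_nhds]
      rintro x ⟨y, hyx, hyR, hyP⟩
      obtain ⟨z, hzy, hzM⟩ := exists_minimal h y
      have hzP : z ∈ P := hTP y hyR hyP hzy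
      have hO : IsOpen (interior R ∩ Qᶜ) := isOpen_interior.inter hQ.isOpen_compl
      have hzO : z ∈ interior R ∩ Qᶜ := ⟨hMR hzM, disjoint_left.1 hPQ hzP⟩
      filter_upwards [(isOpen_T_inter h hO).mem_nhds ⟨z, T_subset_of_mem h hyx hzy, hzO⟩] with x' hx'
      obtain ⟨w, hw1, hw2, hw3⟩ := hx'
      exact ⟨w, hw1, interior_subset hw2, (hPQu (interior_subset hw2)).resolve_right hw3⟩
    have hEuniv : E = univ := IsClopen.eq_univ ⟨hEcl, hEop⟩ ⟨b, b, self_mem_T b, hbR, hbP⟩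
    have haE : a ∈ E := by rw [hEuniv]; exact mem_univ a
    obtain ⟨w, hw1, _, hw3⟩ := haE
    exact disjoint_left.1 hPQ hw3 (hTQ a haR haQ hw1)
  obtain ⟨z, hzm, hzM⟩ := exists_minimal h m
  obtain ⟨y, hy1, hy2⟩ := hzm R hRcl ⟨⟨z, interior_subset (hMR hzM)⟩, hRconn⟩
    (mem_interior_iff_mem_nhds.1 (hMR hzM))
  rw [mem_singleton_iff.1 hy2] at hy1
  exact hy1 ⟨m, self_mem_T m, hmN⟩

theorem T_symm (h : LSC S) {x y : S} (hy : y ∈ T ({x} : Set S)) : x ∈ T ({y} : Set S) := by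
  have : x ∈ M S := by rw [M_eq_univ h]; exact mem_univ x
  exact this y hy

theorem T_eq_of_mem (h : LSC S) {x y : S} (hy : y ∈ T ({x} : Set S)) :
    T ({y} : Set S) = T ({x} : Set S) :=
  Subset.antisymm (T_subset_of_mem h hy) (T_subset_of_mem h (T_symm h hy))


omit [CompactSpace S] [T2Space S] [ConnectedSpace S] in
/-- Choose finitely many points in distinct components. -/
theorem exists_choice {A : Set S} {u : Set (Set S)} (hu : u.Finite)
    (hX : ∀ X ∈ u, ∀ F : Set S, F.Finite → ∃ y ∈ X, y ∈ A ∧ ∀ z ∈ F, y ∉ connectedComponentIn A z) :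
    ∃ F : Set S, F.Finite ∧ F ⊆ A ∧ F ⊆ ⋃₀ u ∧ (∀ X ∈ u, (F ∩ X).Nonempty) ∧
      ∀ x ∈ F, ∀ y ∈ F, x ∈ connectedComponentIn A y → x = y := by
  induction u, hu using Set.Finite.induction_on with
  | empty => exact ⟨∅, finite_empty, empty_subset _, empty_subset _, by simp, by simp⟩
  | @insert X u hXu hu ih =>
    obtain ⟨F, hF1, hF2, hF3, hF4, hF5⟩ := ih (fun Y hY => hX Y (mem_insert_of_mem _ hY))
    obtain ⟨y, hyX, hyA, hyF⟩ := hX X (mem_insert _ _) F hF1
    refine ⟨insert y F, hF1.insert y, insert_subset hyA hF2, ?_, ?_, ?_⟩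
    · apply insert_subset
      · exact ⟨X, mem_insert _ _, hyX⟩
      · exact hF3.trans (sUnion_subset_sUnion (subset_insert _ _))
    · intro Y hY
      rcases mem_insert_iff.1 hY with rfl | hY
      · exact ⟨y, mem_insert _ _, hyX⟩
      · exact (hF4 Y hY).mono (inter_subset_inter_left _ (subset_insert _ _))
    · intro a ha b hb hab
      rcases mem_insert_iff.1 ha with rfl | ha'
      · rcases mem_insert_iff.1 hb with rfl | hb'
        · rfl
        · exact absurd hab (hyF b hb')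
      · rcases mem_insert_iff.1 hb with rfl | hb'
        · exfalso
          apply hyF a ha'
          rw [← connectedComponentIn_eq hab]
          exact mem_connectedComponentIn hyA
        · exact hF5 a ha' b hb' hab

/-- Small continuum neighbourhoods: any open set containing `T {p}` contains a continuum
neighbourhood of `p`. -/
theorem exists_small_continuum (h : LSC S) {p : S} {U : Set S} (hU : IsOpen U)
    (hp : T ({p} : Set S) ⊆ U) : ∃ K, IsClosed K ∧ IsConnected K ∧ K ∈ 𝓝 p ∧ K ⊆ U := by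
  obtain ⟨V, hV, hpV, hVU⟩ := T_usc hU (show T (T ({p} : Set S)) ⊆ U by rwa [T_idem h])
  obtain ⟨V1, hV1, hpV1, hV1V⟩ := normal_exists_closure_subset (isClosed_T _) hV hpV
  obtain ⟨V2, hV2, hpV2, hV2V⟩ := normal_exists_closure_subset (isClosed_T _) hV1 hpV1
  set A : Set S := T (closure V1) with hA
  have hAcl : IsClosed A := isClosed_T _
  have hAU : A ⊆ U := hVU _ hV1V
  have hTA : T A ⊆ A := (T_idem h _).subset
  have hV2A : closure V2 ⊆ A := hV2V.trans (subset_closure.trans (subset_T _))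
  -- points of finite type
  set L : Set S := {x | x ∈ A ∧ ∀ O : Set S, IsOpen O → x ∈ O → ∀ F : Set S, F.Finite →
    ∃ y ∈ O, y ∈ A ∧ ∀ z ∈ F, y ∉ connectedComponentIn A z} with hL
  have hLcl : IsClosed L := by
    rw [← closure_subset_iff_isClosed]
    intro x hx
    refine ⟨closure_minimal (fun y hy => hy.1) hAcl hx, ?_⟩
    intro O hO hxO F hF
    obtain ⟨y, hyO, hyL⟩ := mem_closure_iff.1 hx O hO hxO
    exact hyL.2 O hO hyO F hF
  have hA'cl : IsClosed (L ∩ frontier V2) := hLcl.inter isClosed_frontier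
  have hpA' : p ∉ T (L ∩ frontier V2) := by
    intro hpT
    have hne : (L ∩ frontier V2).Nonempty := by
      by_contra hcon
      rw [not_nonempty_iff_eq_empty] at hcon
      rw [hcon, T_empty] at hpT
      exact hpT
    obtain ⟨V3, hV3, hpV3, hV3A'⟩ := normal_exists_closure_subset (isClosed_T ({p} : Set S))
      hA'cl.isOpen_compl (by
        intro y hy hy2
        exact hy2.2.2 (by rw [hV2.interior_eq]; exact hpV2 hy))
    have hOp : IsOpen {o : S | T ({o} : Set S) ⊆ V3} := isOpen_T_subset hV3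
    obtain ⟨u, hu1, hu2, hu3, hu4, hu5⟩ := h _ hA'cl hne _ hOp ⟨p, hpT, hpV3⟩
    obtain ⟨F, hF1, hF2, hF3, hF4, hF5⟩ := exists_choice (A := A)
      (u := (fun V => V ∩ (closure V3)ᶜ) '' u) (hu1.image _) (by
        rintro _ ⟨V, hVu, rfl⟩ F hF
        obtain ⟨x, ⟨hxL, hxf⟩, hxV⟩ := hu4 V hVu
        exact hxL.2 (V ∩ (closure V3)ᶜ) ((hu2 V hVu).inter isClosed_closure.isOpen_compl)
          ⟨hxV, fun hx3 => hV3A' hx3 ⟨hxL, hxf⟩⟩ F hF)
    have hFu : F ⊆ ⋃₀ u := by
      intro x hx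
      obtain ⟨_, ⟨V, hVu, rfl⟩, hxV⟩ := hF3 hx
      exact ⟨V, hVu, hxV.1⟩
    have hFV : ∀ V ∈ u, (F ∩ V).Nonempty := by
      intro V hVu
      obtain ⟨x, hx1, hx2⟩ := hF4 _ ⟨V, hVu, rfl⟩
      exact ⟨x, hx1, hx2.1⟩
    have hune : u.Nonempty := by
      obtain ⟨x, hx⟩ := hne
      obtain ⟨V, hV, _⟩ := hu3 hx
      exact ⟨V, hV⟩
    have hFne : F.Nonempty := by
      obtain ⟨V, hV⟩ := hune
      exact (hFV V hV).mono inter_subset_left
    obtain ⟨o, ho1, ho2⟩ := hu5 F hF1.isClosed hFne hFu hFV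
    obtain ⟨x, hxF, hox⟩ := mem_T_of_distinct_components hAcl hTA hF2 hF1 hF5 ho1
    have hx3 : x ∈ V3 := ho2 (T_symm h hox)
    obtain ⟨_, ⟨V, hVu, rfl⟩, hxV⟩ := hF3 hxF
    exact hxV.2 (subset_closure hx3)
  obtain ⟨W, hW1, hW2, hW3, hW4⟩ := notMem_T.1 hpA'
  by_cases hWV : W ⊆ closure V2
  · exact ⟨W, hW1, hW2, hW3, hWV.trans (hV2A.trans hAU)⟩
  have hWV' : (W ∩ (closure V2)ᶜ).Nonempty := by
    obtain ⟨x, hx1, hx2⟩ := not_subset.1 hWV
    exact ⟨x, hx1, hx2⟩
  have hfin : ∀ x : S, ∃ (O F : Set S), x ∈ W ∩ frontier V2 → IsOpen O ∧ x ∈ O ∧ F.Finite ∧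
      ∀ y ∈ O, y ∈ A → ∃ z ∈ F, y ∈ connectedComponentIn A z := by
    intro x
    by_cases hx : x ∈ W ∩ frontier V2
    · have hxA : x ∈ A := hV2A hx.2.1
      have hxL : x ∉ L := fun hxL => disjoint_left.1 hW4 hx.1 ⟨hxL, hx.2⟩
      rw [hL, mem_ofPred_eq, not_and] at hxL
      have := hxL hxA
      push Not at this
      obtain ⟨O, hO, hxO, F, hF, hF2⟩ := this
      exact ⟨O, F, fun _ => ⟨hO, hxO, hF, hF2⟩⟩
    · exact ⟨∅, ∅, fun h => absurd h hx⟩
  choose O F hOF using hfin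
  obtain ⟨t, ht1, ht2⟩ := (hW1.inter (isClosed_frontier (s := V2))).isCompact.elim_nhds_subcover O
    (fun y hy => (hOF y hy).1.mem_nhds (hOF y hy).2.1)
  have hΦ : (⋃ x ∈ t, F x).Finite := t.finite_toSet.biUnion (fun x hx => (hOF x (ht1 x hx)).2.2.1)
  have hcov : ∀ y ∈ W ∩ frontier V2, ∃ z ∈ ⋃ x ∈ t, F x, y ∈ connectedComponentIn A z := by
    intro y hy
    have := ht2 hy
    rw [mem_iUnion₂] at this
    obtain ⟨x, hx, hyx⟩ := this
    obtain ⟨z, hz1, hz2⟩ := (hOF x (ht1 x hx)).2.2.2 y hyx (hV2A hy.2.1)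
    exact ⟨z, mem_iUnion₂.2 ⟨x, hx, hz1⟩, hz2⟩
  obtain ⟨K, hK1, hK2, hK3, hK4⟩ := finite_cover (hΦ.image (fun z => connectedComponentIn A z))
    (by rintro _ ⟨y, _, rfl⟩; exact isClosed_connectedComponentIn hAcl y)
    (by rintro _ ⟨y, _, rfl⟩; exact isPreconnected_connectedComponentIn)
    (p := p) (by
      filter_upwards [hW3, hV2.mem_nhds (hpV2 (self_mem_T p))] with q hq1 hq2
      obtain ⟨C, hC1, hC2, hqC, c, hcC, hcV⟩ := boundary_bump hW1 hW2.isPreconnected
        (isClosed_closure (s := V2)).isOpen_compl hWV' (y := q)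
        ⟨hq1, fun hcon => hcon (subset_closure hq2)⟩
      have hCV2 : C ⊆ closure V2 := fun x hx => not_not.1 (hC1 hx).2
      have hcf : c ∈ frontier V2 := by
        refine ⟨hCV2 hcC, ?_⟩
        rw [hV2.interior_eq]
        intro hcV2
        obtain ⟨x, hx1, hx2⟩ := mem_closure_iff.1 hcV V2 hV2 hcV2
        exact hx2 (subset_closure hx1)
      obtain ⟨z, hz1, hz2⟩ := hcov c ⟨(hC1 hcC).1, hcf⟩
      refine ⟨connectedComponentIn A z, ⟨z, hz1, rfl⟩, ?_⟩
      rw [connectedComponentIn_eq hz2]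
      exact hC2.subset_connectedComponentIn hcC (hCV2.trans hV2A) hqC)
  refine ⟨K, hK1, hK2, hK3, hK4.trans ?_⟩
  apply sUnion_subset
  rintro _ ⟨y, _, rfl⟩
  exact (connectedComponentIn_subset _ _).trans hAU

/-- `T` is determined by points. -/
theorem T_eq_biUnion (h : LSC S) {B : Set S} (hB : IsClosed B) :
    T B = ⋃ b ∈ B, T ({b} : Set S) := by
  apply Subset.antisymm
  · intro p hp
    by_contra hcon
    have h1 : T ({p} : Set S) ⊆ Bᶜ := by
      intro b hb hbB
      exact hcon (mem_iUnion₂.2 ⟨b, hbB, T_symm h hb⟩)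
    obtain ⟨K, hK1, hK2, hK3, hK4⟩ := exists_small_continuum h hB.isOpen_compl h1
    obtain ⟨z, hz1, hz2⟩ := hp K hK1 hK2 hK3
    exact hK4 hz1 hz2
  · exact iUnion₂_subset fun b hb => T_mono (singleton_subset_iff.2 hb)

theorem T_union (h : LSC S) {A B : Set S} (hA : IsClosed A) (hB : IsClosed B) :
    T (A ∪ B) = T A ∪ T B := by
  rw [T_eq_biUnion h hA, T_eq_biUnion h hB, T_eq_biUnion h (hA.union hB), biUnion_union]

/-- If some `T {p}` has nonempty interior then `T {x}` is everything. -/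
theorem T_eq_univ (h : LSC S) {p : S} (hp : (interior (T ({p} : Set S))).Nonempty) (x : S) :
    T ({x} : Set S) = univ := by
  have h1 : {x | (T ({x} : Set S) ∩ interior (T ({p} : Set S))).Nonempty} = T ({p} : Set S) := by
    ext x
    constructor
    · rintro ⟨y, hy1, hy2⟩
      have h2 := T_eq_of_mem h hy1
      have h3 := T_eq_of_mem h (interior_subset hy2)
      rw [← h3, h2]
      exact self_mem_T x
    · intro hx
      obtain ⟨y, hy⟩ := hp
      refine ⟨y, ?_, hy⟩
      rw [T_eq_of_mem h hx]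
      exact interior_subset hy
  have h2 : IsClopen (T ({p} : Set S)) := by
    refine ⟨isClosed_T _, ?_⟩
    rw [← h1]
    exact isOpen_T_inter h isOpen_interior
  have h3 : T ({p} : Set S) = univ := h2.eq_univ ⟨p, self_mem_T p⟩
  have h4 : x ∈ T ({p} : Set S) := by rw [h3]; exact mem_univ x
  rw [T_eq_of_mem h h4, h3]

omit [CompactSpace S] [T2Space S] [ConnectedSpace S] in
/-- Vietoris continuity on the nonempty closed sets implies the concrete form of lower
semicontinuity. -/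
theorem LSC_of_continuousOn
    (h : @ContinuousOn (Set S) (Set S) (TopologicalSpace.vietoris S) (TopologicalSpace.vietoris S)
      T {A : Set S | IsClosed A ∧ A.Nonempty}) : LSC S := by
  let _ : TopologicalSpace (Set S) := TopologicalSpace.vietoris S
  intro A hA hne U hU hT
  have h1 : {B : Set S | (B ∩ U).Nonempty} ∈ 𝓝 (T A) :=
    (vietoris.isOpen_inter_nonempty_of_isOpen hU).mem_nhds hT
  have h2 := (h A ⟨hA, hne⟩) h1
  rw [Filter.mem_map, mem_nhdsWithin] at h2
  obtain ⟨O, hO, hAO, hOT⟩ := h2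
  obtain ⟨_, ⟨u, ⟨hu1, hu2⟩, rfl⟩, hAu, huO⟩ :=
    (vietoris.isTopologicalBasis (α := S)).exists_subset_of_mem_open hAO hO
  refine ⟨u, hu1, hu2, hAu.1, hAu.2, ?_⟩
  intro B hB hBne hBu hBV
  exact hOT ⟨huO ⟨hBu, hBV⟩, hB, hBne⟩

omit [CompactSpace S] [T2Space S] [ConnectedSpace S] in
theorem vietoris_eq : TopologicalSpace.vietoris S = TopologicalSpace.generateFrom
    ({𝒰 : Set (Set S) | ∃ U : Set S, IsOpen U ∧ 𝒰 = {A : Set S | A ⊆ U}} ∪
     {𝒰 : Set (Set S) | ∃ U : Set S, IsOpen U ∧ 𝒰 = {A : Set S | (A ∩ U).Nonempty}}) := by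
  rw [TopologicalSpace.vietoris]
  congr 2
  · ext X
    simp only [mem_image, mem_ofPred_eq, powerset]
    exact exists_congr fun U => and_congr_right fun _ => eq_comm
  · ext X
    simp only [mem_image, mem_ofPred_eq]
    exact exists_congr fun U => and_congr_right fun _ => eq_comm

end Compact

end Pool.Agent.Helper300.JonesT
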