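import Mathlib
import Pool.Agent.Helper300.Disc

set_option autoImplicit false

open Set Topology

namespace Pool.Agent.Helper300.K33Space

abbrev Amb := (Fin 3 → ℝ) × (Fin 3 → ℝ)

/-- the edges of `K_{3,3}` -/
def κ (p : Fin 3 × Fin 3 × unitInterval) : Amb :=
  (fun i => if i = p.1 then 1 - (p.2.2 : ℝ) else 0, fun j => if j = p.2.1 then (p.2.2 : ℝ) else 0)

/-- the complete bipartite graph `K_{3,3}` as a topological space -/
def K : Set Amb := range κ

theorem κ1 (i j : Fin 3) (s : unitInterval) (i' : Fin 3) :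
    (κ (i, j, s)).1 i' = if i' = i then 1 - (s : ℝ) else 0 := rfl

theorem κ2 (i j : Fin 3) (s : unitInterval) (j' : Fin 3) :
    (κ (i, j, s)).2 j' = if j' = j then (s : ℝ) else 0 := rfl

theorem continuous_κ_ij (i j : Fin 3) : Continuous (fun s : unitInterval => κ (i, j, s)) := by
  unfold κ
  apply Continuous.prodMk
  · apply continuous_pi
    intro i'
    show Continuous (fun s : unitInterval => if i' = i then 1 - (s : ℝ) else 0)
    split_ifs <;> fun_prop
  · apply continuous_pi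
    intro j'
    show Continuous (fun s : unitInterval => if j' = j then (s : ℝ) else 0)
    split_ifs <;> fun_prop

theorem continuous_κ : Continuous κ := by
  have h : κ = fun p => (fun s : unitInterval => κ (p.1, p.2.1, s)) p.2.2 := rfl
  rw [continuous_iff_continuousAt]
  rintro ⟨i, j, s⟩
  have h1 : ∀ᶠ p in 𝓝 ((i, j, s) : Fin 3 × Fin 3 × unitInterval), κ (i, j, p.2.2) = κ p := by
    have h2 : {p : Fin 3 × Fin 3 × unitInterval | p.1 = i ∧ p.2.1 = j} ∈ 𝓝 (i, j, s) := by
      apply IsOpen.mem_nhds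
      · have h3 : IsOpen {p : Fin 3 × Fin 3 × unitInterval | p.1 = i} :=
          (isOpen_discrete {i}).preimage continuous_fst
        have h4 : IsOpen {p : Fin 3 × Fin 3 × unitInterval | p.2.1 = j} :=
          (isOpen_discrete {j}).preimage (continuous_fst.comp continuous_snd)
        exact h3.inter h4
      · exact ⟨rfl, rfl⟩
    filter_upwards [h2] with p hp
    obtain ⟨a, b, c⟩ := p
    obtain ⟨h3, h4⟩ := hp
    simp only at h3 h4
    rw [h3, h4]
  apply ContinuousAt.congr _ h1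
  exact ((continuous_κ_ij i j).comp (continuous_snd.comp continuous_snd)).continuousAt

theorem isCompact_K : IsCompact K := isCompact_range continuous_κ

instance : CompactSpace K := isCompact_iff_compactSpace.1 isCompact_K

theorem mem_K (i j : Fin 3) (s : unitInterval) : κ (i, j, s) ∈ K := ⟨_, rfl⟩

/-- an edge -/
def edge (i j : Fin 3) (S : Set unitInterval) : Set K :=
  (fun s => ⟨κ (i, j, s), mem_K i j s⟩) '' S

theorem continuous_edge (i j : Fin 3) :
    Continuous (fun s : unitInterval => (⟨κ (i, j, s), mem_K i j s⟩ : K)) :=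
  (continuous_κ_ij i j).subtype_mk _

theorem isPreconnected_edge {i j : Fin 3} {S : Set unitInterval} (hS : IsPreconnected S) :
    IsPreconnected (edge i j S) := hS.image _ (continuous_edge i j).continuousOn

theorem κ_zero (i j j' : Fin 3) : κ (i, j, 0) = κ (i, j', 0) := by
  unfold κ
  simp only [Prod.mk.injEq]
  refine ⟨trivial, ?_⟩
  funext k
  simp

theorem κ_one (i i' j : Fin 3) : κ (i, j, 1) = κ (i', j, 1) := by
  unfold κ
  simp only [Prod.mk.injEq]
  refine ⟨?_, trivial⟩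
  funext k
  simp

theorem preconnected_K : IsPreconnected (univ : Set K) := by
  apply isPreconnected_of_forall (⟨κ (0, 0, 0), mem_K _ _ _⟩ : K)
  rintro ⟨_, ⟨⟨i, j, s⟩, rfl⟩⟩ _
  refine ⟨edge i j univ ∪ edge 0 j univ, subset_univ _, Or.inr ⟨0, mem_univ _, ?_⟩,
    Or.inl ⟨s, mem_univ _, rfl⟩, ?_⟩
  · exact Subtype.ext (κ_zero 0 j 0)
  · have h1 : (⟨κ (i, j, 1), mem_K _ _ _⟩ : K) ∈ edge i j univ := ⟨1, mem_univ _, rfl⟩
    have h2 : (⟨κ (i, j, 1), mem_K _ _ _⟩ : K) ∈ edge 0 j univ :=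
      ⟨1, mem_univ _, Subtype.ext (κ_one 0 i j)⟩
    exact IsPreconnected.union _ h1 h2 (isPreconnected_edge isPreconnected_univ)
      (isPreconnected_edge isPreconnected_univ)

instance : ConnectedSpace K where
  isPreconnected_univ := preconnected_K
  toNonempty := ⟨⟨κ (0, 0, 0), mem_K _ _ _⟩⟩

theorem zero_ne_one : (⟨κ (0, 0, 0), mem_K _ _ _⟩ : K) ≠ ⟨κ (0, 0, 1), mem_K _ _ _⟩ := by
  intro h
  have h1 := congrFun (congrArg Prod.fst (congrArg Subtype.val h)) 0
  rw [κ1, κ1] at h1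
  simp at h1

instance : Nontrivial K := ⟨_, _, zero_ne_one⟩

instance : LocallyConnectedSpace unitInterval := by
  have h : IsQuotientMap (Set.projIcc (0 : ℝ) 1 zero_le_one) :=
    IsQuotientMap.of_inverse (f := (Subtype.val : unitInterval → ℝ)) continuous_subtype_val
      continuous_projIcc (fun x => Set.projIcc_val _ x)
  exact h.isCoinducing.locallyConnectedSpace

instance : LocallyConnectedSpace K := by
  have hc : Continuous (fun p => (⟨κ p, ⟨p, rfl⟩⟩ : K)) := continuous_κ.subtype_mk _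
  have hcl : IsClosedMap (fun p => (⟨κ p, ⟨p, rfl⟩⟩ : K)) := hc.isClosedMap
  have h : IsQuotientMap (fun p => (⟨κ p, ⟨p, rfl⟩⟩ : K)) := hcl.isQuotientMap hc (by
    rintro ⟨_, ⟨p, rfl⟩⟩
    exact ⟨p, rfl⟩)
  exact h.isCoinducing.locallyConnectedSpace

/-- A point with a given pair of positive coordinates lies on the corresponding edge. -/
theorem on_edge {y : Amb} (hy : y ∈ K) {i j : Fin 3} (h1 : 0 < y.1 i) (h2 : 0 < y.2 j) :
    ∃ s : unitInterval, y = κ (i, j, s) ∧ y.1 i = 1 - (s : ℝ) ∧ y.2 j = (s : ℝ) := by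
  obtain ⟨⟨i', j', s⟩, rfl⟩ := hy
  rw [κ1] at h1
  rw [κ2] at h2
  split_ifs at h1 with hi
  · split_ifs at h2 with hj
    · refine ⟨s, by rw [hi, hj], ?_, ?_⟩
      · rw [κ1, if_pos hi]
      · rw [κ2, if_pos hj]
    · exact absurd h2 (lt_irrefl _)
  · exact absurd h1 (lt_irrefl _)

theorem continuous_x (i : Fin 3) : Continuous (fun y : K => y.1.1 i) :=
  (continuous_apply i).comp (continuous_fst.comp continuous_subtype_val)

theorem continuous_y (j : Fin 3) : Continuous (fun y : K => y.1.2 j) :=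
  (continuous_apply j).comp (continuous_snd.comp continuous_subtype_val)

/-- Every nondegenerate connected subset of the graph has interior points. -/
theorem exists_interior {L : Set K} (hL : IsPreconnected L) (hnt : L.Nontrivial) :
    ∃ U : Set K, IsOpen U ∧ U.Nonempty ∧ U ⊆ L := by
  -- a point inside an edge
  have hinf := hL.infinite_of_nontrivial hnt
  obtain ⟨y, hyL, i, j, hy1, hy2⟩ : ∃ y ∈ L, ∃ i j, 0 < y.1.1 i ∧ 0 < y.1.2 j := by
    by_contra hcon
    push Not at hcon
    apply hinf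
    have hfin : (range (fun p : Fin 3 × Fin 3 × Bool =>
        (⟨κ (p.1, p.2.1, if p.2.2 then 1 else 0), mem_K _ _ _⟩ : K))).Finite := finite_range _
    apply hfin.subset
    rintro ⟨_, ⟨⟨i, j, s⟩, rfl⟩⟩ hz
    have h1 := hcon _ hz i j
    simp only [κ1, κ2, if_true] at h1
    by_cases hs : (s : ℝ) < 1
    · have h2 := h1 (by linarith)
      have h3 : s = 0 := le_antisymm h2 s.2.1
      exact ⟨(i, j, false), by simp [h3]⟩
    · have h3 : s = 1 := le_antisymm s.2.2 (not_lt.1 hs)
      exact ⟨(i, j, true), by simp [h3]⟩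
  obtain ⟨s0, hys, hs1, hs2⟩ := on_edge y.2 hy1 hy2
  obtain ⟨z, hzL, hzy⟩ := hnt.exists_ne y
  have hs0 : 0 < (s0 : ℝ) := by rw [← hs2]; exact hy2
  have hs0' : (s0 : ℝ) < 1 := by rw [hs1] at hy1; linarith
  -- distance of z
  obtain ⟨η, hη, hzη⟩ : ∃ η > 0, η ≤ |z.1.2 j - s0| ∨ η ≤ |z.1.1 i - (1 - s0)| := by
    by_cases h1 : z.1.2 j = s0
    · by_cases h2 : z.1.1 i = 1 - s0
      · exfalso
        apply hzy
        obtain ⟨s, hs, _, hs'⟩ := on_edge z.2 (i := i) (j := j) (by rw [h2]; linarith)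
          (by rw [h1]; exact hs0)
        have h3 : s = s0 := Subtype.ext (by rw [← hs', h1])
        apply Subtype.ext
        rw [hs, hys, h3]
      · exact ⟨_, abs_pos.2 (sub_ne_zero.2 h2), Or.inr le_rfl⟩
    · exact ⟨_, abs_pos.2 (sub_ne_zero.2 h1), Or.inl le_rfl⟩
  -- the two alternatives
  by_cases halt : (∃ u : ℝ, u < s0 ∧ ∀ s : unitInterval, u < s → (s : ℝ) < s0 →
      (⟨κ (i, j, s), mem_K i j s⟩ : K) ∈ L)
  · obtain ⟨u, hu, hu'⟩ := halt
    refine ⟨{w : K | 1 - (s0 : ℝ) < w.1.1 i ∧ max u 0 < w.1.2 j}, ?_, ?_, ?_⟩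
    · exact (isOpen_lt continuous_const (continuous_x i)).inter
        (isOpen_lt continuous_const (continuous_y j))
    · have hm : max u 0 < s0 := max_lt hu hs0
      obtain ⟨t, ht1, ht2⟩ := exists_between hm
      have ht0 : 0 ≤ t := (le_max_right u 0).trans ht1.le
      refine ⟨⟨κ (i, j, ⟨t, ht0, by linarith⟩), mem_K _ _ _⟩, ?_, ?_⟩
      · rw [κ1, if_pos rfl]; show 1 - (s0 : ℝ) < 1 - t; linarith
      · rw [κ2, if_pos rfl]; exact ht1
    · rintro w ⟨hw1, hw2⟩
      obtain ⟨s, hs, hs3, hs4⟩ := on_edge w.2 (i := i) (j := j) (by linarith)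
        ((le_max_right u 0).trans_lt hw2)
      have := hu' s (by rw [← hs4]; exact (le_max_left u 0).trans_lt hw2)
        (by rw [hs3] at hw1; linarith)
      have hw : w = ⟨κ (i, j, s), mem_K i j s⟩ := Subtype.ext hs
      rw [hw]; exact this
  by_cases halt' : (∃ v : ℝ, s0 < v ∧ ∀ s : unitInterval, (s0 : ℝ) < s → (s : ℝ) < v →
      (⟨κ (i, j, s), mem_K i j s⟩ : K) ∈ L)
  · obtain ⟨v, hv, hv'⟩ := halt'
    refine ⟨{w : K | max (1 - v) 0 < w.1.1 i ∧ (s0 : ℝ) < w.1.2 j}, ?_, ?_, ?_⟩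
    · exact (isOpen_lt continuous_const (continuous_x i)).inter
        (isOpen_lt continuous_const (continuous_y j))
    · have hm : (s0 : ℝ) < min v 1 := lt_min hv hs0'
      obtain ⟨t, ht1, ht2⟩ := exists_between hm
      have ht3 := ht2.trans_le (min_le_left v 1)
      have ht4 := ht2.trans_le (min_le_right v 1)
      refine ⟨⟨κ (i, j, ⟨t, by linarith, by linarith⟩), mem_K _ _ _⟩, ?_, ?_⟩
      · rw [κ1, if_pos rfl]
        show max (1 - v) 0 < 1 - t
        exact max_lt (by linarith) (by linarith)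
      · rw [κ2, if_pos rfl]; exact ht1
    · rintro w ⟨hw1, hw2⟩
      obtain ⟨s, hs, hs3, hs4⟩ := on_edge w.2 (i := i) (j := j)
        ((le_max_right _ 0).trans_lt hw1) (by linarith)
      have := hv' s (by rw [← hs4]; exact hw2)
        (by rw [hs3] at hw1; have := (le_max_left (1 - v) 0).trans_lt hw1; linarith)
      have hw : w = ⟨κ (i, j, s), mem_K i j s⟩ := Subtype.ext hs
      rw [hw]; exact this
  exfalso
  push Not at halt halt'
  obtain ⟨u, hu1, hu2, huL⟩ := halt (max (s0 - η) 0) (max_lt (by linarith) hs0)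
  obtain ⟨v, hv1, hv2, hvL⟩ := halt' (min (s0 + η) 1) (lt_min (by linarith) hs0')
  have hu3 := (le_max_left _ _).trans_lt hu1
  have hu4 := (le_max_right _ _).trans_lt hu1
  have hv3 := hv2.trans_le (min_le_left _ _)
  have hv4 := hv2.trans_le (min_le_right _ _)
  have hcl : IsClosed {w : K | 1 - (v : ℝ) ≤ w.1.1 i ∧ (u : ℝ) ≤ w.1.2 j} :=
    (isClosed_le continuous_const (continuous_x i)).inter
      (isClosed_le continuous_const (continuous_y j))
  have hop : IsOpen {w : K | 1 - (v : ℝ) < w.1.1 i ∧ (u : ℝ) < w.1.2 j} :=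
    (isOpen_lt continuous_const (continuous_x i)).inter
      (isOpen_lt continuous_const (continuous_y j))
  obtain ⟨w, hwL, hw1, hw2⟩ := hL _ _ hop hcl.isOpen_compl (by
      intro w hwL
      by_cases hw : w ∈ {w : K | 1 - (v : ℝ) ≤ w.1.1 i ∧ (u : ℝ) ≤ w.1.2 j}
      · left
        obtain ⟨hwa, hwb⟩ := hw
        obtain ⟨s, hs, hs3, hs4⟩ := on_edge w.2 (i := i) (j := j) (by linarith) (by linarith)
        refine ⟨lt_of_le_of_ne hwa ?_, lt_of_le_of_ne hwb ?_⟩
        · intro heq
          have : s = v := Subtype.ext (by rw [hs3] at heq; linarith)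
          apply hvL
          rw [← this]
          have hw' : w = ⟨κ (i, j, s), mem_K i j s⟩ := Subtype.ext hs
          rw [← hw']; exact hwL
        · intro heq
          have : s = u := Subtype.ext (by rw [hs4] at heq; linarith)
          apply huL
          rw [← this]
          have hw' : w = ⟨κ (i, j, s), mem_K i j s⟩ := Subtype.ext hs
          rw [← hw']; exact hwL
      · exact Or.inr hw)
    ⟨y, hyL, by rw [hs1]; linarith, by rw [hs2]; linarith⟩
    ⟨z, hzL, by
      rintro ⟨hz1, hz2⟩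
      obtain ⟨s, hs, hs3, hs4⟩ := on_edge z.2 (i := i) (j := j) (by linarith) (by linarith)
      have h5 : (s : ℝ) ≤ v := by rw [hs3] at hz1; linarith
      have h6 : (u : ℝ) ≤ s := by rw [hs4] at hz2; exact hz2
      rcases hzη with h | h
      · rw [hs4] at h
        have : |(s : ℝ) - s0| < η := abs_lt.2 ⟨by linarith, by linarith⟩
        linarith
      · rw [hs3] at h
        have : |1 - (s : ℝ) - (1 - s0)| < η := abs_lt.2 ⟨by linarith, by linarith⟩
        linarith⟩
  exact hw2 ⟨hw1.1.le, hw1.2.le⟩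

/-- No planar compactum has a monotone map onto `K_{3,3}`. -/
theorem no_planar {T : Type*} [TopologicalSpace T] [CompactSpace T] {X Y : T → ℝ}
    (hX : Continuous X) (hY : Continuous Y) (hinj : ∀ s t, X s = X t → Y s = Y t → s = t)
    {f : T → K} (hf : Continuous f) (hsurj : Function.Surjective f)
    (hmono : ∀ y, IsConnected (f ⁻¹' {y})) : False := by
  have hq : IsQuotientMap f := hf.isClosedMap.isQuotientMap hf hsurj
  have hpre : ∀ F : Set K, IsClosed F → IsConnected F → IsPreconnected (f ⁻¹' F) :=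
    fun F hF hFc => (hq.isCoinducing.isConnected_preimage_of_isClosed hmono hF hFc).isPreconnected
  set R : Fin 3 → Fin 3 → Set K := fun i j => {y | y.1.1 i + y.1.2 j = 1 ∧ 1 / 5 ≤ y.1.1 i} with hR
  set H : Fin 3 → Set K := fun j => {y | 7 / 10 ≤ y.1.2 j} with hH
  have hRcl : ∀ i j, IsClosed (R i j) := fun i j =>
    (isClosed_eq ((continuous_x i).add (continuous_y j)) continuous_const).inter
      (isClosed_le continuous_const (continuous_x i))
  have hHcl : ∀ j, IsClosed (H j) := fun j => isClosed_le continuous_const (continuous_y j)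
  have q : ∀ a : ℝ, 0 ≤ a → a ≤ 1 → a ∈ unitInterval := fun a h h' => ⟨h, h'⟩
  have hRe : ∀ i j, R i j = edge i j (Iic ⟨4 / 5, by norm_num, by norm_num⟩) := by
    intro i j
    ext y
    constructor
    · rintro ⟨h1, h2⟩
      obtain ⟨⟨i', j', s⟩, hs⟩ := y.2
      have hx : y.1.1 i = if i = i' then 1 - (s : ℝ) else 0 := by rw [← hs]; rfl
      have hy : y.1.2 j = if j = j' then (s : ℝ) else 0 := by rw [← hs]; rfl
      have hi : i = i' := by
        by_contra hne
        rw [if_neg hne] at hx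
        linarith
      rw [if_pos hi] at hx
      subst hi
      by_cases hj : j = j'
      · subst hj
        refine ⟨s, ?_, Subtype.ext hs⟩
        show (s : ℝ) ≤ 4 / 5
        linarith
      · rw [if_neg hj] at hy
        have hs0 : s = 0 := Subtype.ext (by show (s : ℝ) = 0; linarith)
        refine ⟨0, ?_, Subtype.ext ?_⟩
        · show (0 : ℝ) ≤ 4 / 5
          norm_num
        · show κ (i, j, 0) = y.1
          rw [← hs, hs0]
          exact κ_zero i j j'
    · rintro ⟨s, hs, rfl⟩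
      have hs' : (s : ℝ) ≤ 4 / 5 := hs
      constructor
      · show (κ (i, j, s)).1 i + (κ (i, j, s)).2 j = 1
        rw [κ1, κ2, if_pos rfl, if_pos rfl]
        ring
      · show 1 / 5 ≤ (κ (i, j, s)).1 i
        rw [κ1, if_pos rfl]
        linarith
  have hRc : ∀ i j, IsConnected (R i j) := by
    intro i j
    rw [hRe]
    exact ⟨⟨_, 0, (by show (0 : ℝ) ≤ 4 / 5; norm_num), rfl⟩, isPreconnected_edge isPreconnected_Iic⟩
  have hHc : ∀ j, IsConnected (H j) := by
    intro j
    have hone : (⟨κ (0, j, 1), mem_K _ _ _⟩ : K) ∈ H j := by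
      show 7 / 10 ≤ (κ (0, j, 1)).2 j
      rw [κ2, if_pos rfl]
      norm_num
    refine ⟨⟨_, hone⟩, isPreconnected_of_forall (⟨κ (0, j, 1), mem_K _ _ _⟩ : K) ?_⟩
    intro y hy
    have hy' : 7 / 10 ≤ y.1.2 j := hy
    obtain ⟨⟨i', j', s⟩, hs⟩ := y.2
    have hyj : y.1.2 j = if j = j' then (s : ℝ) else 0 := by rw [← hs]; rfl
    have hj : j = j' := by
      by_contra hne
      rw [if_neg hne] at hyj
      linarith
    subst hj
    rw [if_pos rfl] at hyj
    refine ⟨edge i' j (Ici ⟨7 / 10, by norm_num, by norm_num⟩), ?_, ?_, ?_, ?_⟩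
    · rintro _ ⟨t, ht, rfl⟩
      show 7 / 10 ≤ (κ (i', j, t)).2 j
      rw [κ2, if_pos rfl]
      exact ht
    · exact ⟨1, (by show (7 / 10 : ℝ) ≤ 1; norm_num), Subtype.ext (κ_one i' 0 j)⟩
    · exact ⟨s, (by show (7 / 10 : ℝ) ≤ s; linarith), Subtype.ext hs⟩
    · exact isPreconnected_edge isPreconnected_Ici
  have ht : ∀ i : Fin 3, ∃ t : T, f t = ⟨κ (i, 0, 0), mem_K _ _ _⟩ := fun i => hsurj _
  choose t ht using ht
  have hcoord : ∀ (y : K) (i i' : Fin 3), 0 < y.1.1 i → i ≠ i' → y.1.1 i' = 0 := by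
    intro y i i' h hne
    obtain ⟨⟨i0, j0, s⟩, hs⟩ := y.2
    have h1 : ∀ k, y.1.1 k = if k = i0 then 1 - (s : ℝ) else 0 := fun k => by rw [← hs]; rfl
    rw [h1] at h ⊢
    by_cases h2 : i = i0
    · rw [if_neg (fun h3 => hne (h2.trans h3.symm))]
    · rw [if_neg h2] at h; exact absurd h (lt_irrefl _)
  have hcoord2 : ∀ (y : K) (j j' : Fin 3), 0 < y.1.2 j → j ≠ j' → y.1.2 j' = 0 := by
    intro y j j' h hne
    obtain ⟨⟨i0, j0, s⟩, hs⟩ := y.2
    have h1 : ∀ k, y.1.2 k = if k = j0 then (s : ℝ) else 0 := fun k => by rw [← hs]; rfl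
    rw [h1] at h ⊢
    by_cases h2 : j = j0
    · rw [if_neg (fun h3 => hne (h2.trans h3.symm))]
    · rw [if_neg h2] at h; exact absurd h (lt_irrefl _)
  refine Disc.no_config hX hY hinj (fun i j => f ⁻¹' (R i j)) (fun j => f ⁻¹' (H j)) t
    (fun i j => (hRcl i j).preimage hf) (fun i j => hpre _ (hRcl i j) (hRc i j))
    (fun j => (hHcl j).preimage hf) (fun j => hpre _ (hHcl j) (hHc j)) ?_ ?_ ?_ ?_ ?_
  · intro i j
    show f (t i) ∈ R i j
    rw [ht, hRe]
    exact ⟨0, (by show (0 : ℝ) ≤ 4 / 5; norm_num), Subtype.ext (κ_zero i j 0)⟩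
  · intro i j
    obtain ⟨c, hc⟩ := hsurj ⟨κ (i, j, ⟨3 / 4, by norm_num, by norm_num⟩), mem_K _ _ _⟩
    refine ⟨c, ?_, ?_⟩
    · show f c ∈ R i j
      rw [hc, hRe]
      exact ⟨_, (by show (3 / 4 : ℝ) ≤ 4 / 5; norm_num), rfl⟩
    · show f c ∈ H j
      rw [hc]
      show 7 / 10 ≤ (κ (i, j, _)).2 j
      rw [κ2, if_pos rfl]
      norm_num
  · intro i j i' j' hne
    rw [disjoint_left]
    rintro c ⟨_, h1⟩ ⟨_, h2⟩
    have := hcoord (f c) i i' (by linarith) hne
    linarith
  · intro i j j' hne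
    rw [disjoint_left]
    rintro c ⟨h1, h1'⟩ h2
    have h2' : 7 / 10 ≤ (f c).1.2 j' := h2
    have := hcoord2 (f c) j' j (by linarith) (Ne.symm hne)
    -- then x = 1, impossible
    rw [this, add_zero] at h1
    obtain ⟨s, _, h5, h6⟩ := on_edge (f c).2 (i := i) (j := j') (by linarith) (by linarith)
    rw [h1] at h5
    rw [h6] at h2'
    linarith
  · intro j j' hne
    rw [disjoint_left]
    intro c h1 h2
    have h1' : 7 / 10 ≤ (f c).1.2 j := h1
    have h2' : 7 / 10 ≤ (f c).1.2 j' := h2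
    have := hcoord2 (f c) j j' (by linarith) hne
    linarith

end Pool.Agent.Helper300.K33Space
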