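import Mathlib
import Pool.Agent.Helper300.JonesT
import Pool.Agent.Helper300.Cont

open Set Topology TopologicalSpace

namespace Pool.Agent.Helper300.OrderArc

attribute [local instance] TopologicalSpace.vietoris

variable {X : Type*}

/-- maximal chains of sets with a given property -/
theorem exists_max_chain (p : Set X → Prop) :
    ∃ N : Set (Set X), (∀ K ∈ N, p K) ∧ (∀ K ∈ N, ∀ L ∈ N, K ⊆ L ∨ L ⊆ K) ∧
      ∀ M, p M → (∀ K ∈ N, K ⊆ M ∨ M ⊆ K) → M ∈ N := by
  obtain ⟨hc, hm⟩ := maxChain_spec (r := fun a b : {K : Set X // p K} => a.1 ⊆ b.1)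
  set C := maxChain (fun a b : {K : Set X // p K} => a.1 ⊆ b.1) with hC
  refine ⟨Subtype.val '' C, ?_, ?_, ?_⟩
  · rintro _ ⟨K, _, rfl⟩
    exact K.2
  · rintro _ ⟨K, hK, rfl⟩ _ ⟨L, hL, rfl⟩
    by_cases h : K = L
    · rw [h]; exact Or.inl Subset.rfl
    · exact hc hK hL h
  · intro M hM hcomp
    have h1 : IsChain (fun a b : {K : Set X // p K} => a.1 ⊆ b.1) (insert ⟨M, hM⟩ C) := by
      apply hc.insert
      intro K hK _
      exact (hcomp K.1 ⟨K, hK, rfl⟩).symm
    have h2 := hm h1 (subset_insert _ _)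
    refine ⟨⟨M, hM⟩, ?_, rfl⟩
    rw [h2]
    exact mem_insert _ _

/-- A size function on closed sets. -/
theorem exists_size [TopologicalSpace X] [SecondCountableTopology X] :
    ∃ ω : Set X → ℝ, ∀ K L : Set X, IsClosed K → K ⊂ L → ω K < ω L := by
  by_cases hX : Nonempty X
  swap
  · refine ⟨fun _ => 0, fun K L _ h => ?_⟩
    obtain ⟨x, _⟩ := Set.exists_of_ssubset h
    exact absurd ⟨x⟩ hX
  obtain ⟨b, hbc, -, hb⟩ := exists_countable_basis X
  have hbne : b.Nonempty := by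
    rw [Set.nonempty_iff_ne_empty]
    rintro rfl
    obtain ⟨x⟩ := hX
    obtain ⟨v, hv, _⟩ := hb.exists_subset_of_mem_open (mem_univ x) isOpen_univ
    exact hv
  obtain ⟨B, hB⟩ := hbc.exists_eq_range hbne
  classical
  refine ⟨fun K => ∑' n, if (B n ∩ K).Nonempty then (1 / 2 : ℝ) ^ n else 0, fun K L hK h => ?_⟩
  obtain ⟨x, hxL, hxK⟩ := Set.exists_of_ssubset h
  obtain ⟨v, hv, hxv, hvK⟩ := hb.exists_subset_of_mem_open (show x ∈ Kᶜ from hxK) hK.isOpen_compl
  rw [hB] at hv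
  obtain ⟨n, rfl⟩ := hv
  have hs : ∀ K : Set X, Summable (fun n => if (B n ∩ K).Nonempty then (1 / 2 : ℝ) ^ n else 0) := by
    intro K
    apply Summable.of_nonneg_of_le _ _ summable_geometric_two
    · intro m
      split_ifs
      · positivity
      · exact le_rfl
    · intro m
      split_ifs
      · exact le_rfl
      · positivity
  apply Summable.tsum_lt_tsum (i := n) _ _ (hs K) (hs L)
  · intro m
    by_cases h1 : (B m ∩ K).Nonempty
    · have h2 : (B m ∩ L).Nonempty := h1.mono (inter_subset_inter_right _ h.1)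
      simp only [h1, h2, if_true]
      exact le_rfl
    · simp only [h1, if_false]
      split_ifs
      · positivity
      · exact le_rfl
  · have h1 : ¬ (B n ∩ K).Nonempty := by
      rintro ⟨y, hy1, hy2⟩
      exact hvK hy1 hy2
    have h2 : (B n ∩ L).Nonempty := ⟨x, hxv, hxL⟩
    simp only [h1, h2, if_true, if_false]
    positivity

variable [TopologicalSpace X] [CompactSpace X] [T2Space X]

/-- Between two nested continua there is a third one. -/
theorem insertion {K L : Set X} (hK : IsClosed K) (hKc : IsConnected K) (hL : IsClosed L)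
    (hLc : IsConnected L) (h : K ⊂ L) :
    ∃ M, IsClosed M ∧ IsConnected M ∧ K ⊂ M ∧ M ⊂ L := by
  obtain ⟨y, hyL, hyK⟩ := Set.exists_of_ssubset h
  obtain ⟨V, hV, hKV, hVy⟩ := normal_exists_closure_subset hK (isOpen_compl_singleton (x := y))
    (fun x hx hxy => hyK (by rw [← (hxy : x = y)]; exact hx))
  obtain ⟨k, hk⟩ := hKc.nonempty
  have hKA : K ⊆ L ∩ closure V := fun x hx => ⟨h.1 hx, subset_closure (hKV hx)⟩
  have hkA : k ∈ L ∩ closure V := hKA hk
  have hKM : K ⊆ connectedComponentIn (L ∩ closure V) k :=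
    hKc.isPreconnected.subset_connectedComponentIn hk hKA
  have hyV : y ∉ closure V := fun hy => hVy hy rfl
  refine ⟨connectedComponentIn (L ∩ closure V) k, ?_, ?_, ?_, ?_⟩
  · exact JonesT.isClosed_connectedComponentIn (hL.inter isClosed_closure) k
  · exact isConnected_connectedComponentIn_iff.2 hkA
  · refine ⟨hKM, fun hMK => ?_⟩
    obtain ⟨C, hC1, hC2, hkC, c, hcC, hcV⟩ := JonesT.boundary_bump hL hLc.isPreconnected
      (isClosed_closure (s := V)).isOpen_compl ⟨y, hyL, hyV⟩ (y := k)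
      ⟨hkA.1, fun hn => hn hkA.2⟩
    have hCA : C ⊆ L ∩ closure V := fun x hx => ⟨(hC1 hx).1, not_not.1 (hC1 hx).2⟩
    have hCM : C ⊆ connectedComponentIn (L ∩ closure V) k :=
      hC2.subset_connectedComponentIn hkC hCA
    have hcVc : c ∈ Vᶜ := by
      have : closure (closure V)ᶜ ⊆ Vᶜ :=
        closure_minimal (compl_subset_compl.2 subset_closure) hV.isClosed_compl
      exact this hcV
    exact hcVc (hKV (hMK (hCM hcC)))
  · refine ⟨(connectedComponentIn_subset _ _).trans inter_subset_left, fun hLM => ?_⟩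
    exact hyV (connectedComponentIn_subset _ _ (hLM hyL)).2

/-- Order arcs, without the parametrisation. -/
theorem order_arc_aux {P : Set X} (hP : IsClosed P) (hPc : IsConnected P) {b : X} (hb : b ∈ P)
    (ω : Set X → ℝ) (hω : ∀ K L : Set X, IsClosed K → K ⊂ L → ω K < ω L) :
    ∃ β : ℝ → Set X, Continuous β ∧ (∀ t < ω {b}, β t = {b}) ∧ β (ω P) = P ∧
      ∀ t, IsClosed (β t) ∧ (β t).Nonempty ∧ β t ⊆ P := by
  obtain ⟨N, hN1, hN2, hN3⟩ := exists_max_chain
    (fun K : Set X => IsClosed K ∧ IsConnected K ∧ b ∈ K ∧ K ⊆ P)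
  have hbN : {b} ∈ N := by
    apply hN3 _ ⟨isClosed_singleton, isConnected_singleton, rfl, singleton_subset_iff.2 hb⟩
    intro K hK
    exact Or.inr (singleton_subset_iff.2 (hN1 K hK).2.2.1)
  have hPN : P ∈ N := hN3 _ ⟨hP, hPc, hb, Subset.rfl⟩ fun K hK => Or.inl (hN1 K hK).2.2.2
  have hss : ∀ K ∈ N, ∀ L ∈ N, ¬ L ⊆ K → K ⊂ L := fun K hK L hL h =>
    ⟨(hN2 K hK L hL).resolve_right h, h⟩
  have hωN : ∀ K ∈ N, ∀ L ∈ N, ω K ≤ ω L → K ⊆ L := by
    intro K hK L hL h
    by_contra hn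
    exact absurd (hω L K (hN1 L hL).1 (hss L hL K hK hn)) (not_lt.2 h)
  -- closure of unions
  have hsup : ∀ S ⊆ N, S.Nonempty → closure (⋃₀ S) ∈ N := by
    intro S hS hSne
    obtain ⟨s0, hs0⟩ := hSne
    apply hN3
    · refine ⟨isClosed_closure, ⟨⟨b, subset_closure ⟨s0, hs0, (hN1 s0 (hS hs0)).2.2.1⟩⟩, ?_⟩,
        subset_closure ⟨s0, hs0, (hN1 s0 (hS hs0)).2.2.1⟩, ?_⟩
      · exact (isPreconnected_sUnion b _ (fun s hs => (hN1 s (hS hs)).2.2.1)
          (fun s hs => (hN1 s (hS hs)).2.1.isPreconnected)).closure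
      · exact closure_minimal (sUnion_subset fun s hs => (hN1 s (hS hs)).2.2.2) hP
    · intro K hK
      by_cases h : ∀ s ∈ S, s ⊆ K
      · exact Or.inr (closure_minimal (sUnion_subset h) (hN1 K hK).1)
      · push Not at h
        obtain ⟨s, hs, hsK⟩ := h
        left
        have := (hN2 K hK s (hS hs)).resolve_right hsK
        exact this.trans ((subset_sUnion_of_mem hs).trans subset_closure)
  have hinf : ∀ S ⊆ N, S.Nonempty → ⋂₀ S ∈ N := by
    intro S hS hSne
    apply hN3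
    · refine ⟨isClosed_sInter fun s hs => (hN1 s (hS hs)).1, ⟨⟨b, fun s hs =>
        (hN1 s (hS hs)).2.2.1⟩, ?_⟩, fun s hs => (hN1 s (hS hs)).2.2.1, ?_⟩
      · apply Cont.isPreconnected_sInter _ hSne (fun s hs => (hN1 s (hS hs)).1.isCompact)
          (fun s hs => (hN1 s (hS hs)).2.1.isPreconnected)
        intro s hs t ht _
        exact hN2 s (hS hs) t (hS ht)
      · obtain ⟨s0, hs0⟩ := hSne
        exact (sInter_subset_of_mem hs0).trans (hN1 s0 (hS hs0)).2.2.2
    · intro K hK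
      by_cases h : ∀ s ∈ S, K ⊆ s
      · exact Or.inl (subset_sInter h)
      · push Not at h
        obtain ⟨s, hs, hsK⟩ := h
        right
        have := (hN2 K hK s (hS hs)).resolve_left hsK
        exact (sInter_subset_of_mem hs).trans this
  have hdense : ∀ K ∈ N, ∀ L ∈ N, K ⊂ L → ∃ M ∈ N, K ⊂ M ∧ M ⊂ L := by
    intro K hK L hL h
    by_contra hcon
    push Not at hcon
    obtain ⟨M, hM1, hM2, hM3, hM4⟩ := insertion (hN1 K hK).1 (hN1 K hK).2.1 (hN1 L hL).1
      (hN1 L hL).2.1 h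
    have hMN : M ∈ N := by
      apply hN3 M ⟨hM1, hM2, hM3.1 (hN1 K hK).2.2.1, hM4.1.trans (hN1 L hL).2.2.2⟩
      intro J hJ
      by_cases hJK : J ⊆ K
      · exact Or.inl (hJK.trans hM3.1)
      by_cases hLJ : L ⊆ J
      · exact Or.inr (hM4.1.trans hLJ)
      · exact absurd (hss J hJ L hL hLJ) (hcon J hJ (hss K hK J hJ hJK))
    exact hcon M hMN hM3 hM4
  have hm2 : ∀ K ∈ N, K ≠ P → ∀ U : Set X, IsOpen U → K ⊆ U → ∃ L ∈ N, K ⊂ L ∧ L ⊆ U := by
    intro K hK hKP U hU hKU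
    have hSne : {L ∈ N | K ⊂ L}.Nonempty :=
      ⟨P, hPN, (hN1 K hK).2.2.2, fun h => hKP (Subset.antisymm (hN1 K hK).2.2.2 h)⟩
    have hM := hinf {L ∈ N | K ⊂ L} (sep_subset _ _) hSne
    have hKM : K ⊆ ⋂₀ {L ∈ N | K ⊂ L} := subset_sInter fun L hL => hL.2.1
    have hMK : ⋂₀ {L ∈ N | K ⊂ L} ⊆ K := by
      by_contra hn
      obtain ⟨J, hJN, hJ1, hJ2⟩ := hdense K hK _ hM ⟨hKM, hn⟩
      exact hJ2.2 (sInter_subset_of_mem ⟨hJN, hJ1⟩)
    have hne : Nonempty {L ∈ N | K ⊂ L} := hSne.to_subtype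
    obtain ⟨⟨L, hL⟩, hLU⟩ := exists_subset_nhds_of_isCompact'
      (V := fun s : {L ∈ N | K ⊂ L} => (s : Set X))
      (by
        intro a c
        rcases hN2 a.1 a.2.1 c.1 c.2.1 with h | h
        · exact ⟨a, Subset.rfl, h⟩
        · exact ⟨c, h, Subset.rfl⟩)
      (fun s => (hN1 s.1 s.2.1).1.isCompact) (fun s => (hN1 s.1 s.2.1).1) (U := U)
      (fun z hz => by
        apply hU.mem_nhds
        apply hKU
        apply hMK
        rw [sInter_eq_iInter]
        exact hz)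
    exact ⟨L, hL.1, hL.2, hLU⟩
  have hm3 : ∀ K ∈ N, K ≠ {b} → ∀ U : Set X, IsOpen U → (K ∩ U).Nonempty →
      ∃ L ∈ N, L ⊂ K ∧ (L ∩ U).Nonempty := by
    intro K hK hKb U hU hKU
    have hSne : {L ∈ N | L ⊂ K}.Nonempty :=
      ⟨{b}, hbN, singleton_subset_iff.2 (hN1 K hK).2.2.1, fun h => hKb (Subset.antisymm h
        (singleton_subset_iff.2 (hN1 K hK).2.2.1))⟩
    have hM := hsup {L ∈ N | L ⊂ K} (sep_subset _ _) hSne
    have hMK : closure (⋃₀ {L ∈ N | L ⊂ K}) ⊆ K :=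
      closure_minimal (sUnion_subset fun L hL => hL.2.1) (hN1 K hK).1
    have hKM : K ⊆ closure (⋃₀ {L ∈ N | L ⊂ K}) := by
      by_contra hn
      obtain ⟨J, hJN, hJ1, hJ2⟩ := hdense _ hM K hK ⟨hMK, hn⟩
      have hJm : J ∈ {L ∈ N | L ⊂ K} := ⟨hJN, hJ2⟩
      exact hJ1.2 ((subset_sUnion_of_mem hJm).trans subset_closure)
    obtain ⟨x, hxK, hxU⟩ := hKU
    obtain ⟨y, hyU, L, hL, hyL⟩ := mem_closure_iff.1 (hKM hxK) U hU hxU
    exact ⟨L, hL.1, hL.2, y, hyL, hyU⟩
  -- the parametrisation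
  set β : ℝ → Set X := fun t => closure (⋃₀ (insert {b} {K ∈ N | ω K ≤ t})) with hβ
  have hβN : ∀ t, β t ∈ N := fun t => hsup _
    (insert_subset hbN (sep_subset _ _)) (insert_nonempty _ _)
  have hβle : ∀ t, ∀ K ∈ N, ω K ≤ t → K ⊆ β t := by
    intro t K hK h
    have hKm : K ∈ {K ∈ N | ω K ≤ t} := ⟨hK, h⟩
    exact (subset_sUnion_of_mem (mem_insert_of_mem _ hKm)).trans subset_closure
  have hβub : ∀ t, ∀ L ∈ N, t ≤ ω L → β t ⊆ L := by
    intro t L hL h
    apply closure_minimal _ (hN1 L hL).1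
    apply sUnion_subset
    rintro K (rfl | hK)
    · exact singleton_subset_iff.2 (hN1 L hL).2.2.1
    · exact hωN K hK.1 L hL (hK.2.trans h)
  refine ⟨β, ?_, ?_, ?_, ?_⟩
  · rw [continuous_generateFrom_iff]
    rintro _ (⟨U, hU, rfl⟩ | ⟨U, hU, rfl⟩)
    · rw [isOpen_iff_mem_nhds]
      intro s hs
      have hs' : β s ⊆ U := hs
      by_cases hsP : β s = P
      · filter_upwards with r
        exact ((hN1 _ (hβN r)).2.2.2.trans hsP.symm.subset).trans hs'
      · obtain ⟨L, hLN, hL1, hL2⟩ := hm2 _ (hβN s) hsP U hU hs'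
        have hsL : s < ω L := by
          by_contra hn
          exact hL1.2 (hβle s L hLN (not_lt.1 hn))
        filter_upwards [Iio_mem_nhds hsL] with r hr
        exact (hβub r L hLN (le_of_lt hr)).trans hL2
    · rw [isOpen_iff_mem_nhds]
      intro s hs
      have hs' : (β s ∩ U).Nonempty := hs
      by_cases hsb : β s = {b}
      · filter_upwards with r
        obtain ⟨x, hx, hxU⟩ := hs'
        rw [hsb] at hx
        rw [(hx : x = b)] at hxU
        exact ⟨b, (hN1 _ (hβN r)).2.2.1, hxU⟩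
      · obtain ⟨L, hLN, hL1, hL2⟩ := hm3 _ (hβN s) hsb U hU hs'
        have hsL : ω L < s := by
          by_contra hn
          exact hL1.2 (hβub s L hLN (not_lt.1 hn))
        filter_upwards [Ioi_mem_nhds hsL] with r hr
        exact hL2.mono (inter_subset_inter_left _ (hβle r L hLN (le_of_lt hr)))
  · intro t ht
    apply Subset.antisymm
    · exact hβub t _ hbN ht.le
    · exact singleton_subset_iff.2 (hN1 _ (hβN t)).2.2.1
  · exact Subset.antisymm (hN1 _ (hβN _)).2.2.2 (hβle _ P hPN le_rfl)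
  · intro t
    exact ⟨(hN1 _ (hβN t)).1, (hN1 _ (hβN t)).2.1.nonempty, (hN1 _ (hβN t)).2.2.2⟩

/-- Order arcs. -/
theorem order_arc [SecondCountableTopology X] {P : Set X} (hP : IsClosed P) (hPc : IsConnected P)
    {b : X} (hb : b ∈ P) :
    ∃ β : ℝ → Set X, Continuous β ∧ β 0 = {b} ∧ β 1 = P ∧
      ∀ t, IsClosed (β t) ∧ (β t).Nonempty ∧ β t ⊆ P := by
  obtain ⟨ω, hω⟩ := exists_size (X := X)
  obtain ⟨β, h1, h2, h3, h4⟩ := order_arc_aux hP hPc hb ω hω
  refine ⟨fun t => β ((ω {b} - 1) + t * (ω P - (ω {b} - 1))), ?_, ?_, ?_, ?_⟩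
  · exact h1.comp (by fun_prop)
  · show β _ = _
    rw [zero_mul, add_zero]
    exact h2 _ (by linarith)
  · show β _ = _
    rw [one_mul, add_sub_cancel]
    exact h3
  · exact fun t => h4 _

end Pool.Agent.Helper300.OrderArc
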