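import Mathlib

/-!
# Several triangle-free graphs on a columned set

Core of the proof of `ω₁² → (ω₁·ω, 3, …, 3)²`.
`P` is a set of points with a column map `col : P → L`, a *block* is an uncountable subset of one
column, and `ℓ` is a countably complete filter all of whose positive sets contain blocks.
-/

set_option autoImplicit false

namespace Pool.Agent.Helper300.Part

open Filter Set

/-- Dependent choice along a well-founded relation. -/
theorem wf_choice {J α : Type*} [Nonempty α] (lt : J → J → Prop) (hwf : WellFounded lt)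
    (good : J → α → Prop) (r : J → J → α → α → Prop)
    (h : ∀ ξ (x : J → α), (∀ η, lt η ξ → good η (x η)) →
      ∃ a, good ξ a ∧ ∀ η, lt η ξ → r η ξ (x η) a) :
    ∃ x : J → α, ∀ ξ, good ξ (x ξ) ∧ ∀ η, lt η ξ → r η ξ (x η) (x ξ) := by
  classical
  let F : (ξ : J) → ((η : J) → lt η ξ → α) → α := fun ξ prev =>
    Classical.epsilon (fun a => good ξ a ∧ ∀ η (hη : lt η ξ), r η ξ (prev η hη) a)
  let x : J → α := hwf.fix F
  have hx : ∀ ξ, x ξ = Classical.epsilon (fun a => good ξ a ∧ ∀ η, lt η ξ → r η ξ (x η) a) := by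
    intro ξ
    exact hwf.fix_eq F ξ
  refine ⟨x, fun ξ => ?_⟩
  induction ξ using hwf.induction with
  | _ ξ ih =>
    have h1 := h ξ x (fun η hη => (ih η hη).1)
    have h2 := Classical.epsilon_spec h1
    rw [← hx ξ] at h2
    exact h2

section guide

inductive Code
  | base : Code
  | pos (a b : Code) (s : ℕ) : Code
  | neg (a b : Code) (s : ℕ) : Code
  deriving Countable

variable {P : Type*}

def Code.eval (W : Set P) (Q : Set P → ℕ → P → Prop) : Code → Set P
  | .base => W
  | .pos a b s => b.eval W Q ∩ {y | Q (a.eval W Q) s y}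
  | .neg a b s => b.eval W Q ∩ {y | ¬ Q (a.eval W Q) s y}

/-- Guide lemma: a single point `z` together with a decreasing sequence of positive sets `B n`,
all of whose points eventually agree with `z` about every predicate attached to some `B n`. -/
theorem guide (ℓ : Filter P) [CountableInterFilter ℓ] (W : Set P) (hW : ∃ᶠ y in ℓ, y ∈ W)
    (Q : Set P → ℕ → P → Prop) (R : Set P → P → Prop) (hR : ∀ B, ∀ᶠ z in ℓ, R B z) :
    ∃ z, ∃ B : ℕ → Set P, (∀ n, B n ⊆ W) ∧ (∀ n, ∃ᶠ y in ℓ, y ∈ B n) ∧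
      (∀ n, R (B n) z) ∧ (∀ n m, n ≤ m → B m ⊆ B n) ∧
      ∀ n s, ∃ N, ∀ n', N ≤ n' → ∀ y ∈ B n', (Q (B n) s y ↔ Q (B n) s z) := by
  classical
  have e1 : ∀ c : Code, ∀ᶠ y in ℓ, (¬ ∃ᶠ y in ℓ, y ∈ c.eval W Q) → y ∉ c.eval W Q := by
    intro c
    by_cases h : ∃ᶠ y in ℓ, y ∈ c.eval W Q
    · exact Eventually.of_forall (fun y hy => absurd h hy)
    · rw [not_frequently] at h
      exact h.mono (fun y hy _ => hy)
  have e2 : ∀ᶠ y in ℓ, ∀ c : Code, ((¬ ∃ᶠ y in ℓ, y ∈ c.eval W Q) → y ∉ c.eval W Q) ∧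
      R (c.eval W Q) y := by
    rw [eventually_countable_forall]
    intro c
    exact (e1 c).and (hR _)
  obtain ⟨z, hzW, hz⟩ := (hW.and_eventually e2).exists
  have : Nonempty Code := ⟨.base⟩
  obtain ⟨p, hp⟩ := exists_surjective_nat (Code × ℕ)
  let C : ℕ → Code := fun n => Nat.rec .base (fun n c =>
    if Q ((p n).1.eval W Q) (p n).2 z then .pos (p n).1 c (p n).2 else .neg (p n).1 c (p n).2) n
  have hC : ∀ n, C (n+1) = if Q ((p n).1.eval W Q) (p n).2 z then .pos (p n).1 (C n) (p n).2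
      else .neg (p n).1 (C n) (p n).2 := fun n => rfl
  have hCs : ∀ n, (C (n+1)).eval W Q ⊆ (C n).eval W Q := by
    intro n
    rw [hC n]
    split_ifs
    · exact inter_subset_left
    · exact inter_subset_left
  have hmono : ∀ n m, n ≤ m → (C m).eval W Q ⊆ (C n).eval W Q := by
    intro n m hnm
    induction hnm with
    | refl => exact Subset.rfl
    | step _ ih => exact (hCs _).trans ih
  have hzC : ∀ n, z ∈ (C n).eval W Q := by
    intro n
    induction n with
    | zero => exact hzW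
    | succ n ih =>
      rw [hC n]
      split_ifs with h
      · exact ⟨ih, h⟩
      · exact ⟨ih, h⟩
  refine ⟨z, fun n => (C n).eval W Q, fun n => ?_, fun n => ?_, fun n => (hz (C n)).2, hmono, ?_⟩
  · exact hmono 0 n (Nat.zero_le n)
  · by_contra h
    exact (hz (C n)).1 h (hzC n)
  · intro n s
    obtain ⟨j, hj⟩ := hp (C n, s)
    refine ⟨j + 1, fun n' hn' y hy => ?_⟩
    have hy' := hmono (j+1) n' hn' hy
    rw [hC j] at hy'
    rw [hj] at hy'
    split_ifs at hy' with h
    · exact ⟨fun _ => h, fun _ => hy'.2⟩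
    · exact ⟨fun h' => absurd h' hy'.2, fun h' => absurd h' h⟩

end guide

section core

variable {P L ι : Type*}

/-- A block: an uncountable subset of one column. -/
def IsBlock (col : P → L) (V : Set P) : Prop := ¬ V.Countable ∧ ∃ a, ∀ y ∈ V, col y = a

/-- The set of colours alive in the system `(F, U)`. -/
def Alive (G : ι → P → P → Prop) (F : ℕ → Set P) (U : Ultrafilter ℕ) : Set ι :=
  {i | ∃ z, ∀ᶠ s in (U : Filter ℕ), ¬ (F s ∩ {y | G i z y}).Countable}

theorem IsBlock.mono {col : P → L} {V V' : Set P} (h : IsBlock col V) (hs : V' ⊆ V)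
    (hc : ¬ V'.Countable) : IsBlock col V' :=
  ⟨hc, h.2.imp fun _ ha y hy => ha y (hs hy)⟩

theorem Alive.mono {G : ι → P → P → Prop} {F F' : ℕ → Set P} {U : Ultrafilter ℕ}
    (h : ∀ s, F' s ⊆ F s) : Alive G F' U ⊆ Alive G F U := by
  rintro i ⟨z, hz⟩
  refine ⟨z, hz.mono fun s hs hc => hs (hc.mono ?_)⟩
  exact inter_subset_inter_left _ (h s)

/-- The possible sets of alive colours for systems inside `W`. -/
def Spec (col : P → L) (G : ι → P → P → Prop) (W : Set P) : Set (Set ι) :=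
  {A | ∃ (F : ℕ → Set P) (U : Ultrafilter ℕ), (∀ s, IsBlock col (F s) ∧ F s ⊆ W) ∧ Alive G F U = A}

theorem Spec.mono {col : P → L} {G : ι → P → P → Prop} {W W' : Set P} (h : W' ⊆ W) :
    Spec col G W' ⊆ Spec col G W := by
  rintro A ⟨F, U, h1, h2⟩
  exact ⟨F, U, fun s => ⟨(h1 s).1, (h1 s).2.trans h⟩, h2⟩

/-- Composite ultrafilter. -/
noncomputable def compU (V : Ultrafilter ℕ) (U : ℕ → Ultrafilter ℕ) : Ultrafilter ℕ :=
  Ultrafilter.bind V (fun n => (U n).map (Nat.pair n))

theorem eventually_compU (V : Ultrafilter ℕ) (U : ℕ → Ultrafilter ℕ) (p : ℕ → Prop) :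
    (∀ᶠ t in (compU V U : Filter ℕ), p t) ↔
      ∀ᶠ n in (V : Filter ℕ), ∀ᶠ s in (U n : Filter ℕ), p (Nat.pair n s) := by
  rfl

variable [Finite ι]

/-- Stabilisation: a positive set `W` and a colour set `S` such that every positive subset of `W`
contains a system with alive colour set exactly `S`, and no system in `W` has a strictly smaller
alive colour set. -/
theorem exists_stable (col : P → L) (G : ι → P → P → Prop) (ℓ : Filter P) [NeBot ℓ]
    (h2 : ∀ W : Set P, (∃ᶠ y in ℓ, y ∈ W) → ∃ V ⊆ W, IsBlock col V) :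
    ∃ (W : Set P) (S : Set ι), (∃ᶠ y in ℓ, y ∈ W) ∧
      (∀ B : Set P, (∃ᶠ y in ℓ, y ∈ B) → B ⊆ W → ∃ (F : ℕ → Set P) (U : Ultrafilter ℕ),
        (∀ s, IsBlock col (F s) ∧ F s ⊆ B) ∧ Alive G F U = S) ∧
      (∀ (F : ℕ → Set P) (U : Ultrafilter ℕ), (∀ s, IsBlock col (F s) ∧ F s ⊆ W) →
        Alive G F U ⊆ S → Alive G F U = S) := by
  classical
  -- choose `W` with the least number of possible spectra
  have hne : ∃ n : ℕ, ∃ W : Set P, (∃ᶠ y in ℓ, y ∈ W) ∧ (Spec col G W).ncard = n :=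
    ⟨_, univ, Eventually.frequently (Eventually.of_forall fun y => mem_univ y), rfl⟩
  obtain ⟨W, hW, hWn⟩ := Nat.find_spec hne
  have hmin : ∀ B : Set P, (∃ᶠ y in ℓ, y ∈ B) → B ⊆ W → Spec col G B = Spec col G W := by
    intro B hB hBW
    apply Set.eq_of_subset_of_ncard_le (Spec.mono hBW) _ (Set.toFinite _)
    rw [hWn]
    exact Nat.find_min' hne ⟨B, hB, rfl⟩
  -- choose `S` of least cardinality in the spectrum
  obtain ⟨V, hVW, hV⟩ := h2 W hW
  have hne2 : ∃ n : ℕ, ∃ S ∈ Spec col G W, S.ncard = n :=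
    ⟨_, _, ⟨fun _ => V, (pure 0 : Ultrafilter ℕ), fun s => ⟨hV, hVW⟩, rfl⟩, rfl⟩
  obtain ⟨S, hS, hSn⟩ := Nat.find_spec hne2
  refine ⟨W, S, hW, ?_, ?_⟩
  · intro B hB hBW
    have := hmin B hB hBW
    rw [← this] at hS
    exact hS
  · intro F U hF hsub
    apply Set.eq_of_subset_of_ncard_le hsub _ (Set.toFinite _)
    rw [hSn]
    exact Nat.find_min' hne2 ⟨_, ⟨F, U, hF, rfl⟩, rfl⟩

omit [Finite ι] in
/-- Refining a system through a finite set of alive colours. -/
theorem refine_colours (col : P → L) (G : ι → P → P → Prop) (W : Set P) (S : Set ι)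
    (hmin : ∀ (F : ℕ → Set P) (U : Ultrafilter ℕ), (∀ s, IsBlock col (F s) ∧ F s ⊆ W) →
        Alive G F U ⊆ S → Alive G F U = S)
    (F : ℕ → Set P) (U : Ultrafilter ℕ) (hF : ∀ s, IsBlock col (F s) ∧ F s ⊆ W)
    (hA : Alive G F U ⊆ S) (z0 : P) (T : Finset ι) (hT : ↑T ⊆ S) :
    ∃ (F' : ℕ → Set P) (z : ι → P), (∀ s, IsBlock col (F' s) ∧ F' s ⊆ F s) ∧
      ∀ᶠ s in (U : Filter ℕ), ∀ i ∈ T, F' s ⊆ {y | G i (z i) y} := by
  classical
  induction T using Finset.induction_on with
  | empty => exact ⟨F, fun _ => z0, fun s => ⟨(hF s).1, Subset.rfl⟩, by simp⟩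
  | insert j T hj ih =>
    obtain ⟨F', z, hF', hz⟩ := ih (fun i hi => hT (Finset.mem_insert_of_mem hi))
    have hF'W : ∀ s, IsBlock col (F' s) ∧ F' s ⊆ W := fun s => ⟨(hF' s).1, (hF' s).2.trans (hF s).2⟩
    have hA' : Alive G F' U = S := hmin F' U hF'W ((Alive.mono fun s => (hF' s).2).trans hA)
    have hjS : j ∈ Alive G F' U := by rw [hA']; exact hT (Finset.mem_insert_self j T)
    obtain ⟨w, hw⟩ := hjS
    refine ⟨fun s => if (F' s ∩ {y | G j w y}).Countable then F' s else F' s ∩ {y | G j w y},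
      Function.update z j w, fun s => ?_, ?_⟩
    · dsimp only
      split_ifs with h
      · exact hF' s
      · exact ⟨(hF' s).1.mono inter_subset_left h, inter_subset_left.trans (hF' s).2⟩
    · filter_upwards [hz, hw] with s hs1 hs2 i hi
      rw [if_neg hs2]
      rcases Finset.mem_insert.1 hi with rfl | hi'
      · rw [Function.update_self]; exact inter_subset_right
      · have hne : i ≠ j := fun h => hj (h ▸ hi')
        rw [Function.update_of_ne hne]
        exact inter_subset_left.trans (hs1 i hi')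

/-- The main combinatorial theorem: a sequence of blocks in increasing columns such that every
point has only countably many neighbours in each of the earlier blocks. -/
theorem exists_good [LinearOrder L] (col : P → L) (G : ι → P → P → Prop) (ℓ : Filter P)
    [CountableInterFilter ℓ] [NeBot ℓ] (h1 : ∀ a, ∀ᶠ y in ℓ, a < col y)
    (h2 : ∀ W : Set P, (∃ᶠ y in ℓ, y ∈ W) → ∃ V ⊆ W, IsBlock col V)
    (ht : ∀ i x y z, G i x y → G i y z → G i x z → False) :
    ∃ V : ℕ → Set P, (∀ n, IsBlock col (V n)) ∧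
      (∀ l j, l < j → ∀ x ∈ V l, ∀ y ∈ V j, col x < col y) ∧
      (∀ l j, l < j → ∀ y ∈ V j, ∀ i, (V l ∩ {x | G i y x}).Countable) := by
  classical
  obtain ⟨W, S, hW, hSa, hSmin⟩ := exists_stable col G ℓ h2
  have hch : ∀ B : Set P, ∃ (F : ℕ → Set P) (U : Ultrafilter ℕ),
      ((∃ᶠ y in ℓ, y ∈ B) → B ⊆ W → (∀ s, IsBlock col (F s) ∧ F s ⊆ B) ∧ Alive G F U = S) := by
    intro B
    by_cases h : (∃ᶠ y in ℓ, y ∈ B) ∧ B ⊆ W
    · obtain ⟨F, U, h1, h2⟩ := hSa B h.1 h.2
      exact ⟨F, U, fun _ _ => ⟨h1, h2⟩⟩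
    · exact ⟨fun _ => ∅, (pure 0 : Ultrafilter ℕ), fun h1 h2 => absurd ⟨h1, h2⟩ h⟩
  choose FB UB hFB using hch
  obtain ⟨z, B, hBW, hBbig, hR, hBmono, hQ⟩ := guide ℓ W hW
    (fun B s y => (∀ i, i ∉ S → (FB B s ∩ {x | G i y x}).Countable) ∧ ∀ x ∈ FB B s, col x < col y)
    (fun B z => ∀ s, IsBlock col (FB B s) → ∀ x ∈ FB B s, col x < col z)
    (by
      intro B
      rw [eventually_countable_forall]
      intro s
      by_cases hb : IsBlock col (FB B s)
      · obtain ⟨a, ha⟩ := hb.2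
        filter_upwards [h1 a] with z hz _ x hx
        rw [ha x hx]; exact hz
      · exact Eventually.of_forall fun z h => absurd h hb)
  have hF := fun n => hFB (B n) (hBbig n) (hBW n)
  -- the composite system
  let V0 : Ultrafilter ℕ := Filter.hyperfilter ℕ
  let U : Ultrafilter ℕ := compU V0 (fun n => UB (B n))
  let F : ℕ → Set P := fun t => FB (B t.unpair.1) t.unpair.2
  have hFW : ∀ s, IsBlock col (F s) ∧ F s ⊆ W := fun s =>
    ⟨((hF s.unpair.1).1 s.unpair.2).1, ((hF s.unpair.1).1 s.unpair.2).2.trans (hBW _)⟩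
  have hA : Alive G F U ⊆ S := by
    rintro i ⟨w, hw⟩
    rw [eventually_compU] at hw
    obtain ⟨n, hn⟩ := hw.exists
    rw [← (hF n).2]
    refine ⟨w, hn.mono fun s hs => ?_⟩
    simpa [F] using hs
  have hSfin : S.Finite := Set.toFinite S
  obtain ⟨F', zz, hF', hz'⟩ := refine_colours col G W S hSmin F U hFW hA z hSfin.toFinset (by simp)
  rw [eventually_compU] at hz'
  -- the guide point sees almost every block well
  have hX : ∀ n, ∀ᶠ s in (UB (B n) : Filter ℕ),
      (∀ i, i ∉ S → (FB (B n) s ∩ {x | G i z x}).Countable) ∧ ∀ x ∈ FB (B n) s, col x < col z := by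
    intro n
    apply Eventually.and
    · rw [eventually_all]
      intro i
      by_cases hi : i ∈ S
      · exact Eventually.of_forall fun s h => absurd hi h
      · have : ¬ ∀ᶠ s in (UB (B n) : Filter ℕ), ¬ (FB (B n) s ∩ {y | G i z y}).Countable := by
          intro h
          apply hi
          rw [← (hF n).2]
          exact ⟨z, h⟩
        rw [Ultrafilter.eventually_not, not_not] at this
        exact this.mono fun s hs _ => hs
    · exact Eventually.of_forall fun s => hR n s ((hF n).1 s).1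
  have hgood : ∃ᶠ n in atTop, ∃ s, (∀ i ∈ S, F' (Nat.pair n s) ⊆ {y | G i (zz i) y}) ∧
      ((∀ i, i ∉ S → (FB (B n) s ∩ {x | G i z x}).Countable) ∧
        ∀ x ∈ FB (B n) s, col x < col z) := by
    have h3 : ∀ᶠ n in (V0 : Filter ℕ), ∃ s, (∀ i ∈ S, F' (Nat.pair n s) ⊆ {y | G i (zz i) y}) ∧
      ((∀ i, i ∉ S → (FB (B n) s ∩ {x | G i z x}).Countable) ∧
        ∀ x ∈ FB (B n) s, col x < col z) := by
      filter_upwards [hz'] with n hn
      obtain ⟨s, hs1, hs2⟩ := (hn.and (hX n)).exists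
      exact ⟨s, fun i hi => hs1 i (hSfin.mem_toFinset.2 hi), hs2⟩
    have h4 := h3.frequently
    rw [← Nat.cofinite_eq_atTop]
    exact h4.filter_mono Filter.hyperfilter_le_cofinite
  -- choose the sequence
  rw [frequently_atTop] at hgood
  choose m hm s hs1 hs2 using hgood
  choose N hN using hQ
  let a : ℕ → ℕ := fun j => Nat.rec 0 (fun _ x => m x + 1 + N (m x) (s x)) j
  have ha : ∀ j, a (j+1) = m (a j) + 1 + N (m (a j)) (s (a j)) := fun j => rfl
  have hamono : Monotone a := by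
    refine monotone_nat_of_le_succ fun j => ?_
    have := hm (a j)
    rw [ha j]; omega
  have hkey : ∀ l j, l < j → N (m (a l)) (s (a l)) ≤ m (a j) := by
    intro l j hlj
    have e1 : a (l+1) ≤ a j := hamono hlj
    have e2 := hm (a j)
    rw [ha l] at e1
    omega
  have hsub : ∀ j, F' (Nat.pair (m (a j)) (s (a j))) ⊆ FB (B (m (a j))) (s (a j)) := by
    intro j
    have := (hF' (Nat.pair (m (a j)) (s (a j)))).2
    simpa [F] using this
  have hQ' : ∀ l j, l < j → ∀ y ∈ F' (Nat.pair (m (a j)) (s (a j))),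
      (∀ i, i ∉ S → (FB (B (m (a l))) (s (a l)) ∩ {x | G i y x}).Countable) ∧
        ∀ x ∈ FB (B (m (a l))) (s (a l)), col x < col y := by
    intro l j hlj y hy
    have hyB : y ∈ B (m (a j)) := ((hF (m (a j))).1 (s (a j))).2 (hsub j hy)
    exact (hN (m (a l)) (s (a l)) (m (a j)) (hkey l j hlj) y hyB).2 (hs2 (a l))
  refine ⟨fun j => F' (Nat.pair (m (a j)) (s (a j))), fun j => (hF' _).1, ?_, ?_⟩
  · intro l j hlj x hx y hy
    exact (hQ' l j hlj y hy).2 x (hsub l hx)
  · intro l j hlj y hy i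
    by_cases hi : i ∈ S
    · have : F' (Nat.pair (m (a l)) (s (a l))) ∩ {x | G i y x} = ∅ := by
        rw [Set.eq_empty_iff_forall_notMem]
        rintro x ⟨hx1, hx2⟩
        have e1 : G i (zz i) x := hs1 (a l) i hi hx1
        have e2 : G i (zz i) y := hs1 (a j) i hi hy
        exact ht i (zz i) y x e2 hx2 e1
      dsimp only
      rw [this]
      exact Set.countable_empty
    · exact ((hQ' l j hlj y hy).1 i hi).mono (inter_subset_inter_left _ (hsub l))

/-- Upward degrees can be made countable by passing to a subsequence of smaller blocks. -/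
theorem up_refine (G : ι → P → P → Prop)
    (ht : ∀ i x y z, G i x y → G i y z → G i x z → False) (k : ℕ) :
    ∀ (V : ℕ → Set P), (∀ n, ¬ (V n).Countable) →
      {i | ¬ ∀ l j, l ≠ j → ∀ x ∈ V l, ∀ y ∈ V j, ¬ G i x y}.ncard = k →
      ∃ (φ : ℕ → ℕ) (V' : ℕ → Set P), StrictMono φ ∧ (∀ n, V' n ⊆ V (φ n)) ∧
        (∀ n, ¬ (V' n).Countable) ∧
        ∀ l j, l < j → ∀ x ∈ V' l, ∀ i, (V' j ∩ {y | G i x y}).Countable := by
  classical
  induction k using Nat.strong_induction_on with
  | _ k ih =>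
    intro V hV hk
    by_cases hA : ∃ (j : ℕ) (x : P) (i : ι), x ∈ V j ∧ ∃ᶠ l in atTop, ¬ (V l ∩ {y | G i x y}).Countable
    · obtain ⟨j, x, i, hxj, hfr⟩ := hA
      obtain ⟨φ, hφ, hφ2⟩ := extraction_of_frequently_atTop hfr
      have hlt : {i' | ¬ ∀ l j, l ≠ j → ∀ x' ∈ V (φ l) ∩ {y | G i x y},
          ∀ y ∈ V (φ j) ∩ {y | G i x y}, ¬ G i' x' y}.ncard < k := by
        rw [← hk]
        apply Set.ncard_lt_ncard _ (Set.toFinite _)
        rw [Set.ssubset_iff_of_subset]
        · refine ⟨i, ?_, ?_⟩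
          · intro hcon
            -- an edge from x to a far block
            obtain ⟨l, hl1, hl2⟩ := (frequently_atTop.1 hfr) (j+1)
            have hne : (V l ∩ {y | G i x y}).Nonempty := by
              by_contra hemp
              rw [Set.not_nonempty_iff_eq_empty] at hemp
              rw [hemp] at hl2
              exact hl2 Set.countable_empty
            obtain ⟨y, hy1, hy2⟩ := hne
            exact hcon j l (by omega) x hxj y hy1 hy2
          · intro hcon
            apply hcon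
            rintro l j' _ x' ⟨_, hx'⟩ y ⟨_, hy⟩ hG
            exact ht i x x' y hx' hG hy
        · intro i' hi' hcon
          apply hi'
          intro l j' hlj x' hx' y hy
          exact hcon (φ l) (φ j') (fun h => hlj (hφ.injective h)) x' hx'.1 y hy.1
      obtain ⟨ψ, V', h1, h2, h3, h4⟩ := ih _ hlt (fun n => V (φ n) ∩ {y | G i x y}) hφ2 rfl
      exact ⟨φ ∘ ψ, V', hφ.comp h1, fun n => (h2 n).trans inter_subset_left, h3, h4⟩
    · push Not at hA
      have hb : ∀ j, ∀ x ∈ V j, ∃ b : ℕ, ∀ l, b ≤ l → ∀ i, (V l ∩ {y | G i x y}).Countable := by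
        intro j x hx
        have : ∀ᶠ l in atTop, ∀ i, (V l ∩ {y | G i x y}).Countable := by
          rw [eventually_all]
          intro i
          have := hA j x i hx
          simpa [Filter.Frequently] using this
        exact eventually_atTop.1 this
      have hc : ∀ j, ∃ b : ℕ, ¬ {x | x ∈ V j ∧ ∀ l, b ≤ l → ∀ i, (V l ∩ {y | G i x y}).Countable}.Countable := by
        intro j
        by_contra hcon
        push Not at hcon
        apply hV j
        refine (Set.countable_iUnion hcon).mono ?_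
        intro x hx
        obtain ⟨b, hb'⟩ := hb j x hx
        exact Set.mem_iUnion.2 ⟨b, hx, hb'⟩
      choose b hb' using hc
      let φ : ℕ → ℕ := fun j => Nat.rec 0 (fun _ x => x + 1 + b x) j
      have hφ : ∀ j, φ (j+1) = φ j + 1 + b (φ j) := fun j => rfl
      have hφm : StrictMono φ := strictMono_nat_of_lt_succ fun j => by rw [hφ j]; omega
      refine ⟨φ, fun n => {x | x ∈ V (φ n) ∧ ∀ l, b (φ n) ≤ l → ∀ i, (V l ∩ {y | G i x y}).Countable},
        hφm, fun n x hx => hx.1, fun n => hb' (φ n), ?_⟩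
      intro l j hlj x hx i
      have e1 : φ (l+1) ≤ φ j := hφm.monotone hlj
      have e2 : b (φ l) ≤ φ j := by rw [hφ l] at e1; omega
      exact (hx.2 (φ j) e2 i).mono (inter_subset_inter_left _ fun y hy => hy.1)

/-- Internal degrees can be made countable by passing to a smaller block. -/
theorem int_refine (G : ι → P → P → Prop)
    (ht : ∀ i x y z, G i x y → G i y z → G i x z → False) (k : ℕ) :
    ∀ (V : Set P), ¬ V.Countable → {i | ¬ ∀ x ∈ V, ∀ y ∈ V, ¬ G i x y}.ncard = k →
      ∃ V' ⊆ V, ¬ V'.Countable ∧ ∀ x ∈ V', ∀ i, (V' ∩ {y | G i x y}).Countable := by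
  classical
  induction k using Nat.strong_induction_on with
  | _ k ih =>
    intro V hV hk
    by_cases hA : ∃ (x : P) (i : ι), x ∈ V ∧ ¬ (V ∩ {y | G i x y}).Countable
    · obtain ⟨x, i, hx, hc⟩ := hA
      have hlt : {i' | ¬ ∀ x' ∈ V ∩ {y | G i x y}, ∀ y ∈ V ∩ {y | G i x y}, ¬ G i' x' y}.ncard < k := by
        rw [← hk]
        apply Set.ncard_lt_ncard _ (Set.toFinite _)
        rw [Set.ssubset_iff_of_subset]
        · refine ⟨i, ?_, ?_⟩
          · intro hcon
            have hne : (V ∩ {y | G i x y}).Nonempty := by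
              by_contra hemp
              rw [Set.not_nonempty_iff_eq_empty] at hemp
              rw [hemp] at hc
              exact hc Set.countable_empty
            obtain ⟨y, hy1, hy2⟩ := hne
            exact hcon x hx y hy1 hy2
          · intro hcon
            apply hcon
            rintro x' ⟨_, hx'⟩ y ⟨_, hy⟩ hG
            exact ht i x x' y hx' hG hy
        · intro i' hi' hcon
          apply hi'
          intro x' hx' y hy
          exact hcon x' hx'.1 y hy.1
      obtain ⟨V', h1, h2, h3⟩ := ih _ hlt (V ∩ {y | G i x y}) hc rfl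
      exact ⟨V', h1.trans inter_subset_left, h2, h3⟩
    · push Not at hA
      exact ⟨V, Subset.rfl, hV, fun x hx i => hA x i hx⟩

/-- Final recursion: if all degrees between the blocks are countable, we can shrink the blocks so
that there are no edges at all. -/
theorem final_rec (G : ι → P → P → Prop) (hs : ∀ i x y, G i x y → G i y x)
    {T : Type*} [LinearOrder T] [WellFoundedLT T] (hT : ¬ (univ : Set T).Countable)
    (hT2 : ∀ a : T, (Set.Iic a).Countable)
    (V : ℕ → Set P) (hV : ∀ n, ¬ (V n).Countable)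
    (hd : ∀ n m, ∀ x ∈ V n, ∀ i, (V m ∩ {y | G i x y}).Countable) 
    (hirr : ∀ i x, ¬ G i x x) :
    ∃ V' : ℕ → Set P, (∀ n, V' n ⊆ V n) ∧ (∀ n, ¬ (V' n).Countable) ∧
      ∀ n m, ∀ x ∈ V' n, ∀ y ∈ V' m, ∀ i, ¬ G i x y := by
  classical
  have hne : Nonempty P := by
    by_contra h
    rw [not_nonempty_iff] at h
    exact hV 0 (Set.to_countable _)
  obtain ⟨x, hx⟩ := wf_choice (J := T ×ₗ ℕ) (α := P) (· < ·) (wellFounded_lt)
    (fun ξ a => a ∈ V (ofLex ξ).2) (fun η ξ b a => b ≠ a ∧ ∀ i, ¬ G i b a) (by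
      intro ξ x hx
      have hcount : {η : T ×ₗ ℕ | η < ξ}.Countable := by
        have : {η : T ×ₗ ℕ | η < ξ} ⊆ ofLex ⁻¹' (Set.Iic (ofLex ξ).1 ×ˢ (univ : Set ℕ)) := by
          intro η hη
          simp only [Set.mem_preimage, Set.mem_prod, Set.mem_Iic, Set.mem_univ, and_true]
          rw [Set.mem_ofPred_eq, Prod.Lex.lt_iff] at hη
          rcases hη with h | h
          · exact h.le
          · exact h.1.le
        refine Set.Countable.mono this ?_
        exact ((hT2 _).prod (Set.countable_univ)).preimage ofLex.injective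
      have hcb : (⋃ η ∈ {η : T ×ₗ ℕ | η < ξ}, ({x η} ∪ ⋃ i, (V (ofLex ξ).2 ∩ {y | G i (x η) y}))).Countable := by
        refine Set.Countable.biUnion hcount fun η hη => ?_
        refine (Set.countable_singleton _).union ?_
        exact Set.countable_iUnion fun i => hd _ _ _ (hx η hη) i
      have hnot : ¬ (V (ofLex ξ).2 ⊆ (⋃ η ∈ {η : T ×ₗ ℕ | η < ξ}, ({x η} ∪ ⋃ i, (V (ofLex ξ).2 ∩ {y | G i (x η) y})))) :=
        fun h => hV _ (hcb.mono h)
      obtain ⟨a, ha, ha'⟩ := Set.not_subset.1 hnot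
      refine ⟨a, ha, fun η hη => ?_⟩
      simp only [Set.mem_iUnion, not_exists] at ha'
      have h1 := ha' η hη
      refine ⟨fun h => h1 (Or.inl h.symm), fun i hi => h1 (Or.inr ?_)⟩
      exact Set.mem_iUnion.2 ⟨i, ha, hi⟩)
  have hinj : Function.Injective x := by
    intro ξ η h
    rcases lt_trichotomy ξ η with hlt | heq | hlt
    · exact absurd h ((hx η).2 ξ hlt).1
    · exact heq
    · exact absurd h.symm ((hx ξ).2 η hlt).1
  refine ⟨fun n => x '' {ξ | (ofLex ξ).2 = n}, ?_, ?_, ?_⟩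
  · rintro n _ ⟨ξ, hξ, rfl⟩
    have := (hx ξ).1
    rw [Set.mem_ofPred_eq] at hξ
    rw [hξ] at this
    exact this
  · intro n hc
    have h1 : {ξ : T ×ₗ ℕ | (ofLex ξ).2 = n}.Countable := by
      have := hc.preimage hinj
      rwa [Set.preimage_image_eq _ hinj] at this
    apply hT
    have h2 : (univ : Set T) ⊆ (fun a : T => (toLex (a, n) : T ×ₗ ℕ)) ⁻¹' {ξ : T ×ₗ ℕ | (ofLex ξ).2 = n} := by
      intro a _
      simp
    refine (h1.preimage ?_).mono h2
    intro a b hab
    have : (a, n) = (b, n) := toLex.injective hab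
    exact (Prod.mk.inj this).1
  · rintro n m _ ⟨ξ, _, rfl⟩ _ ⟨η, _, rfl⟩ i hG
    rcases lt_trichotomy ξ η with hlt | heq | hlt
    · exact ((hx η).2 ξ hlt).2 i hG
    · rw [heq] at hG; exact hirr _ _ hG
    · exact ((hx ξ).2 η hlt).2 i (hs _ _ _ hG)

/-- The core theorem: blocks in strictly increasing columns without any edges. -/
theorem core [LinearOrder L] (col : P → L) (G : ι → P → P → Prop) (ℓ : Filter P)
    [CountableInterFilter ℓ] [NeBot ℓ] (h1 : ∀ a, ∀ᶠ y in ℓ, a < col y)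
    (h2 : ∀ W : Set P, (∃ᶠ y in ℓ, y ∈ W) → ∃ V ⊆ W, IsBlock col V)
    (hs : ∀ i x y, G i x y → G i y x)
    (ht : ∀ i x y z, G i x y → G i y z → G i x z → False)
    {T : Type*} [LinearOrder T] [WellFoundedLT T] (hT : ¬ (univ : Set T).Countable)
    (hT2 : ∀ a : T, (Set.Iic a).Countable) :
    ∃ (a : ℕ → L) (V : ℕ → Set P), StrictMono a ∧ (∀ n, ¬ (V n).Countable) ∧
      (∀ n, ∀ y ∈ V n, col y = a n) ∧
      ∀ n m, ∀ x ∈ V n, ∀ y ∈ V m, ∀ i, ¬ G i x y := by
  obtain ⟨V1, hV1, hV1c, hV1d⟩ := exists_good col G ℓ h1 h2 ht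
  obtain ⟨φ, V2, hφ, hV2, hV2c, hV2d⟩ := up_refine G ht _ V1 (fun n => (hV1 n).1) rfl
  have h3 := fun n => int_refine G ht _ (V2 n) (hV2c n) rfl
  choose V3 hV3 hV3c hV3d using h3
  have hsub : ∀ n, V3 n ⊆ V1 (φ n) := fun n => (hV3 n).trans (hV2 n)
  obtain ⟨V4, hV4, hV4c, hV4e⟩ := final_rec G hs hT hT2 V3 hV3c (by
    intro n m x hx i
    rcases lt_trichotomy n m with hlt | heq | hlt
    · exact (hV2d n m hlt x (hV3 n hx) i).mono (inter_subset_inter_left _ (hV3 m))
    · subst heq; exact hV3d n x hx i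
    · exact (hV1d (φ m) (φ n) (hφ hlt) x (hsub n hx) i).mono (inter_subset_inter_left _ (hsub m)))
    (fun i x h => ht i x x x h h h)
  have hcol : ∀ n, ∃ a, ∀ y ∈ V1 n, col y = a := fun n => (hV1 n).2
  choose a ha using hcol
  refine ⟨fun n => a (φ n), V4, ?_, hV4c, fun n y hy => ha _ y (hsub n (hV4 n hy)), hV4e⟩
  refine strictMono_nat_of_lt_succ fun n => ?_
  have e : ∀ m, (V4 m).Nonempty := by
    intro m
    by_contra hemp
    rw [Set.not_nonempty_iff_eq_empty] at hemp
    have := hV4c m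
    rw [hemp] at this
    exact this Set.countable_empty
  obtain ⟨x, hx⟩ := e n
  obtain ⟨y, hy⟩ := e (n+1)
  have hx1 := hsub n (hV4 n hx)
  have hy1 := hsub (n+1) (hV4 (n+1) hy)
  have := hV1c (φ n) (φ (n+1)) (hφ (Nat.lt_succ_self n)) x hx1 y hy1
  rw [ha _ x hx1, ha _ y hy1] at this
  exact this

end core

end Pool.Agent.Helper300.Part
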