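import Mathlib
import Pool.Agent.Helper300.OrderArc

open Set Topology TopologicalSpace

namespace Pool.Agent.Helper300.Ward

attribute [local instance] TopologicalSpace.vietoris

theorem continuousAt_image {Z T Y : Type*} [TopologicalSpace Z] [TopologicalSpace T]
    [TopologicalSpace Y] {f : Z → T → Y} {K : Set T} (hK : IsCompact K) {z : Z}
    (hf : ∀ t ∈ K, ContinuousAt (fun p : Z × T => f p.1 p.2) (z, t)) :
    ContinuousAt (fun z => f z '' K) z := by
  show Filter.Tendsto _ _ (@nhds _ (generateFrom _) _)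
  rw [tendsto_nhds_generateFrom_iff]
  rintro _ (⟨U, hU, rfl⟩ | ⟨U, hU, rfl⟩) hs
  · have hs' : f z '' K ⊆ U := hs
    have := hK.eventually_forall_of_forall_eventually (x₀ := z) (P := fun z t => f z t ∈ U)
      (fun t ht => (hf t ht).eventually (hU.mem_nhds (hs' ⟨t, ht, rfl⟩)))
    filter_upwards [this] with w hw
    rintro _ ⟨t, ht, rfl⟩
    exact hw t ht
  · obtain ⟨_, ⟨t, ht, rfl⟩, hyU⟩ := hs
    have h1 : ContinuousAt (fun z => f z t) z :=
      ContinuousAt.comp (f := fun z => (z, t)) (hf t ht) (by fun_prop)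
    filter_upwards [h1.eventually (hU.mem_nhds hyU)] with w hw
    exact ⟨_, ⟨t, ht, rfl⟩, hw⟩

noncomputable def φ (r : ℝ) : ℝ := Real.pi * max 0 (min 1 (2 - 2 * r))

theorem continuous_φ : Continuous φ := by unfold φ; fun_prop

theorem φ_one : φ 1 = 0 := by
  unfold φ
  norm_num

theorem φ_small {r : ℝ} (h : r ≤ 1 / 2) : φ r = Real.pi := by
  unfold φ
  rw [min_eq_left (by linarith), max_eq_right (by norm_num), mul_one]

noncomputable def g (z : ℂ) (τ : ℝ) : Circle := Circle.exp z.arg * Circle.exp (τ * φ ‖z‖)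

noncomputable def G (z : ℂ) : Set Circle := g z '' Icc (-1) 1

theorem continuousAt_u {z : ℂ} (hz : z ≠ 0) :
    ContinuousAt (fun z : ℂ => Circle.exp z.arg) z := by
  have hind : IsInducing (fun z : Circle => (z : ℂ)) := ⟨rfl⟩
  rw [hind.continuousAt_iff]
  have h1 : ContinuousAt (fun z : ℂ => z / (‖z‖ : ℂ)) z := by
    apply ContinuousAt.div continuousAt_id
    · fun_prop
    · simpa using hz
  apply h1.congr
  filter_upwards [isOpen_ne.mem_nhds hz] with w hw
  have h2 := Complex.norm_mul_exp_arg_mul_I w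
  have h3 : (‖w‖ : ℂ) ≠ 0 := by simpa using hw
  show w / ‖w‖ = Complex.exp (w.arg * Complex.I)
  rw [div_eq_iff h3, mul_comm]
  exact h2.symm

theorem G_small {z : ℂ} (hz : ‖z‖ ≤ 1 / 2) : G z = univ := by
  rw [eq_univ_iff_forall]
  intro ζ
  refine ⟨((Circle.exp z.arg)⁻¹ * ζ : Circle).val.arg / Real.pi, ?_, ?_⟩
  · constructor
    · rw [le_div_iff₀ Real.pi_pos]
      linarith [Complex.neg_pi_lt_arg ((Circle.exp z.arg)⁻¹ * ζ : Circle).val]
    · rw [div_le_iff₀ Real.pi_pos]
      linarith [Complex.arg_le_pi ((Circle.exp z.arg)⁻¹ * ζ : Circle).val]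
  · unfold g
    rw [φ_small hz, div_mul_cancel₀ _ Real.pi_ne_zero, Circle.exp_arg]
    group

theorem G_circle (ζ : Circle) : G ζ = {ζ} := by
  unfold G
  have h : ∀ τ : ℝ, g ζ τ = ζ := by
    intro τ
    unfold g
    rw [Circle.norm_coe, φ_one, mul_zero, Circle.exp_zero, mul_one, Circle.exp_arg]
  ext x
  simp only [h, mem_image, mem_singleton_iff]
  constructor
  · rintro ⟨_, _, rfl⟩; rfl
  · rintro rfl; exact ⟨0, by norm_num, rfl⟩

theorem continuous_G : Continuous G := by
  rw [continuous_iff_continuousAt]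
  intro z
  by_cases hz : z = 0
  · have h : (fun _ => univ : ℂ → Set Circle) =ᶠ[𝓝 z] G := by
      have : Metric.ball (0 : ℂ) (1 / 2) ∈ 𝓝 z := by
        rw [hz]
        exact Metric.ball_mem_nhds _ (by norm_num)
      filter_upwards [this] with w hw
      rw [G_small]
      rw [mem_ball_zero_iff] at hw
      exact hw.le
    exact continuousAt_const.congr h
  · apply continuousAt_image isCompact_Icc
    intro τ _
    unfold g
    apply ContinuousAt.mul
    · exact ContinuousAt.comp (f := Prod.fst) (continuousAt_u hz) continuousAt_fst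
    · have := continuous_φ
      fun_prop

theorem isCompact_G (z : ℂ) : IsCompact (G z) := by
  apply isCompact_Icc.image
  unfold g
  fun_prop

theorem G_nonempty (z : ℂ) : (G z).Nonempty := ⟨_, 0, by norm_num, rfl⟩

variable {X : Type*} [TopologicalSpace X]

/-- union of a family -/
def H (A : Circle → Set X) (z : ℂ) : Set X := ⋃ ζ ∈ G z, A ζ

theorem continuous_H {A : Circle → Set X} (hA : Continuous A) : Continuous (H A) := by
  rw [continuous_generateFrom_iff]
  rintro _ (⟨U, hU, rfl⟩ | ⟨U, hU, rfl⟩)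
  · have h1 : IsOpen {ζ | A ζ ⊆ U} := hU.powerset_vietoris.preimage hA
    have h2 : IsOpen {z | G z ⊆ {ζ | A ζ ⊆ U}} := h1.powerset_vietoris.preimage continuous_G
    convert h2 using 1
    ext z
    simp [H, mem_powerset_iff, subset_def]
    tauto
  · have h1 : IsOpen {ζ | (A ζ ∩ U).Nonempty} :=
      (vietoris.isOpen_inter_nonempty_of_isOpen hU).preimage hA
    have h2 : IsOpen {z | (G z ∩ {ζ | (A ζ ∩ U).Nonempty}).Nonempty} :=
      (vietoris.isOpen_inter_nonempty_of_isOpen h1).preimage continuous_G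
    convert h2 using 1
    ext z
    constructor
    · rintro ⟨x, hx, hxU⟩
      obtain ⟨ζ, hζ, hxζ⟩ := mem_iUnion₂.1 hx
      exact ⟨ζ, hζ, x, hxζ, hxU⟩
    · rintro ⟨ζ, hζ, x, hxζ, hxU⟩
      exact ⟨x, mem_iUnion₂.2 ⟨ζ, hζ, hxζ⟩, hxU⟩

theorem isClosed_H [T2Space X] {A : Circle → Set X} (hA : Continuous A)
    (hc : ∀ ζ, IsCompact (A ζ)) (z : ℂ) : IsClosed (H A z) := by
  rw [← isOpen_compl_iff, isOpen_iff_mem_nhds]
  intro x hx
  have hx' : ∀ ζ ∈ G z, x ∉ A ζ := fun ζ hζ hxζ => hx (mem_iUnion₂.2 ⟨ζ, hζ, hxζ⟩)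
  have := (isCompact_G z).eventually_forall_of_forall_eventually (x₀ := x)
    (P := fun y ζ => y ∉ A ζ) (fun ζ hζ => by
      obtain ⟨U, V, hU, hV, hAU, hxV, hUV⟩ := SeparatedNhds.of_isCompact_isCompact (hc ζ)
        (isCompact_singleton (x := x)) (disjoint_singleton_right.2 (hx' ζ hζ))
      have h1 : ∀ᶠ ζ' in 𝓝 ζ, A ζ' ⊆ U := (hU.powerset_vietoris.preimage hA).mem_nhds hAU
      have h2 : ∀ᶠ y in 𝓝 x, y ∈ V := hV.mem_nhds (hxV rfl)
      filter_upwards [h2.prod_nhds h1] with p hp hp'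
      exact disjoint_left.1 hUV (hp.2 hp') hp.1)
  filter_upwards [this] with y hy hyH
  obtain ⟨ζ, hζ, hyζ⟩ := mem_iUnion₂.1 hyH
  exact hy ζ hζ hyζ

omit [TopologicalSpace X] in
theorem H_circle (A : Circle → Set X) (ζ : Circle) : H A ζ = A ζ := by
  unfold H
  rw [G_circle, biUnion_singleton]

omit [TopologicalSpace X] in
theorem H_nonempty {A : Circle → Set X} (hA : ∀ ζ, (A ζ).Nonempty) (z : ℂ) :
    (H A z).Nonempty := by
  obtain ⟨ζ, hζ⟩ := G_nonempty z
  obtain ⟨x, hx⟩ := hA ζ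
  exact ⟨x, mem_iUnion₂.2 ⟨ζ, hζ, hx⟩⟩

omit [TopologicalSpace X] in
theorem H_subset {A : Circle → Set X} {Z : Set X} (hA : ∀ ζ, A ζ ⊆ Z) (z : ℂ) : H A z ⊆ Z :=
  iUnion₂_subset fun ζ _ => hA ζ

/-- The key step: a circle of compact subsets of a closed set `Z` and a map from `Z` to the circle
such that no point lies in the corresponding set give a fixed point free set-valued map. -/
theorem exists_free {X : Type*} [TopologicalSpace X] [CompactSpace X] [T2Space X]
    {Z : Set X} (hZ : IsClosed Z) {A : Circle → Set X} (hA : Continuous A)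
    (hc : ∀ ζ, IsClosed (A ζ)) (hne : ∀ ζ, (A ζ).Nonempty) (hAZ : ∀ ζ, A ζ ⊆ Z)
    {θ : X → Circle} (hθ : ContinuousOn θ Z) (hfree : ∀ z ∈ Z, z ∉ A (θ z)) :
    ∃ F : X → NonemptyCompacts X, Continuous F ∧ ∀ x, x ∉ F x := by
  have hcoe : Continuous (fun z : Circle => (z : ℂ)) := continuous_induced_dom
  obtain ⟨Θ, hΘ⟩ := ContinuousMap.exists_restrict_eq hZ
    (⟨fun z : Z => ((θ z : Circle) : ℂ), hcoe.comp (continuousOn_iff_continuous_domRestrict.1 hθ)⟩ :
      C(Z, ℂ))
  have hΘ' : ∀ z ∈ Z, Θ z = θ z := fun z hz => congrArg (fun f => f ⟨z, hz⟩) hΘ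
  refine ⟨fun x => ⟨⟨H A (Θ x), (isClosed_H hA (fun ζ => (hc ζ).isCompact) _).isCompact⟩,
    H_nonempty hne _⟩, ?_, ?_⟩
  · rw [continuous_induced_rng]
    exact (continuous_H hA).comp Θ.continuous
  · intro x hx
    have hx' : x ∈ H A (Θ x) := hx
    have hxZ : x ∈ Z := H_subset hAZ _ hx'
    rw [hΘ' x hxZ, H_circle] at hx'
    exact hfree x hxZ hx'

/-- a path in the hyperspace from a singleton along an arc and then up to `P` -/
theorem half {X : Type*} [TopologicalSpace X] [CompactSpace X] [T2Space X]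
    [SecondCountableTopology X] {P : Set X}
    (hP : IsClosed P) (hPc : IsConnected P) {Q : ℝ → X} (hQ : Continuous Q) (h1 : Q 1 ∈ P) :
    ∃ γ : ℝ → Set X, Continuous γ ∧ γ 0 = {Q (1 / 2)} ∧ γ 1 = P ∧
      ∀ t, IsClosed (γ t) ∧ (γ t).Nonempty ∧ γ t ⊆ P ∪ Q '' Icc (1 / 2) 1 := by
  obtain ⟨β, hβ, hβ0, hβ1, hβt⟩ := OrderArc.order_arc hP hPc h1
  refine ⟨fun t => if t ≤ 1 / 2 then {Q (1 / 2 + max 0 t)} else β (2 * t - 1), ?_, ?_, ?_, ?_⟩
  · apply Continuous.if_le
    · exact vietoris.continuous_singleton.comp (hQ.comp (by fun_prop))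
    · exact hβ.comp (by fun_prop)
    · fun_prop
    · fun_prop
    · rintro x rfl
      norm_num
      exact hβ0.symm
  · norm_num
  · norm_num
    exact hβ1
  · intro t
    show IsClosed (if t ≤ 1 / 2 then {Q (1 / 2 + max 0 t)} else β (2 * t - 1)) ∧
      (if t ≤ 1 / 2 then {Q (1 / 2 + max 0 t)} else β (2 * t - 1)).Nonempty ∧
      (if t ≤ 1 / 2 then {Q (1 / 2 + max 0 t)} else β (2 * t - 1)) ⊆ P ∪ Q '' Icc (1 / 2) 1
    split_ifs with h
    · refine ⟨isClosed_singleton, singleton_nonempty _, singleton_subset_iff.2 (Or.inr ?_)⟩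
      refine ⟨_, ⟨?_, ?_⟩, rfl⟩
      · linarith [le_max_left 0 t]
      · have : max 0 t ≤ 1 / 2 := max_le (by norm_num) h
        linarith
    · exact ⟨(hβt _).1, (hβt _).2.1, (hβt _).2.2.trans subset_union_left⟩

theorem handle {X : Type*} [TopologicalSpace X] [CompactSpace X] [T2Space X]
    [SecondCountableTopology X] {P : Set X}
    (hP : IsClosed P) (hPc : IsConnected P) {Q : ℝ → X} (hQ : Continuous Q)
    (hinj : InjOn Q (Icc 0 1)) (h0 : Q 0 ∈ P) (h1 : Q 1 ∈ P) (hmid : ∀ u ∈ Ioo 0 1, Q u ∉ P) :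
    ∃ F : X → NonemptyCompacts X, Continuous F ∧ ∀ x, x ∉ F x := by
  classical
  obtain ⟨γb, hb, hb0, hb1, hbt⟩ := half hP hPc hQ h1
  obtain ⟨γa, ha, ha0, ha1, hat⟩ := half hP hPc (Q := fun u => Q (1 - u)) (hQ.comp (by fun_prop))
    (by show Q (1 - 1) ∈ P; rw [sub_self]; exact h0)
  -- the inverse of the arc
  have he : IsClosedEmbedding (fun u : Icc (0 : ℝ) 1 => Q u) := by
    apply Continuous.isClosedEmbedding (hQ.comp continuous_subtype_val)
    intro u v h
    exact Subtype.ext (hinj u.2 v.2 h)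
  obtain ⟨q, hq⟩ := ContinuousMap.exists_extension he
    (⟨fun u : Icc (0 : ℝ) 1 => (u : ℝ), continuous_subtype_val⟩ : C(Icc (0 : ℝ) 1, ℝ))
  have hq' : ∀ u ∈ Icc (0 : ℝ) 1, q (Q u) = u := fun u hu => congrArg (fun f => f ⟨u, hu⟩) hq
  set Z : Set X := P ∪ Q '' Icc 0 1 with hZ
  have hQcl : IsClosed (Q '' Icc (0 : ℝ) 1) := (isCompact_Icc.image hQ).isClosed
  have hcoe : Continuous (fun z : Circle => (z : ℂ)) := continuous_induced_dom
  have hre : Continuous (fun ζ : Circle => (ζ : ℂ).re) := Complex.continuous_re.comp hcoe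
  have him : Continuous (fun ζ : Circle => (ζ : ℂ).im) := Complex.continuous_im.comp hcoe
  set A : Circle → Set X := fun ζ => if 0 ≤ (ζ : ℂ).re then γb ((1 + (ζ : ℂ).im) / 2)
    else γa ((1 + (ζ : ℂ).im) / 2) with hA
  set θ : X → Circle := fun x => if x ∈ P then Circle.exp (- (Real.pi / 2))
    else Circle.exp (2 * Real.pi * q x - Real.pi / 2) with hθ
  have hsub1 : Icc (1 / 2 : ℝ) 1 ⊆ Icc 0 1 := Icc_subset_Icc_left (by norm_num)
  have hsub2 : Icc (0 : ℝ) (1 / 2) ⊆ Icc 0 1 := Icc_subset_Icc_right (by norm_num)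
  have hat' : ∀ t, γa t ⊆ P ∪ Q '' Icc 0 (1 / 2) := by
    intro t
    apply (hat t).2.2.trans
    apply union_subset_union_right
    rintro _ ⟨u, hu, rfl⟩
    exact ⟨1 - u, ⟨by linarith [hu.2], by linarith [hu.1]⟩, rfl⟩
  have hθP : ∀ x ∈ P, θ x = Circle.exp (- (Real.pi / 2)) := fun x hx => if_pos hx
  have hθQ : ∀ x ∈ Q '' Icc (0 : ℝ) 1, θ x = Circle.exp (2 * Real.pi * q x - Real.pi / 2) := by
    rintro _ ⟨u, hu, rfl⟩
    by_cases hP' : Q u ∈ P
    · rw [hθP _ hP', hq' u hu]
      rcases eq_or_lt_of_le hu.1 with h | h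
      · rw [← h]
        congr 1
        ring
      · rcases eq_or_lt_of_le hu.2 with h' | h'
        · rw [h', mul_one, show 2 * Real.pi - Real.pi / 2 = -(Real.pi / 2) + 2 * Real.pi by ring,
            Circle.exp_add, Circle.exp_two_pi, mul_one]
        · exact absurd hP' (hmid u ⟨h, h'⟩)
    · exact if_neg hP'
  apply exists_free (Z := Z) (hP.union hQcl) (A := A) (θ := θ)
  · apply Continuous.if_le
    · exact hb.comp (by fun_prop)
    · exact ha.comp (by fun_prop)
    · fun_prop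
    · exact hre
    · intro ζ hζ
      have h2 : (ζ : ℂ).re ^ 2 + (ζ : ℂ).im ^ 2 = 1 := by
        have h3 := Circle.normSq_coe ζ
        rw [Complex.normSq_apply] at h3
        linarith
      rw [← hζ] at h2
      have h4 : ((ζ : ℂ).im - 1) * ((ζ : ℂ).im + 1) = 0 := by linarith
      rcases mul_eq_zero.1 h4 with h | h
      · rw [show (ζ : ℂ).im = 1 by linarith]
        norm_num
        rw [hb1, ha1]
      · rw [show (ζ : ℂ).im = -1 by linarith]
        norm_num
        rw [hb0, ha0]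
        norm_num
  · intro ζ
    simp only [hA]
    split_ifs
    · exact (hbt _).1
    · exact (hat _).1
  · intro ζ
    simp only [hA]
    split_ifs
    · exact (hbt _).2.1
    · exact (hat _).2.1
  · intro ζ
    simp only [hA]
    split_ifs
    · exact (hbt _).2.2.trans (union_subset_union_right _ (image_mono hsub1))
    · exact (hat' _).trans (union_subset_union_right _ (image_mono hsub2))
  · apply ContinuousOn.union_of_isClosed _ _ hP hQcl
    · exact continuousOn_const.congr hθP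
    · apply ContinuousOn.congr _ hθQ
      apply Continuous.continuousOn
      fun_prop
  · intro z hz hzA
    by_cases hzP : z ∈ P
    · rw [hθP z hzP] at hzA
      have e1 : ((Circle.exp (-(Real.pi / 2)) : Circle) : ℂ).re = 0 := by
        rw [Circle.coe_exp, Complex.exp_ofReal_mul_I_re, Real.cos_neg, Real.cos_pi_div_two]
      have e2 : ((Circle.exp (-(Real.pi / 2)) : Circle) : ℂ).im = -1 := by
        rw [Circle.coe_exp, Complex.exp_ofReal_mul_I_im, Real.sin_neg, Real.sin_pi_div_two]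
      have h2 : A (Circle.exp (-(Real.pi / 2))) = {Q (1 / 2)} := by
        have h3 : A (Circle.exp (-(Real.pi / 2)))
            = γb ((1 + ((Circle.exp (-(Real.pi / 2)) : Circle) : ℂ).im) / 2) :=
          if_pos (by rw [e1])
        rw [h3, e2, show ((1 : ℝ) + -1) / 2 = 0 by norm_num, hb0]
      rw [h2] at hzA
      exact hmid (1 / 2) (by norm_num) ((hzA : z = _) ▸ hzP)
    · obtain ⟨u, hu, rfl⟩ := hz.resolve_left hzP
      have hu0 : 0 < u := by
        rcases eq_or_lt_of_le hu.1 with h | h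
        · rw [← h] at hzP; exact absurd h0 hzP
        · exact h
      have hu1 : u < 1 := by
        rcases eq_or_lt_of_le hu.2 with h | h
        · rw [h] at hzP; exact absurd h1 hzP
        · exact h
      rw [hθQ _ ⟨u, hu, rfl⟩, hq' u hu] at hzA
      have hre2 : ((Circle.exp (2 * Real.pi * u - Real.pi / 2) : Circle) : ℂ).re
          = Real.sin (2 * Real.pi * u) := by
        rw [Circle.coe_exp, Complex.exp_ofReal_mul_I_re, Real.cos_sub_pi_div_two]
      have him2 : ((Circle.exp (2 * Real.pi * u - Real.pi / 2) : Circle) : ℂ).im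
          = - Real.cos (2 * Real.pi * u) := by
        rw [Circle.coe_exp, Complex.exp_ofReal_mul_I_im, Real.sin_sub_pi_div_two]
      simp only [hA] at hzA
      rw [hre2, him2] at hzA
      have hpi := Real.pi_pos
      rcases lt_trichotomy u (1 / 2) with h | h | h
      · have hsin : 0 ≤ Real.sin (2 * Real.pi * u) :=
          Real.sin_nonneg_of_nonneg_of_le_pi (by positivity) (by nlinarith)
        rw [if_pos hsin] at hzA
        rcases (hbt _).2.2 hzA with h2 | ⟨v, hv, h2⟩
        · exact hzP h2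
        · rw [← hinj (hsub1 hv) hu h2] at h
          linarith [hv.1]
      · rw [h, show 2 * Real.pi * (1 / 2) = Real.pi by ring, Real.sin_pi, Real.cos_pi,
          if_pos le_rfl] at hzA
        norm_num at hzA
        rw [hb1] at hzA
        rw [h] at hzP
        norm_num at hzP
        exact hzP hzA
      · have hsin : Real.sin (2 * Real.pi * u) < 0 := by
          have h3 : Real.sin (2 * Real.pi * u - 2 * Real.pi) = Real.sin (2 * Real.pi * u) :=
            Real.sin_sub_two_pi _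
          rw [← h3]
          apply Real.sin_neg_of_neg_of_neg_pi_lt
          · nlinarith
          · nlinarith
        rw [if_neg (not_le.2 hsin)] at hzA
        rcases hat' _ hzA with h2 | ⟨v, hv, h2⟩
        · exact hzP h2
        · rw [← hinj (hsub2 hv) hu h2] at h
          linarith [hv.2]

/-- extraction of an arc meeting `P` exactly in its endpoints -/
theorem extract {X : Type*} [TopologicalSpace X] {P : Set X} (hP : IsClosed P) {x y : X}
    (hx : x ∈ P) (hy : y ∈ P) (γ : Path x y) (hγ : Function.Injective γ) {s : unitInterval}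
    (hs : γ s ∉ P) :
    ∃ Q : ℝ → X, Continuous Q ∧ InjOn Q (Icc 0 1) ∧ Q 0 ∈ P ∧ Q 1 ∈ P ∧
      ∀ u ∈ Ioo 0 1, Q u ∉ P := by
  have hf : Continuous γ.extend := γ.continuous_extend
  have hext : ∀ t (ht : t ∈ Icc (0 : ℝ) 1), γ.extend t = γ ⟨t, ht⟩ := fun t ht =>
    γ.extend_apply ht
  have hfinj : InjOn γ.extend (Icc 0 1) := by
    intro u hu v hv h
    rw [hext u hu, hext v hv] at h
    exact congrArg Subtype.val (hγ h)
  have hsP : γ.extend s ∉ P := by
    rw [hext s s.2]; exact hs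
  have hK1 : IsCompact (Icc (0 : ℝ) s ∩ γ.extend ⁻¹' P) := isCompact_Icc.inter_right (hP.preimage hf)
  have hK2 : IsCompact (Icc (s : ℝ) 1 ∩ γ.extend ⁻¹' P) := isCompact_Icc.inter_right (hP.preimage hf)
  have hn1 : (Icc (0 : ℝ) s ∩ γ.extend ⁻¹' P).Nonempty :=
    ⟨0, ⟨le_rfl, s.2.1⟩, by rw [mem_preimage, γ.extend_zero]; exact hx⟩
  have hn2 : (Icc (s : ℝ) 1 ∩ γ.extend ⁻¹' P).Nonempty :=
    ⟨1, ⟨s.2.2, le_rfl⟩, by rw [mem_preimage, γ.extend_one]; exact hy⟩
  have ha := hK1.sSup_mem hn1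
  have hb := hK2.sInf_mem hn2
  set a := sSup (Icc (0 : ℝ) s ∩ γ.extend ⁻¹' P) with ha'
  set b := sInf (Icc (s : ℝ) 1 ∩ γ.extend ⁻¹' P) with hb'
  have has : a < s := lt_of_le_of_ne ha.1.2 (fun h => hsP (h ▸ ha.2))
  have hsb : (s : ℝ) < b := lt_of_le_of_ne hb.1.1 (fun h => hsP (h ▸ hb.2))
  have hab : 0 < b - a := by linarith
  refine ⟨fun u => γ.extend (a + u * (b - a)), hf.comp (by fun_prop), ?_, ?_, ?_, ?_⟩
  · intro u hu v hv h
    have hmem : ∀ w ∈ Icc (0 : ℝ) 1, a + w * (b - a) ∈ Icc (0 : ℝ) 1 := by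
      intro w hw
      have h1 : w * (b - a) ≤ 1 * (b - a) := mul_le_mul_of_nonneg_right hw.2 hab.le
      have h2 : 0 ≤ w * (b - a) := mul_nonneg hw.1 hab.le
      exact ⟨by linarith [ha.1.1], by linarith [hb.1.2]⟩
    have h3 := hfinj (hmem u hu) (hmem v hv) h
    have h4 : u * (b - a) = v * (b - a) := by linarith
    exact mul_right_cancel₀ hab.ne' h4
  · show γ.extend (a + 0 * (b - a)) ∈ P
    rw [zero_mul, add_zero]
    exact ha.2
  · show γ.extend (a + 1 * (b - a)) ∈ P
    rw [one_mul, add_sub_cancel]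
    exact hb.2
  · intro u hu hQu
    have h1 : u * (b - a) < 1 * (b - a) := mul_lt_mul_of_pos_right hu.2 hab
    have h2 : 0 < u * (b - a) := mul_pos hu.1 hab
    have hQu' : γ.extend (a + u * (b - a)) ∈ P := hQu
    rcases le_total (a + u * (b - a)) s with h | h
    · have h3 : a + u * (b - a) ≤ a := le_csSup hK1.bddAbove
        ⟨⟨by linarith [ha.1.1], h⟩, hQu'⟩
      linarith
    · have h3 : b ≤ a + u * (b - a) := csInf_le hK2.bddBelow
        ⟨⟨h, by linarith [hb.1.2]⟩, hQu'⟩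
      linarith

/-- An arcwise connected metrisable continuum on which every continuous map to nonempty closed
subsets has a fixed point is hereditarily unicoherent. -/
theorem ward {X : Type*} [TopologicalSpace X] [CompactSpace X] [T2Space X]
    [SecondCountableTopology X]
    (harc : ∀ x y : X, x ≠ y → ∃ γ : Path x y, Function.Injective γ)
    (hfix : ∀ F : X → NonemptyCompacts X, Continuous F → ∃ x : X, x ∈ F x)
    {A B : Set X} (hA : IsClosed A) (hAc : IsConnected A) (hB : IsClosed B) (hBc : IsConnected B) :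
    IsPreconnected (A ∩ B) := by
  have key : ∀ P : Set X, IsClosed P → IsConnected P → ∀ x ∈ P, ∀ y ∈ P, ∀ γ : Path x y,
      Function.Injective γ → ∀ s, γ s ∈ P := by
    intro P hP hPc x hx y hy γ hγ s
    by_contra hs
    obtain ⟨Q, hQ, hinj, h0, h1, hmid⟩ := extract hP hx hy γ hγ hs
    obtain ⟨F, hF, hfree⟩ := handle hP hPc hQ hinj h0 h1 hmid
    obtain ⟨x, hx⟩ := hfix F hF
    exact hfree x hx
  rcases (A ∩ B).eq_empty_or_nonempty with h | ⟨x, hx⟩
  · rw [h]; exact isPreconnected_empty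
  · apply IsConnected.isPreconnected
    apply IsPathConnected.isConnected
    refine ⟨x, hx, ?_⟩
    intro y hy
    by_cases hxy : x = y
    · rw [← hxy]
      exact JoinedIn.refl hx
    · obtain ⟨γ, hγ⟩ := harc x y hxy
      exact ⟨γ, fun s => ⟨key A hA hAc x hx.1 y hy.1 γ hγ s, key B hB hBc x hx.2 y hy.2 γ hγ s⟩⟩

end Pool.Agent.Helper300.Ward
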